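import Pool.Agent.D0H71.CM.Keep

set_option autoImplicit false

/-!
Real linear forms in the values of compositions of multiplicative functions stay away from sparse sets.
-/

namespace Pool.Agent.D0H71.CM

open Finset Classical

lemma card_box_update {k : ℕ} (j : Fin k) (X : ℕ) :
    (Fintype.piFinset (fun i : Fin k => if i = j then ({0} : Finset ℕ) else Icc 1 X)).card = X ^ (k - 1) := by
  rw [Fintype.card_piFinset, ← mul_prod_erase univ _ (mem_univ j)]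
  simp only [if_true, card_singleton, one_mul]
  rw [prod_congr rfl (g := fun _ => X) (fun i hi => by
    rw [if_neg (ne_of_mem_erase hi), Nat.card_Icc, Nat.add_sub_cancel]), prod_const, card_erase_of_mem (mem_univ _),
    card_univ, Fintype.card_fin]

/-- the tuples whose linear form is close to an element of `B` -/
def NearLin {k : ℕ} (α : Fin k → ℝ) (κ : ℝ) (B : Set ℕ) : Set (Fin k → ℕ) :=
  {w | ∃ n ∈ B, 1 ≤ n ∧ |(n : ℝ) - ∑ i, α i * (w i : ℝ)| ≤ 2 * (∑ i, (w i : ℝ)) ^ κ}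

lemma count_near_lin {k : ℕ} (α : Fin k → ℝ) (hα : α ≠ 0) {B : Set ℕ} {C θ κ : ℝ} (hθ0 : 0 ≤ θ) (hκ0 : 0 ≤ κ)
    (hκ : θ + κ < 1)
    (hC : ∀ X : ℕ, 1 ≤ X → (((Icc 1 X).filter (fun n => n ∈ B)).card : ℝ) ≤ C * (X : ℝ) ^ θ) :
    ∃ C₀ : ℝ, ∀ X : ℕ, 1 ≤ X →
      ({w : Fin k → ℕ | w ∈ NearLin α κ B ∧ ∀ i, 1 ≤ w i ∧ w i ≤ X}.ncard : ℝ) ≤
        C₀ * (X : ℝ) ^ ((k : ℝ) - (1 - θ - κ)) := by
  obtain ⟨j, hj⟩ : ∃ j, α j ≠ 0 := by
    by_contra hcon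
    push Not at hcon
    exact hα (funext hcon)
  have hj0 : 0 < |α j| := abs_pos.2 hj
  have hk : 1 ≤ k := by
    have := j.2
    omega
  have hkr : (1 : ℝ) ≤ k := by exact_mod_cast hk
  have hC0 : 0 ≤ C := by
    have := hC 1 le_rfl
    rw [Nat.cast_one, Real.one_rpow, mul_one] at this
    exact le_trans (Nat.cast_nonneg _) this
  obtain ⟨M, hM⟩ : ∃ M : ℕ, M = ⌈∑ i, |α i|⌉₊ + 2 * k := ⟨_, rfl⟩
  have hM1 : 1 ≤ M := by omega
  have hMr : ∑ i, |α i| + 2 * (k : ℝ) ≤ M := by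
    rw [hM]
    push_cast
    linarith [Nat.le_ceil (∑ i, |α i|)]
  refine ⟨C * (M : ℝ) ^ θ * ((4 / |α j| + 5) * (k : ℝ) ^ κ), fun X hX => ?_⟩
  have hX1 : (1 : ℝ) ≤ X := by exact_mod_cast hX
  have hX0 : (0 : ℝ) < X := by linarith
  have hkX : (1 : ℝ) ≤ k * X := by nlinarith
  have hkXκ : 1 ≤ ((k : ℝ) * X) ^ κ := Real.one_le_rpow hkX hκ0
  obtain ⟨T, hT⟩ : ∃ T : ℕ, T = ⌊2 * ((k : ℝ) * X) ^ κ / |α j|⌋₊ + 1 := ⟨_, rfl⟩
  obtain ⟨A, hA⟩ : ∃ A : Finset (Fin k → ℕ), A = Fintype.piFinset (fun i : Fin k => if i = j then ({0} : Finset ℕ) else Icc 1 X) :=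
    ⟨_, rfl⟩
  obtain ⟨L, hL⟩ : ∃ L : Finset ℕ, L = (Icc 1 (M * X)).filter (fun n => n ∈ B) := ⟨_, rfl⟩
  obtain ⟨Z, hZ⟩ : ∃ Z : Finset ℤ, Z = Icc (-(T : ℤ)) T := ⟨_, rfl⟩
  choose! n hn1 hn2 hn3 using fun (w : Fin k → ℕ) (hw : w ∈ NearLin α κ B) => hw
  have hmaps : Set.MapsTo (fun w : Fin k → ℕ => (Function.update w j 0, n w, ⌊((n w : ℝ) - ∑ i, α i * (w i : ℝ)) / α j⌋))
      {w : Fin k → ℕ | w ∈ NearLin α κ B ∧ ∀ i, 1 ≤ w i ∧ w i ≤ X} ((A ×ˢ (L ×ˢ Z) : Finset _) : Set ((Fin k → ℕ) × ℕ × ℤ)) := by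
    rintro w ⟨hw, hwX⟩
    have hs1 : ∀ i, (1 : ℝ) ≤ w i := fun i => by exact_mod_cast (hwX i).1
    have hs2 : ∀ i, (w i : ℝ) ≤ X := fun i => by exact_mod_cast (hwX i).2
    have hsum1 : (1 : ℝ) ≤ ∑ i, (w i : ℝ) := by
      refine (hs1 j).trans ?_
      exact single_le_sum (f := fun i => (w i : ℝ)) (fun i _ => by linarith [hs1 i]) (mem_univ j)
    have hsum2 : ∑ i, (w i : ℝ) ≤ k * X := by
      refine (sum_le_sum fun i _ => hs2 i).trans (le_of_eq ?_)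
      rw [sum_const, card_univ, Fintype.card_fin, nsmul_eq_mul]
    have hp1 : (∑ i, (w i : ℝ)) ^ κ ≤ (k * X : ℝ) ^ κ := Real.rpow_le_rpow (by linarith) hsum2 hκ0
    have hp2 : (k * X : ℝ) ^ κ ≤ k * X := by
      calc ((k : ℝ) * X) ^ κ ≤ ((k : ℝ) * X) ^ (1 : ℝ) := Real.rpow_le_rpow_of_exponent_le hkX (by linarith)
        _ = k * X := Real.rpow_one _
    have hw2 := hn3 w hw
    rw [mem_coe, mem_product, mem_product]
    refine ⟨?_, ?_, ?_⟩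
    · rw [hA, Fintype.mem_piFinset]
      intro i
      by_cases hi : i = j
      · rw [if_pos hi, hi, mem_singleton]
        exact Function.update_self j 0 w
      · rw [if_neg hi, mem_Icc]
        simp only [Function.update_of_ne hi]
        exact hwX i
    · rw [hL, mem_filter, mem_Icc]
      refine ⟨⟨hn2 w hw, ?_⟩, hn1 w hw⟩
      have h5 := (abs_le.1 hw2).2
      have h6 : ∑ i, α i * (w i : ℝ) ≤ (∑ i, |α i|) * X := by
        rw [sum_mul]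
        apply sum_le_sum
        intro i _
        calc α i * (w i : ℝ) ≤ |α i| * (w i : ℝ) := mul_le_mul_of_nonneg_right (le_abs_self _) (Nat.cast_nonneg _)
          _ ≤ |α i| * X := mul_le_mul_of_nonneg_left (hs2 i) (abs_nonneg _)
      have h7 : (n w : ℝ) ≤ ((M * X : ℕ) : ℝ) := by
        push_cast
        have h8 : (∑ i, |α i| + 2 * (k : ℝ)) * X ≤ M * X := mul_le_mul_of_nonneg_right hMr hX0.le
        rw [add_mul] at h8
        linarith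
      exact_mod_cast h7
    · rw [hZ, mem_Icc, ← abs_le]
      obtain ⟨x, hx⟩ : ∃ x : ℝ, x = ((n w : ℝ) - ∑ i, α i * (w i : ℝ)) / α j := ⟨_, rfl⟩
      simp only [← hx]
      have h5 : |x| ≤ 2 * ((k : ℝ) * X) ^ κ / |α j| := by
        rw [hx, abs_div]
        apply div_le_div_of_nonneg_right _ hj0.le
        linarith
      have h6 : |x| < (⌊2 * ((k : ℝ) * X) ^ κ / |α j|⌋₊ : ℝ) + 1 := lt_of_le_of_lt h5 (Nat.lt_floor_add_one _)
      have h7 : |x| < (T : ℝ) := by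
        rw [hT]
        push_cast
        exact h6
      obtain ⟨h8, h9⟩ := abs_lt.1 h7
      rw [abs_le]
      constructor
      · rw [Int.le_floor]
        push_cast
        exact h8.le
      · have : (⌊x⌋ : ℝ) ≤ (T : ℝ) := (Int.floor_le x).trans h9.le
        exact_mod_cast this
  have hinj : Set.InjOn (fun w : Fin k → ℕ => (Function.update w j 0, n w, ⌊((n w : ℝ) - ∑ i, α i * (w i : ℝ)) / α j⌋))
      {w : Fin k → ℕ | w ∈ NearLin α κ B ∧ ∀ i, 1 ≤ w i ∧ w i ≤ X} := by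
    rintro w _ w' _ h
    simp only [Prod.mk.injEq] at h
    obtain ⟨e1, e2, e3⟩ := h
    rw [e2] at e3
    have e4 : ∀ i, i ≠ j → w i = w' i := by
      intro i hi
      have := congrFun e1 i
      simpa only [Function.update_of_ne hi] using this
    have e5 : ∑ i, α i * (w' i : ℝ) - ∑ i, α i * (w i : ℝ) = α j * (((w' j : ℤ) - (w j : ℤ) : ℤ) : ℝ) := by
      rw [← sum_sub_distrib]
      have : ∑ i, (α i * (w' i : ℝ) - α i * (w i : ℝ)) = α j * (w' j : ℝ) - α j * (w j : ℝ) := by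
        apply sum_eq_single j
        · intro i _ hi
          rw [e4 i hi, sub_self]
        · intro hcon
          exact absurd (mem_univ j) hcon
      rw [this]
      push_cast
      ring
    have e6 : ((n w' : ℝ) - ∑ i, α i * (w i : ℝ)) / α j =
        ((n w' : ℝ) - ∑ i, α i * (w' i : ℝ)) / α j + (((w' j : ℤ) - (w j : ℤ) : ℤ) : ℝ) := by
      rw [div_add' _ _ _ hj]
      congr 1
      linarith
    rw [e6, Int.floor_add_intCast] at e3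
    have e7 : (w j : ℤ) = w' j := by omega
    funext i
    by_cases hi : i = j
    · rw [hi]
      exact_mod_cast e7
    · exact e4 i hi
  have h1 := Set.ncard_le_ncard_of_injOn _ hmaps hinj (finite_toSet _)
  rw [Set.ncard_coe_finset, card_product, card_product] at h1
  have hcA : A.card = X ^ (k - 1) := by rw [hA]; exact card_box_update j X
  have hcL : (L.card : ℝ) ≤ C * ((M * X : ℕ) : ℝ) ^ θ := by
    rw [hL]
    exact hC (M * X) (Nat.mul_pos hM1 hX)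
  have hcZ : (Z.card : ℝ) ≤ (4 / |α j| + 5) * ((k : ℝ) ^ κ * (X : ℝ) ^ κ) := by
    have h2 : Z.card = 2 * T + 1 := by
      rw [hZ, Int.card_Icc]
      omega
    have h3 : (T : ℝ) ≤ 2 * ((k : ℝ) * X) ^ κ / |α j| + 1 := by
      rw [hT]
      push_cast
      linarith [Nat.floor_le (show 0 ≤ 2 * ((k : ℝ) * X) ^ κ / |α j| by positivity)]
    rw [h2, ← Real.mul_rpow (by linarith) (by linarith)]
    push_cast
    have h4 : (4 / |α j| + 5) * ((k : ℝ) * X) ^ κ = 2 * (2 * ((k : ℝ) * X) ^ κ / |α j|) + 5 * ((k : ℝ) * X) ^ κ := by ring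
    rw [h4]
    linarith
  have h2 : (({w : Fin k → ℕ | w ∈ NearLin α κ B ∧ ∀ i, 1 ≤ w i ∧ w i ≤ X}.ncard : ℕ) : ℝ) ≤
      (A.card : ℝ) * ((L.card : ℝ) * (Z.card : ℝ)) := by exact_mod_cast h1
  refine h2.trans ?_
  rw [hcA]
  calc ((X ^ (k - 1) : ℕ) : ℝ) * ((L.card : ℝ) * (Z.card : ℝ)) ≤
        ((X ^ (k - 1) : ℕ) : ℝ) * ((C * ((M * X : ℕ) : ℝ) ^ θ) * ((4 / |α j| + 5) * ((k : ℝ) ^ κ * (X : ℝ) ^ κ))) := by gcongr
    _ = C * (M : ℝ) ^ θ * ((4 / |α j| + 5) * (k : ℝ) ^ κ) * ((X : ℝ) ^ ((k : ℝ) - 1) * (X : ℝ) ^ θ * (X : ℝ) ^ κ) := by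
      push_cast
      rw [Real.mul_rpow (Nat.cast_nonneg _) hX0.le, ← Real.rpow_natCast (X : ℝ) (k - 1), Nat.cast_sub hk, Nat.cast_one]
      ring
    _ = C * (M : ℝ) ^ θ * ((4 / |α j| + 5) * (k : ℝ) ^ κ) * (X : ℝ) ^ ((k : ℝ) - (1 - θ - κ)) := by
      rw [← Real.rpow_add hX0, ← Real.rpow_add hX0]
      congr 2
      ring

lemma comp_pos {F : ℕ → ℕ} (h : Comp F) : ∀ m : ℕ, 1 ≤ m → 1 ≤ F m := by
  induction h with
  | lm hf => exact fun m hm => hf.pos m hm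
  | comp hf _ ih => exact fun m hm => hf.pos _ (ih m hm)

/-- **All windows around real linear forms.** -/
theorem keep_lin {Q : ℝ → ℝ → Prop} {η θ κ C T₄ : ℝ} {B : Set ℕ} (hθ0 : 0 ≤ θ) (hκ : 0 ≤ κ) (hκ1 : θ + κ < 1)
    (hC : ∀ X : ℕ, 1 ≤ X → (((Icc 1 X).filter (fun n => n ∈ B)).card : ℝ) ≤ C * (X : ℝ) ^ θ)
    (hQ : ∀ t : ℝ, T₄ ≤ t → ⌊t⌋₊ ∉ B → ∀ H : ℝ, t ^ η ≤ H → H ≤ t → Q t H)
    {k : ℕ} {F : Fin k → ℕ → ℕ} (hF : ∀ i, Comp (F i)) {α : Fin k → ℝ} (hα : α ≠ 0) (U : ℕ) :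
    ∃ N₀ : ℕ, ∀ N : ℕ, N₀ ≤ N →
      ({m : Fin k → ℕ | (∀ i, 1 ≤ m i ∧ m i ≤ N) ∧ ¬ ∀ t H : ℝ, 1 ≤ t →
        |t - ∑ i, α i * (F i (m i) : ℝ)| ≤ (∑ i, (F i (m i) : ℝ)) ^ κ → t ^ η ≤ H → H ≤ t → Q t H}.ncard : ℝ) ≤
        (N : ℝ) ^ k / Real.log N ^ U := by
  obtain ⟨V, hV⟩ : ∃ V : ℕ, V = ⌈T₄⌉₊ := ⟨_, rfl⟩
  obtain ⟨B', hB'⟩ : ∃ B' : Set ℕ, B' = {n : ℕ | n < V ∨ n ∈ B} := ⟨_, rfl⟩
  have hC' : ∀ X : ℕ, 1 ≤ X → (((Icc 1 X).filter (fun n => n ∈ B')).card : ℝ) ≤ (C + V) * (X : ℝ) ^ θ := by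
    intro X hX
    have hX1 : (1 : ℝ) ≤ X := by exact_mod_cast hX
    have h2 : 1 ≤ (X : ℝ) ^ θ := Real.one_le_rpow hX1 hθ0
    have h3 : (Icc 1 X).filter (fun v => v ∈ B') ⊆ (Icc 1 X).filter (fun v => v ∈ B) ∪ range V := by
      intro v hv
      rw [mem_filter, hB'] at hv
      rw [mem_union, mem_filter, mem_range]
      rcases hv.2 with h | h
      · exact Or.inr h
      · exact Or.inl ⟨hv.1, h⟩
    have h4 : (((Icc 1 X).filter (fun v => v ∈ B')).card : ℝ) ≤ (((Icc 1 X).filter (fun v => v ∈ B)).card : ℝ) + V := by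
      have := (card_le_card h3).trans (card_union_le _ _)
      rw [card_range] at this
      exact_mod_cast this
    have h5 : (V : ℝ) ≤ V * (X : ℝ) ^ θ := le_mul_of_one_le_right (Nat.cast_nonneg _) h2
    have h6 := hC X hX
    rw [add_mul]
    linarith
  obtain ⟨C₀, hC₀⟩ := count_near_lin α hα hθ0 hκ hκ1 hC'
  obtain ⟨j, hj⟩ : ∃ j, α j ≠ 0 := by
    by_contra hcon
    push Not at hcon
    exact hα (funext hcon)
  have hk : 1 ≤ k := by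
    have := j.2
    omega
  have hkr : (1 : ℝ) ≤ k := by exact_mod_cast hk
  obtain ⟨N₀, hN₀⟩ := ckeep_tuples (F := F) (fun i => av_comp (hF i)) (c := 1 - θ - κ) (by linarith) (by linarith) U C₀
  refine ⟨N₀, fun N hN => le_trans ?_ (hN₀ N hN (NearLin α κ B') hC₀)⟩
  have hfin : {m : Fin k → ℕ | (∀ i, 1 ≤ m i ∧ m i ≤ N) ∧ (fun i => F i (m i)) ∈ NearLin α κ B'}.Finite := by
    apply (Set.Finite.pi' fun _ : Fin k => Set.finite_Icc 1 N).subset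
    intro m hm i
    exact hm.1 i
  refine Nat.cast_le.2 (Set.ncard_le_ncard ?_ hfin)
  rintro m ⟨h3, h4⟩
  refine ⟨h3, ?_⟩
  push Not at h4
  obtain ⟨t, H, ht1, ht2, hH1, hH2, hnQ⟩ := h4
  have hfl := Nat.floor_le (show 0 ≤ t by linarith)
  have hfl2 := Nat.lt_floor_add_one t
  have hsum1 : (1 : ℝ) ≤ ∑ i, (F i (m i) : ℝ) := by
    have hpos : ∀ i, (1 : ℝ) ≤ (F i (m i) : ℝ) := fun i => by
      exact_mod_cast comp_pos (hF i) _ (h3 i).1
    refine (hpos j).trans ?_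
    exact single_le_sum (f := fun i => (F i (m i) : ℝ)) (fun i _ => by linarith [hpos i]) (mem_univ j)
  have hpow : 1 ≤ (∑ i, (F i (m i) : ℝ)) ^ κ := Real.one_le_rpow hsum1 hκ
  refine ⟨⌊t⌋₊, ?_, Nat.le_floor (by exact_mod_cast ht1), ?_⟩
  · rw [hB']
    by_contra hcon
    apply hnQ
    have hV' : V ≤ ⌊t⌋₊ := by
      by_contra hc
      exact hcon (Or.inl (by omega))
    have hT4 : T₄ ≤ t := by
      have h7 : (V : ℝ) ≤ (⌊t⌋₊ : ℝ) := by exact_mod_cast hV'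
      have h8 : T₄ ≤ V := by rw [hV]; exact Nat.le_ceil T₄
      linarith
    exact hQ t hT4 (fun hc => hcon (Or.inr hc)) H hH1 hH2
  · obtain ⟨a1, a2⟩ := abs_le.1 ht2
    rw [abs_le]
    constructor <;> linarith

end Pool.Agent.D0H71.CM
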