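import Pool.Agent.D0H71.CM.Av
import Pool.Agent.N733.TG.K
import Pool.Agent.N733.TG.M

set_option autoImplicit false

/-!
Compositions of multiplicative functions keep away from sets with a power saving: windows and tuples. (The proofs follow
`N733/TG`, with the property `Av` in place of the class `LM`.)
-/

namespace Pool.Agent.D0H71.CM

open Finset Classical
open Pool.Agent.N733.TG

/-- **All scales.** If `W` has at most `C₀ X^θ` elements up to `X`, then `f m` is not in `W` for all `m ≤ N` but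
`N / (log N)^A`. -/
theorem cavoid {f : ℕ → ℕ} (hf : Av f) {θ : ℝ} (hθ0 : 0 ≤ θ) (hθ : θ < 1) (C₀ : ℝ) (A : ℕ) :
    ∃ N₀ : ℕ, ∀ W : Set ℕ, (∀ X : ℕ, 1 ≤ X → (((Icc 1 X).filter (fun v => v ∈ W)).card : ℝ) ≤ C₀ * (X : ℝ) ^ θ) →
      ∀ N : ℕ, N₀ ≤ N → (((Icc 1 N).filter (fun m => f m ∈ W)).card : ℝ) ≤ N / Real.log N ^ A := by
  obtain ⟨ρ, hρ⟩ : ∃ ρ, ρ = (1 - θ) / 2 := ⟨_, rfl⟩
  have hρ0 : 0 < ρ := by rw [hρ]; linarith
  have h1 : (1 + ρ) * θ < 1 := by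
    rw [hρ]
    nlinarith
  obtain ⟨N₀, hN₀⟩ := hf ((1 + ρ) * θ) ρ (by positivity) h1 hρ0 C₀ A
  refine ⟨max N₀ 1, fun W hW N hN => hN₀ N ((le_max_left _ _).trans hN) W ?_⟩
  have hN1 : (1 : ℝ) ≤ N := by exact_mod_cast (le_max_right N₀ 1).trans hN
  have hC0 : 0 ≤ C₀ := by
    have := hW 1 le_rfl
    rw [Nat.cast_one, Real.one_rpow, mul_one] at this
    exact le_trans (Nat.cast_nonneg _) this
  have h2 := hW ⌊(N : ℝ) ^ (1 + ρ)⌋₊ (Nat.le_floor (by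
    rw [Nat.cast_one]
    exact Real.one_le_rpow hN1 (by linarith)))
  refine h2.trans (mul_le_mul_of_nonneg_left ?_ hC0)
  rw [Real.rpow_mul (by linarith)]
  exact Real.rpow_le_rpow (Nat.cast_nonneg _) (Nat.floor_le (by positivity)) hθ0

/-- **Main tool.** If `B` has at most `C₀ X^θ` elements up to `X`, then for all `m ≤ N` but `N / (log N)^A` no element of
`B` lies within `f(m)^κ` of `α f(m)`; here `θ + κ < 1`. -/
theorem ckeep_away {f : ℕ → ℕ} (hf : Av f) {θ κ : ℝ} (hθ0 : 0 ≤ θ) (hκ : 0 ≤ κ) (h1 : θ + κ < 1) (C₀ : ℝ) {α : ℝ}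
    (hα : 0 < α) (A : ℕ) :
    ∃ N₀ : ℕ, ∀ B : Set ℕ, (∀ X : ℕ, 1 ≤ X → (((Icc 1 X).filter (fun v => v ∈ B)).card : ℝ) ≤ C₀ * (X : ℝ) ^ θ) →
      ∀ N : ℕ, N₀ ≤ N → (((Icc 1 N).filter (fun m => ∃ b ∈ B, 1 ≤ b ∧ |(b : ℝ) - α * f m| ≤ (f m : ℝ) ^ κ)).card : ℝ) ≤
        N / Real.log N ^ A := by
  obtain ⟨N₀, hN₀⟩ := cavoid hf (θ := θ + κ) (by positivity) h1 (C₀ * (α + 1) ^ θ * (2 / α + 1)) A
  refine ⟨N₀, fun B hB N hN => ?_⟩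
  have := hN₀ (Near B α κ) (fun X hX => near_count hθ0 hκ (by linarith) hα B hB X hX) N hN
  exact this

/-- for sets of natural numbers with `O_ε (X^(s + ε))` elements -/
theorem ckeep_nat {f : ℕ → ℕ} (hf : Av f) {s κ α : ℝ} (hs : 0 ≤ s) (hκ : 0 ≤ κ) (h1 : s + κ < 1)
    (hα : 0 < α) (A : ℕ) (B : Set ℕ)
    (hB : ∀ ε : ℝ, 0 < ε → ∃ K : ℝ, ∀ X : ℕ, 1 ≤ X → ({b : ℕ | b ∈ B ∧ 1 ≤ b ∧ b ≤ X}.ncard : ℝ) ≤ K * (X : ℝ) ^ (s + ε)) :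
    ∃ N₀ : ℕ, ∀ N : ℕ, N₀ ≤ N →
      ({m : ℕ | 1 ≤ m ∧ m ≤ N ∧ ∃ b ∈ B, 1 ≤ b ∧ |(b : ℝ) - α * f m| ≤ (f m : ℝ) ^ κ}.ncard : ℝ) ≤
        N / Real.log N ^ A := by
  obtain ⟨ε, hε⟩ : ∃ ε, ε = (1 - s - κ) / 2 := ⟨_, rfl⟩
  have hε0 : 0 < ε := by rw [hε]; linarith
  obtain ⟨K, hK⟩ := hB ε hε0
  obtain ⟨N₀, hN₀⟩ := ckeep_away hf (θ := s + ε) (κ := κ) (by linarith) hκ (by rw [hε]; linarith) K hα A
  refine ⟨N₀, fun N hN => ?_⟩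
  have h2 := hN₀ B (fun X hX => by
    refine le_trans (le_of_eq ?_) (hK X hX)
    congr 1
    rw [← Set.ncard_coe_finset]
    congr 1
    ext b
    simp only [coe_filter, mem_Icc, Set.mem_ofPred_eq]
    tauto) N hN
  refine le_trans (le_of_eq ?_) h2
  congr 1
  rw [← Set.ncard_coe_finset]
  congr 1
  ext m
  simp only [coe_filter, mem_Icc, Set.mem_ofPred_eq]
  tauto

/-- for sets of integers, both signs -/
theorem ckeep_int {f : ℕ → ℕ} (hf : Av f) {s κ α : ℝ} (hs : 0 ≤ s) (hκ : 0 ≤ κ) (h1 : s + κ < 1)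
    (hα : 0 < α) (A : ℕ) (B : Set ℤ)
    (hB : ∀ ε : ℝ, 0 < ε → ∃ K : ℝ, ∀ X : ℕ, 1 ≤ X →
      ({b : ℤ | b ∈ B ∧ b ≠ 0 ∧ |b| ≤ (X : ℤ)}.ncard : ℝ) ≤ K * (X : ℝ) ^ (s + ε)) :
    ∃ N₀ : ℕ, ∀ N : ℕ, N₀ ≤ N →
      ({m : ℕ | 1 ≤ m ∧ m ≤ N ∧ ∃ b ∈ B, b ≠ 0 ∧ |(|b| : ℝ) - α * f m| ≤ (f m : ℝ) ^ κ}.ncard : ℝ) ≤
        N / Real.log N ^ A := by
  obtain ⟨N₀, hN₀⟩ := ckeep_nat hf hs hκ h1 hα A (B := {n : ℕ | ∃ b ∈ B, b.natAbs = n}) (fun ε hε => by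
    obtain ⟨K, hK⟩ := hB ε hε
    refine ⟨K, fun X hX => le_trans ?_ (hK X hX)⟩
    have hfin : {b : ℤ | b ∈ B ∧ b ≠ 0 ∧ |b| ≤ (X : ℤ)}.Finite := by
      apply (Set.finite_Icc (-(X : ℤ)) X).subset
      intro b hb
      exact abs_le.1 hb.2.2
    have h2 : {b : ℕ | b ∈ {n : ℕ | ∃ b ∈ B, b.natAbs = n} ∧ 1 ≤ b ∧ b ≤ X} ⊆
        Int.natAbs '' {b : ℤ | b ∈ B ∧ b ≠ 0 ∧ |b| ≤ (X : ℤ)} := by
      rintro n ⟨⟨b, hb, rfl⟩, hn1, hnX⟩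
      refine ⟨b, ⟨hb, by omega, ?_⟩, rfl⟩
      rw [Int.abs_eq_natAbs]
      exact_mod_cast hnX
    have h3 := (Set.ncard_le_ncard h2 (hfin.image _)).trans (Set.ncard_image_le hfin)
    exact_mod_cast h3)
  refine ⟨N₀, fun N hN => le_trans ?_ (hN₀ N hN)⟩
  have hfin : {m : ℕ | 1 ≤ m ∧ m ≤ N ∧ ∃ b ∈ {n : ℕ | ∃ b ∈ B, b.natAbs = n}, 1 ≤ b ∧
      |(b : ℝ) - α * f m| ≤ (f m : ℝ) ^ κ}.Finite := by
    apply (Set.finite_Icc 1 N).subset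
    intro m hm
    exact ⟨hm.1, hm.2.1⟩
  have h4 : {m : ℕ | 1 ≤ m ∧ m ≤ N ∧ ∃ b ∈ B, b ≠ 0 ∧ |(|b| : ℝ) - α * f m| ≤ (f m : ℝ) ^ κ} ⊆
      {m : ℕ | 1 ≤ m ∧ m ≤ N ∧ ∃ b ∈ {n : ℕ | ∃ b ∈ B, b.natAbs = n}, 1 ≤ b ∧
      |(b : ℝ) - α * f m| ≤ (f m : ℝ) ^ κ} := by
    rintro m ⟨h1, h2, b, hb, hb0, h3⟩
    refine ⟨h1, h2, b.natAbs, ⟨b, hb, rfl⟩, by omega, ?_⟩
    have : ((b.natAbs : ℕ) : ℝ) = |(b : ℝ)| := by
      rw [Nat.cast_natAbs, Int.cast_abs]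
    rw [this]
    exact h3
  exact_mod_cast Set.ncard_le_ncard h4 hfin

/-- **Main tool.** If `S` has `O_ε (X ^ (s + ε))` elements of height at most `X`, and `G` is expanding of growth `d`, then for
all `m ≤ N` but `N / (log N)^A` no element of `S` has a height within `f(m)^κ` of `G (f m)`; here `d s + κ < 1`. -/
theorem ckeep_windows {T : Type*} (S : Set T) (h : T → ℝ) {f : ℕ → ℕ} (hf : Av f) {G : ℕ → ℝ} {d : ℝ}
    (hG : Expanding G d) {s κ : ℝ} (hs : 0 ≤ s) (hκ : 0 ≤ κ) (h1 : d * s + κ < 1)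
    (hS : ∀ ε : ℝ, 0 < ε → ∃ C : ℝ, ∀ X : ℝ, 1 ≤ X →
      {t | t ∈ S ∧ h t ≤ X}.Finite ∧ ({t | t ∈ S ∧ h t ≤ X}.ncard : ℝ) ≤ C * X ^ (s + ε)) (A : ℕ) :
    ∃ N₀ : ℕ, ∀ N : ℕ, N₀ ≤ N →
      ({m : ℕ | 1 ≤ m ∧ m ≤ N ∧ ∃ t ∈ S, |h t - G (f m)| ≤ (f m : ℝ) ^ κ}.ncard : ℝ) ≤ N / Real.log N ^ A := by
  have hd := hG.one_le
  obtain ⟨ε, hε⟩ : ∃ ε, ε = (1 - d * s - κ) / (2 * d) := ⟨_, rfl⟩
  have hε0 : 0 < ε := by
    rw [hε]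
    apply div_pos (by linarith) (by linarith)
  have hεd : d * ε = (1 - d * s - κ) / 2 := by
    rw [hε]
    field_simp
  obtain ⟨K, hK⟩ := nearG_count S h hG (s := s + ε) (κ := κ) (by linarith) hκ (by
    have : 0 ≤ d * s := by positivity
    linarith) (hS ε hε0)
  have h2 : d * (s + ε) + κ < 1 := by
    rw [mul_add, hεd]
    linarith
  obtain ⟨N₀, hN₀⟩ := cavoid hf (θ := d * (s + ε) + κ) (by positivity) h2 K A
  refine ⟨N₀, fun N hN => ?_⟩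
  have h3 := hN₀ (NearG S h G κ) hK N hN
  refine le_trans (le_of_eq ?_) h3
  congr 1
  rw [← Set.ncard_coe_finset]
  congr 1
  ext m
  rw [mem_coe, mem_filter, mem_Icc]
  constructor
  · rintro ⟨a1, a2, a3⟩
    exact ⟨⟨a1, a2⟩, a3⟩
  · rintro ⟨⟨a1, a2⟩, a3⟩
    exact ⟨a1, a2, a3⟩

/-- the case of a set of natural numbers -/
theorem ckeep_win_nat (P : Set ℕ) {f : ℕ → ℕ} (hf : Av f) {G : ℕ → ℝ} {d : ℝ}
    (hG : Expanding G d) {s κ : ℝ} (hs : 0 ≤ s) (hκ : 0 ≤ κ) (h1 : d * s + κ < 1)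
    (hP : ∀ ε : ℝ, 0 < ε → ∃ C : ℝ, ∀ X : ℕ, 1 ≤ X →
      (((Ioc 0 X).filter (fun t => t ∈ P)).card : ℝ) ≤ C * (X : ℝ) ^ (s + ε)) (A : ℕ) :
    ∃ N₀ : ℕ, ∀ N : ℕ, N₀ ≤ N →
      ({m : ℕ | 1 ≤ m ∧ m ≤ N ∧ ∃ n : ℕ, (n = 0 ∨ n ∈ P) ∧ |(n : ℝ) - G (f m)| ≤ (f m : ℝ) ^ κ}.ncard : ℝ) ≤
        N / Real.log N ^ A := by
  obtain ⟨N₀, hN₀⟩ := ckeep_windows {t : ℕ | t = 0 ∨ t ∈ P} (fun t : ℕ => (t : ℝ)) hf hG hs hκ h1 (by
    intro ε hε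
    obtain ⟨C, hC⟩ := hP ε hε
    refine ⟨|C| + 1, fun X hX => ?_⟩
    have hX1 : 1 ≤ ⌊X⌋₊ := Nat.le_floor (by exact_mod_cast hX)
    have hsub : {t : ℕ | t ∈ {t : ℕ | t = 0 ∨ t ∈ P} ∧ (t : ℝ) ≤ X} ⊆
        (((Ioc 0 ⌊X⌋₊).filter (fun t => t ∈ P) ∪ {0} : Finset ℕ) : Set ℕ) := by
      rintro t ⟨ht, htX⟩
      rw [mem_coe, mem_union, mem_filter, mem_Ioc, mem_singleton]
      rcases Nat.eq_zero_or_pos t with h0 | h0
      · right; exact h0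
      · left
        refine ⟨⟨h0, Nat.le_floor htX⟩, ?_⟩
        rcases ht with h | h
        · omega
        · exact h
    refine ⟨(finite_toSet _).subset hsub, ?_⟩
    have h2 := Set.ncard_le_ncard hsub (finite_toSet _)
    rw [Set.ncard_coe_finset] at h2
    have h3 : ((Ioc 0 ⌊X⌋₊).filter (fun t => t ∈ P) ∪ {0} : Finset ℕ).card ≤
        ((Ioc 0 ⌊X⌋₊).filter (fun t => t ∈ P)).card + 1 := (card_union_le _ _).trans (by simp)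
    have h4 : (({t : ℕ | t ∈ {t : ℕ | t = 0 ∨ t ∈ P} ∧ (t : ℝ) ≤ X}.ncard : ℕ) : ℝ) ≤
        (((Ioc 0 ⌊X⌋₊).filter (fun t => t ∈ P)).card : ℝ) + 1 := by exact_mod_cast h2.trans h3
    have h5 : (1 : ℝ) ≤ X ^ (s + ε) := Real.one_le_rpow hX (by linarith)
    have h6 : ((⌊X⌋₊ : ℕ) : ℝ) ^ (s + ε) ≤ X ^ (s + ε) :=
      Real.rpow_le_rpow (Nat.cast_nonneg _) (Nat.floor_le (by linarith)) (by linarith)
    calc _ ≤ (((Ioc 0 ⌊X⌋₊).filter (fun t => t ∈ P)).card : ℝ) + 1 := h4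
      _ ≤ C * ((⌊X⌋₊ : ℕ) : ℝ) ^ (s + ε) + 1 := by linarith [hC _ hX1]
      _ ≤ |C| * X ^ (s + ε) + 1 * X ^ (s + ε) := by
        have h7 : C * ((⌊X⌋₊ : ℕ) : ℝ) ^ (s + ε) ≤ |C| * X ^ (s + ε) :=
          (mul_le_mul_of_nonneg_right (le_abs_self _) (by positivity)).trans
            (mul_le_mul_of_nonneg_left h6 (abs_nonneg _))
        linarith
      _ = (|C| + 1) * X ^ (s + ε) := by ring) A
  exact ⟨N₀, fun N hN => hN₀ N hN⟩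

/-- the same for a property: for almost all `m` every `t` with `Adm t` and a height near `G (f m)` is good -/
theorem ckeep_good {T : Type*} (Adm Good : T → Prop) (h : T → ℝ) {f : ℕ → ℕ} (hf : Av f) {G : ℕ → ℝ} {d : ℝ}
    (hG : Expanding G d) {s κ : ℝ} (hs : 0 ≤ s) (hκ : 0 ≤ κ) (h1 : d * s + κ < 1)
    (hS : ∀ ε : ℝ, 0 < ε → ∃ C : ℝ, ∀ X : ℝ, 1 ≤ X →
      {t | (Adm t ∧ ¬ Good t) ∧ h t ≤ X}.Finite ∧ ({t | (Adm t ∧ ¬ Good t) ∧ h t ≤ X}.ncard : ℝ) ≤ C * X ^ (s + ε)) (A : ℕ) :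
    ∃ N₀ : ℕ, ∀ N : ℕ, N₀ ≤ N →
      ({m : ℕ | 1 ≤ m ∧ m ≤ N ∧ ¬ ∀ t, Adm t → |h t - G (f m)| ≤ (f m : ℝ) ^ κ → Good t}.ncard : ℝ) ≤
        N / Real.log N ^ A := by
  obtain ⟨N₀, hN₀⟩ := ckeep_windows {t | Adm t ∧ ¬ Good t} h hf hG hs hκ h1 hS A
  refine ⟨N₀, fun N hN => le_trans ?_ (hN₀ N hN)⟩
  have hfin : {m : ℕ | 1 ≤ m ∧ m ≤ N ∧ ∃ t ∈ {t | Adm t ∧ ¬ Good t}, |h t - G (f m)| ≤ (f m : ℝ) ^ κ}.Finite := by
    apply (Set.finite_Icc 1 N).subset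
    intro m hm
    exact ⟨hm.1, hm.2.1⟩
  have h2 : {m : ℕ | 1 ≤ m ∧ m ≤ N ∧ ¬ ∀ t, Adm t → |h t - G (f m)| ≤ (f m : ℝ) ^ κ → Good t} ⊆
      {m : ℕ | 1 ≤ m ∧ m ≤ N ∧ ∃ t ∈ {t | Adm t ∧ ¬ Good t}, |h t - G (f m)| ≤ (f m : ℝ) ^ κ} := by
    rintro m ⟨h2, h3, h4⟩
    push Not at h4
    obtain ⟨n, hn, h5, h6⟩ := h4
    exact ⟨h2, h3, n, ⟨hn, h6⟩, h5⟩
  exact_mod_cast Set.ncard_le_ncard h2 hfin

/-- the same for natural numbers -/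
theorem ckeep_good_nat (Adm Good : ℕ → Prop) {f : ℕ → ℕ} (hf : Av f) {G : ℕ → ℝ} {d : ℝ}
    (hG : Expanding G d) {s κ : ℝ} (hs : 0 ≤ s) (hκ : 0 ≤ κ) (h1 : d * s + κ < 1)
    (hP : ∀ ε : ℝ, 0 < ε → ∃ C : ℝ, ∀ X : ℕ, 1 ≤ X →
      ({t : ℕ | 1 ≤ t ∧ t ≤ X ∧ Adm t ∧ ¬ Good t}.ncard : ℝ) ≤ C * (X : ℝ) ^ (s + ε)) (A : ℕ) :
    ∃ N₀ : ℕ, ∀ N : ℕ, N₀ ≤ N →
      ({m : ℕ | 1 ≤ m ∧ m ≤ N ∧ ¬ ∀ n : ℕ, 1 ≤ n → Adm n → |(n : ℝ) - G (f m)| ≤ (f m : ℝ) ^ κ → Good n}.ncard : ℝ) ≤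
        N / Real.log N ^ A := by
  obtain ⟨N₀, hN₀⟩ := ckeep_win_nat {t | Adm t ∧ ¬ Good t} hf hG hs hκ h1 (fun ε hε => by
    obtain ⟨C, hC⟩ := hP ε hε
    refine ⟨C, fun X hX => le_trans (le_of_eq ?_) (hC X hX)⟩
    congr 1
    rw [← Set.ncard_coe_finset]
    congr 1
    ext t
    simp only [coe_filter, mem_Ioc, Set.mem_ofPred_eq]
    constructor
    · rintro ⟨⟨a1, a2⟩, a3⟩
      exact ⟨a1, a2, a3⟩
    · rintro ⟨a1, a2, a3⟩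
      exact ⟨⟨a1, a2⟩, a3⟩) A
  refine ⟨N₀, fun N hN => le_trans ?_ (hN₀ N hN)⟩
  have hfin : {m : ℕ | 1 ≤ m ∧ m ≤ N ∧ ∃ n : ℕ, (n = 0 ∨ n ∈ {t | Adm t ∧ ¬ Good t}) ∧
      |(n : ℝ) - G (f m)| ≤ (f m : ℝ) ^ κ}.Finite := by
    apply (Set.finite_Icc 1 N).subset
    intro m hm
    exact ⟨hm.1, hm.2.1⟩
  have h2 : {m : ℕ | 1 ≤ m ∧ m ≤ N ∧ ¬ ∀ n : ℕ, 1 ≤ n → Adm n → |(n : ℝ) - G (f m)| ≤ (f m : ℝ) ^ κ → Good n} ⊆
      {m : ℕ | 1 ≤ m ∧ m ≤ N ∧ ∃ n : ℕ, (n = 0 ∨ n ∈ {t | Adm t ∧ ¬ Good t}) ∧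
      |(n : ℝ) - G (f m)| ≤ (f m : ℝ) ^ κ} := by
    rintro m ⟨h2, h3, h4⟩
    push Not at h4
    obtain ⟨n, hn1, hn, h5, h6⟩ := h4
    exact ⟨h2, h3, n, Or.inr ⟨hn, h6⟩, h5⟩
  exact_mod_cast Set.ncard_le_ncard h2 hfin

/-- **Tuples.** If `W` has at most `C₀ N^(k - c)` elements in the box `[1, N^(1 + ρ)]^k`, then `(F_i (m_i))_i` is not in `W`
for all but `N^k / (log N)^A` of the ctuples `m` in `[1, N]^k`. -/
theorem ctuples (k : ℕ) : ∀ (F : Fin k → ℕ → ℕ), (∀ i, Av (F i)) → ∀ (c ρ : ℝ), 0 < c → 0 < ρ → ∀ (C₀ : ℝ) (A : ℕ),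
    ∃ N₀ : ℕ, ∀ N : ℕ, N₀ ≤ N → ∀ W : Set (Fin k → ℕ),
      (((Box k ⌊(N : ℝ) ^ (1 + ρ)⌋₊).filter (fun v => v ∈ W)).card : ℝ) ≤ C₀ * (N : ℝ) ^ ((k : ℝ) - c) →
      (((Box k N).filter (fun m => (fun i => F i (m i)) ∈ W)).card : ℝ) ≤ (N : ℝ) ^ k / Real.log N ^ A := by
  induction k with
  | zero =>
    intro F hF c ρ hc hρ C₀ A
    -- the box has one element
    have ht : Filter.Tendsto (fun N : ℕ => C₀ * (N : ℝ) ^ (((0 : ℕ) : ℝ) - c)) Filter.atTop (nhds (C₀ * 0)) := by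
      apply Filter.Tendsto.const_mul
      have h1 := (tendsto_rpow_neg_atTop hc).comp (tendsto_natCast_atTop_atTop (R := ℝ))
      refine h1.congr (fun N => ?_)
      simp only [Function.comp]
      congr 1
      push_cast
      ring
    rw [mul_zero] at ht
    obtain ⟨N₀, hN₀⟩ := Filter.eventually_atTop.1 (ht.eventually_lt_const (show (0 : ℝ) < 1 by norm_num))
    refine ⟨max N₀ 1, fun N hN W hW => ?_⟩
    have h1 := hN₀ N ((le_max_left _ _).trans hN)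
    have h2 : (((Box 0 ⌊(N : ℝ) ^ (1 + ρ)⌋₊).filter (fun v => v ∈ W)).card : ℝ) < 1 := lt_of_le_of_lt hW h1
    have h3 : ((Box 0 ⌊(N : ℝ) ^ (1 + ρ)⌋₊).filter (fun v => v ∈ W)).card = 0 := by
      have : ((Box 0 ⌊(N : ℝ) ^ (1 + ρ)⌋₊).filter (fun v => v ∈ W)).card < 1 := by exact_mod_cast h2
      omega
    have h4 : ((Box 0 N).filter (fun m => (fun i => F i (m i)) ∈ W)).card = 0 := by
      rw [card_eq_zero, filter_eq_empty_iff] at h3 ⊢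
      intro m hm hw
      exact h3 (x := fun i => F i (m i)) (mem_Box.2 (fun i => i.elim0)) hw
    rw [h4]
    have : (1 : ℝ) ≤ N := by exact_mod_cast (le_max_right N₀ 1).trans hN
    have := Real.log_nonneg this
    simp only [Nat.cast_zero]
    positivity
  | succ k ih =>
    intro F hF c ρ hc hρ C₀ A
    -- parameters
    obtain ⟨c', hc'⟩ : ∃ c' : ℝ, c' = min c 1 := ⟨_, rfl⟩
    have hc'0 : 0 < c' := by rw [hc']; exact lt_min hc one_pos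
    have hc'c : c' ≤ c := by rw [hc']; exact min_le_left _ _
    have hc'1 : c' ≤ 1 := by rw [hc']; exact min_le_right _ _
    obtain ⟨N₁, hN₁⟩ := hF 0 (1 - c' / 2) ρ (by linarith) (by linarith) hρ (max C₀ 0) (A + 1)
    obtain ⟨N₂, hN₂⟩ := ih (fun i => F i.succ) (fun i => hF i.succ) (c' / 2) ρ (by positivity) hρ 1 (A + 1)
    have hlog := (Real.tendsto_log_atTop.comp (tendsto_natCast_atTop_atTop (R := ℝ))).eventually_ge_atTop 2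
    obtain ⟨N₃, hN₃⟩ := Filter.eventually_atTop.1 hlog
    refine ⟨max (max N₁ N₂) (max N₃ 3), fun N hN W hW => ?_⟩
    have b1 : N₁ ≤ N := (le_max_left _ _).trans ((le_max_left _ _).trans hN)
    have b2 : N₂ ≤ N := (le_max_right _ _).trans ((le_max_left _ _).trans hN)
    have b3 : N₃ ≤ N := (le_max_left _ _).trans ((le_max_right _ _).trans hN)
    have b4 : 3 ≤ N := (le_max_right _ _).trans ((le_max_right _ _).trans hN)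
    have hL2 := hN₃ N b3
    simp only [Function.comp] at hL2
    have hN1 : (1 : ℝ) ≤ N := by exact_mod_cast (by omega : 1 ≤ N)
    have hN0 : (0 : ℝ) < N := by linarith
    obtain ⟨X, hX⟩ : ∃ X : ℕ, X = ⌊(N : ℝ) ^ (1 + ρ)⌋₊ := ⟨_, rfl⟩
    rw [← hX] at hW
    -- the slices
    obtain ⟨sl, hsl⟩ : ∃ sl : ℕ → Set (Fin k → ℕ), sl = fun x => {y | (Fin.cons x y : Fin (k + 1) → ℕ) ∈ W} := ⟨_, rfl⟩
    obtain ⟨B, hB⟩ : ∃ B : Set ℕ, B = {x | X < x ∨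
      1 * (N : ℝ) ^ ((k : ℝ) - c' / 2) < (((Box k X).filter (fun y => y ∈ sl x)).card : ℝ)} := ⟨_, rfl⟩
    have hBc : (((Icc 1 ⌊(N : ℝ) ^ (1 + ρ)⌋₊).filter (fun v => v ∈ B)).card : ℝ) ≤ (max C₀ 0) * (N : ℝ) ^ (1 - c' / 2) := by
      rw [← hX]
      have h1 : (((Icc 1 X).filter (fun v => v ∈ B)).card : ℝ) * (N : ℝ) ^ ((k : ℝ) - c' / 2) ≤
          C₀ * (N : ℝ) ^ (((k + 1 : ℕ) : ℝ) - c) := by
        refine le_trans ?_ hW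
        rw [box_fiber]
        push_cast
        rw [← nsmul_eq_mul, ← sum_const]
        refine le_trans (sum_le_sum (g := fun x => (((Box k X).filter (fun y => y ∈ sl x)).card : ℝ)) ?_) ?_
        · intro x hx
          rw [mem_filter, mem_Icc, hB] at hx
          rcases hx.2 with h | h
          · omega
          · rw [one_mul] at h
            exact h.le
        · rw [hsl]
          apply sum_le_sum_of_subset_of_nonneg (filter_subset _ _)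
          intro x _ _
          positivity
      have h2 : C₀ * (N : ℝ) ^ (((k + 1 : ℕ) : ℝ) - c) ≤ (max C₀ 0) * (N : ℝ) ^ (1 - c' / 2) * (N : ℝ) ^ ((k : ℝ) - c' / 2) := by
        rw [mul_assoc, ← Real.rpow_add hN0]
        apply mul_le_mul (le_max_left _ _) _ (by positivity) (le_max_right _ _)
        apply Real.rpow_le_rpow_of_exponent_le hN1
        push_cast
        linarith
      exact le_of_mul_le_mul_right (h1.trans h2) (by positivity)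
    have h1 := hN₁ N b1 B hBc
    -- counting
    have h2 : (((Box (k + 1) N).filter (fun m => (fun i => F i (m i)) ∈ W)).card : ℝ) =
        ∑ x ∈ Icc 1 N, (((Box k N).filter (fun y => (fun i => F i.succ (y i)) ∈ sl (F 0 x))).card : ℝ) := by
      have := box_fiber (k := k) (N := N) {m | (fun i => F i (m i)) ∈ W}
      simp only [Set.mem_ofPred_eq] at this
      rw [this]
      push_cast
      apply sum_congr rfl
      intro x _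
      congr 2
      apply filter_congr
      intro y _
      rw [hsl]
      simp only [Set.mem_ofPred_eq]
      have e : (fun i => F i ((Fin.cons x y : Fin (k + 1) → ℕ) i)) = (Fin.cons (F 0 x) (fun i => F i.succ (y i)) : Fin (k + 1) → ℕ) := by
        funext i
        refine Fin.cases ?_ (fun j => ?_) i
        · rw [Fin.cons_zero, Fin.cons_zero]
        · rw [Fin.cons_succ, Fin.cons_succ]
      rw [e]
    have h3 : ∀ x ∈ Icc 1 N, (((Box k N).filter (fun y => (fun i => F i.succ (y i)) ∈ sl (F 0 x))).card : ℝ) ≤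
        (if F 0 x ∈ B then (N : ℝ) ^ k else 0) + (N : ℝ) ^ k / Real.log N ^ (A + 1) := by
      intro x hx
      have hq : 0 ≤ (N : ℝ) ^ k / Real.log N ^ (A + 1) := by positivity
      split_ifs with h
      · have h4 : (((Box k N).filter (fun y => (fun i => F i.succ (y i)) ∈ sl (F 0 x))).card : ℝ) ≤ (N : ℝ) ^ k := by
          have := (card_filter_le (Box k N) (fun y => (fun i => F i.succ (y i)) ∈ sl (F 0 x))).trans (card_Box k N).le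
          exact_mod_cast this
        linarith
      · rw [zero_add]
        apply hN₂ N b2
        rw [← hX]
        rw [hB] at h
        simp only [Set.mem_ofPred_eq, not_or, not_lt] at h
        exact h.2
    rw [h2]
    refine (sum_le_sum h3).trans ?_
    rw [sum_add_distrib, ← sum_filter, sum_const, sum_const, nsmul_eq_mul, nsmul_eq_mul, Nat.card_Icc,
      Nat.add_sub_cancel]
    have hLA : (0 : ℝ) < Real.log N ^ (A + 1) := by positivity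
    calc (((Icc 1 N).filter (fun x => F 0 x ∈ B)).card : ℝ) * (N : ℝ) ^ k + N * ((N : ℝ) ^ k / Real.log N ^ (A + 1))
        ≤ (N / Real.log N ^ (A + 1)) * (N : ℝ) ^ k + N * ((N : ℝ) ^ k / Real.log N ^ (A + 1)) := by
          gcongr
      _ = 2 * (N : ℝ) ^ (k + 1) / (Real.log N ^ (A + 1)) := by
          rw [pow_succ]
          ring
      _ ≤ (N : ℝ) ^ (k + 1) / Real.log N ^ A := by
          rw [div_le_div_iff₀ hLA (by positivity), pow_succ (Real.log N)]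
          have : 0 ≤ (N : ℝ) ^ (k + 1) * Real.log N ^ A := by positivity
          nlinarith

/-- ctuples, all scales -/
theorem ckeep_tuples {k : ℕ} {F : Fin k → ℕ → ℕ} (hF : ∀ i, Av (F i)) {c : ℝ} (hc : 0 < c) (hck : c ≤ k) (A : ℕ) (C₀ : ℝ) :
    ∃ N₀ : ℕ, ∀ N : ℕ, N₀ ≤ N → ∀ W : Set (Fin k → ℕ),
      (∀ X : ℕ, 1 ≤ X → ({w : Fin k → ℕ | w ∈ W ∧ ∀ i, 1 ≤ w i ∧ w i ≤ X}.ncard : ℝ) ≤ C₀ * (X : ℝ) ^ ((k : ℝ) - c)) →
      ({m : Fin k → ℕ | (∀ i, 1 ≤ m i ∧ m i ≤ N) ∧ (fun i => F i (m i)) ∈ W}.ncard : ℝ) ≤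
        (N : ℝ) ^ k / Real.log N ^ A := by
  obtain ⟨ρ, hρ⟩ : ∃ ρ : ℝ, ρ = c / (2 * (k + 1)) := ⟨_, rfl⟩
  have hρ0 : 0 < ρ := by rw [hρ]; positivity
  have hk0 : (0 : ℝ) ≤ k := Nat.cast_nonneg _
  have hρk : ρ * (k + 1) = c / 2 := by rw [hρ]; field_simp
  obtain ⟨N₀, hN₀⟩ := ctuples k F hF (c / 2) ρ (by positivity) hρ0 C₀ A
  refine ⟨max N₀ 1, fun N hN W hW => ?_⟩
  have hN1 : (1 : ℝ) ≤ N := by exact_mod_cast (le_max_right N₀ 1).trans hN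
  have hC0 : 0 ≤ C₀ := by
    have := hW 1 le_rfl
    rw [Nat.cast_one, Real.one_rpow, mul_one] at this
    exact le_trans (Nat.cast_nonneg _) this
  have e : ∀ (X : ℕ) (V : Set (Fin k → ℕ)), ((Box k X).filter (fun v => v ∈ V)).card =
      {w : Fin k → ℕ | w ∈ V ∧ ∀ i, 1 ≤ w i ∧ w i ≤ X}.ncard := by
    intro X V
    rw [← Set.ncard_coe_finset]
    congr 1
    ext w
    simp only [coe_filter, mem_Box, Set.mem_ofPred_eq]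
    tauto
  have h1 := hN₀ N ((le_max_left _ _).trans hN) W (by
    have hX1 : 1 ≤ ⌊(N : ℝ) ^ (1 + ρ)⌋₊ := Nat.le_floor (by
      rw [Nat.cast_one]
      exact Real.one_le_rpow hN1 (by linarith))
    rw [e]
    refine (hW _ hX1).trans (mul_le_mul_of_nonneg_left ?_ hC0)
    calc ((⌊(N : ℝ) ^ (1 + ρ)⌋₊ : ℕ) : ℝ) ^ ((k : ℝ) - c) ≤ ((N : ℝ) ^ (1 + ρ)) ^ ((k : ℝ) - c) :=
          Real.rpow_le_rpow (Nat.cast_nonneg _) (Nat.floor_le (by positivity)) (by linarith)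
      _ = (N : ℝ) ^ ((1 + ρ) * ((k : ℝ) - c)) := by rw [← Real.rpow_mul (by linarith)]
      _ ≤ (N : ℝ) ^ ((k : ℝ) - c / 2) := by
          apply Real.rpow_le_rpow_of_exponent_le hN1
          nlinarith)
  refine le_trans (le_of_eq ?_) h1
  congr 1
  rw [← Set.ncard_coe_finset]
  congr 1
  ext m
  simp only [coe_filter, mem_Box, Set.mem_ofPred_eq]

/-- ctuples, all scales; the count is known for the ctuples of integers at least `2` -/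
theorem ckeep_tuples2 {k : ℕ} (hk : 1 ≤ k) {F : Fin k → ℕ → ℕ} (hF : ∀ i, Av (F i)) {c : ℝ} (hc : 0 < c) (A : ℕ) (C₀ : ℝ) :
    ∃ N₀ : ℕ, ∀ N : ℕ, N₀ ≤ N → ∀ W : Set (Fin k → ℕ),
      (∀ X : ℕ, 1 ≤ X → ({w : Fin k → ℕ | (∀ i, 2 ≤ w i ∧ w i ≤ X) ∧ w ∈ W}.ncard : ℝ) ≤ C₀ * (X : ℝ) ^ ((k : ℝ) - c)) →
      ({m : Fin k → ℕ | (∀ i, 1 ≤ m i ∧ m i ≤ N) ∧ ¬ ((∀ i, 2 ≤ F i (m i)) ∧ (fun i => F i (m i)) ∉ W)}.ncard : ℝ) ≤
        (N : ℝ) ^ k / Real.log N ^ A := by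
  obtain ⟨c', hc'⟩ : ∃ c' : ℝ, c' = min c 1 := ⟨_, rfl⟩
  have hc'0 : 0 < c' := by rw [hc']; exact lt_min hc one_pos
  have hc'c : c' ≤ c := by rw [hc']; exact min_le_left _ _
  have hc'1 : c' ≤ 1 := by rw [hc']; exact min_le_right _ _
  have hk1 : (1 : ℝ) ≤ k := by exact_mod_cast hk
  obtain ⟨N₀, hN₀⟩ := ckeep_tuples hF hc'0 (by linarith) A (|C₀| + k)
  refine ⟨N₀, fun N hN W hW => ?_⟩
  have h1 := hN₀ N hN {w | w ∈ W ∨ ∃ i, w i ≤ 1} (fun X hX => ?_)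
  · refine le_trans ?_ h1
    have hfin : {m : Fin k → ℕ | (∀ i, 1 ≤ m i ∧ m i ≤ N) ∧ (fun i => F i (m i)) ∈ {w | w ∈ W ∨ ∃ i, w i ≤ 1}}.Finite := by
      apply (finite_toSet (Box k N)).subset
      intro m hm
      rw [mem_coe, mem_Box]
      exact hm.1
    have h2 : {m : Fin k → ℕ | (∀ i, 1 ≤ m i ∧ m i ≤ N) ∧ ¬ ((∀ i, 2 ≤ F i (m i)) ∧ (fun i => F i (m i)) ∉ W)} ⊆
        {m : Fin k → ℕ | (∀ i, 1 ≤ m i ∧ m i ≤ N) ∧ (fun i => F i (m i)) ∈ {w | w ∈ W ∨ ∃ i, w i ≤ 1}} := by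
      rintro m ⟨h3, h4⟩
      refine ⟨h3, ?_⟩
      rw [not_and_or, not_not] at h4
      rcases h4 with h4 | h4
      · right
        push Not at h4
        obtain ⟨i, hi⟩ := h4
        exact ⟨i, by simpa using Nat.lt_succ_iff.1 hi⟩
      · left; exact h4
    exact_mod_cast Set.ncard_le_ncard h2 hfin
  · have hX1 : (1 : ℝ) ≤ X := by exact_mod_cast hX
    have hfin : ({w : Fin k → ℕ | (∀ i, 2 ≤ w i ∧ w i ≤ X) ∧ w ∈ W} ∪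
        {w : Fin k → ℕ | (∀ i, 1 ≤ w i ∧ w i ≤ X) ∧ ∃ i, w i = 1}).Finite := by
      apply (finite_toSet (Box k X)).subset
      rintro w (hw | hw)
      · rw [mem_coe, mem_Box]
        exact fun i => ⟨le_trans (by norm_num) (hw.1 i).1, (hw.1 i).2⟩
      · rw [mem_coe, mem_Box]
        exact hw.1
    have h2 : {w : Fin k → ℕ | w ∈ {w | w ∈ W ∨ ∃ i, w i ≤ 1} ∧ ∀ i, 1 ≤ w i ∧ w i ≤ X} ⊆
        {w : Fin k → ℕ | (∀ i, 2 ≤ w i ∧ w i ≤ X) ∧ w ∈ W} ∪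
        {w : Fin k → ℕ | (∀ i, 1 ≤ w i ∧ w i ≤ X) ∧ ∃ i, w i = 1} := by
      rintro w ⟨h3, h4⟩
      by_cases h5 : ∃ i, w i = 1
      · right; exact ⟨h4, h5⟩
      · left
        push Not at h5
        refine ⟨fun i => ⟨?_, (h4 i).2⟩, ?_⟩
        · have := (h4 i).1
          have := h5 i
          omega
        · rcases h3 with h3 | ⟨i, hi⟩
          · exact h3
          · exact absurd (le_antisymm hi (h4 i).1) (h5 i)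
    have h3 := (Set.ncard_le_ncard h2 hfin).trans (Set.ncard_union_le _ _)
    have h4 : (({w : Fin k → ℕ | w ∈ {w | w ∈ W ∨ ∃ i, w i ≤ 1} ∧ ∀ i, 1 ≤ w i ∧ w i ≤ X}.ncard : ℕ) : ℝ) ≤
        (({w : Fin k → ℕ | (∀ i, 2 ≤ w i ∧ w i ≤ X) ∧ w ∈ W}.ncard : ℕ) : ℝ) +
        (({w : Fin k → ℕ | (∀ i, 1 ≤ w i ∧ w i ≤ X) ∧ ∃ i, w i = 1}.ncard : ℕ) : ℝ) := by exact_mod_cast h3
    have h5 : ((k * X ^ (k - 1) : ℕ) : ℝ) = k * (X : ℝ) ^ ((k : ℝ) - 1) := by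
      push_cast
      rw [← Real.rpow_natCast, Nat.cast_sub hk, Nat.cast_one]
    have h6 : (({w : Fin k → ℕ | (∀ i, 1 ≤ w i ∧ w i ≤ X) ∧ ∃ i, w i = 1}.ncard : ℕ) : ℝ) ≤ k * (X : ℝ) ^ ((k : ℝ) - 1) := by
      rw [← h5]
      exact_mod_cast ones_count k X hX
    have e1 : (X : ℝ) ^ ((k : ℝ) - 1) ≤ (X : ℝ) ^ ((k : ℝ) - c') := Real.rpow_le_rpow_of_exponent_le hX1 (by linarith)
    have e2 : (X : ℝ) ^ ((k : ℝ) - c) ≤ (X : ℝ) ^ ((k : ℝ) - c') := Real.rpow_le_rpow_of_exponent_le hX1 (by linarith)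
    have e3 : C₀ * (X : ℝ) ^ ((k : ℝ) - c) ≤ |C₀| * (X : ℝ) ^ ((k : ℝ) - c') :=
      (mul_le_mul_of_nonneg_right (le_abs_self _) (by positivity)).trans (mul_le_mul_of_nonneg_left e2 (abs_nonneg _))
    have e4 : (k : ℝ) * (X : ℝ) ^ ((k : ℝ) - 1) ≤ k * (X : ℝ) ^ ((k : ℝ) - c') := mul_le_mul_of_nonneg_left e1 (by linarith)
    rw [add_mul]
    linarith [hW X hX]

end Pool.Agent.D0H71.CM
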