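import Pool.Agent.D0H71.CM.GStep
import Pool.Agent.N733.TG.I

set_option autoImplicit false

/-!
Compositions of multiplicative functions avoid sets with a power saving.
-/

namespace Pool.Agent.D0H71.CM

open Finset Classical
open Pool.Agent.N733.TG

/-- `F` avoids the sets with a power saving: if `W` has at most `C₀ N^θ` elements up to `N^(1 + ρ)`, then `F m` is not in `W`
for all `m ≤ N` but `N / (log N)^A` -/
def Av (F : ℕ → ℕ) : Prop := ∀ θ ρ : ℝ, 0 ≤ θ → θ < 1 → 0 < ρ → ∀ (C₀ : ℝ) (A : ℕ),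
    ∃ N₀ : ℕ, ∀ N : ℕ, N₀ ≤ N → ∀ W : Set ℕ,
      (((Icc 1 ⌊(N : ℝ) ^ (1 + ρ)⌋₊).filter (fun v => v ∈ W)).card : ℝ) ≤ C₀ * (N : ℝ) ^ θ →
      (((Icc 1 N).filter (fun m => F m ∈ W)).card : ℝ) ≤ N / Real.log N ^ A

theorem lm_id : LM id where
  mul _ _ _ := rfl
  pos _ h := h
  growth := ⟨1, 1, fun m _ => by simp⟩
  prime := ⟨0, 1, fun p _ _ => ⟨by simp, fun _ _ _ h => h⟩⟩

theorem av_lm {f : ℕ → ℕ} (hf : LM f) : Av f := fun _ _ h1 h2 h3 C₀ A => avoid1 hf h1 h2 h3 C₀ A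

/-- the exceptional rough parts for a given small part -/
noncomputable def Us (f : ℕ → ℕ) (W : Set ℕ) (z X k : ℕ) : Finset ℕ :=
  (Icc 1 X).filter (fun u => Squarefree u ∧ Rough z u ∧ f k * f u ∈ W)

lemma mem_Us {f : ℕ → ℕ} {W : Set ℕ} {z X k u : ℕ} : u ∈ Us f W z X k ↔
    (1 ≤ u ∧ u ≤ X) ∧ Squarefree u ∧ Rough z u ∧ f k * f u ∈ W := by
  unfold Us
  rw [mem_filter, mem_Icc]

/-- the exceptional products -/
noncomputable def S4 (f : ℕ → ℕ) (W : Set ℕ) (z X Q : ℕ) : Finset ℕ :=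
  (Icc 1 Q).biUnion (fun k => (Us f W z X k).image (fun u => k * u))

lemma card_S4 {f : ℕ → ℕ} {W : Set ℕ} {z X Q : ℕ} {R : ℝ} (h : ∀ k, 1 ≤ k → k ≤ Q → ((Us f W z X k).card : ℝ) ≤ R) :
    ((S4 f W z X Q).card : ℝ) ≤ Q * R := by
  have h1 : ((S4 f W z X Q).card : ℝ) ≤ ∑ k ∈ Icc 1 Q, ((Us f W z X k).card : ℝ) := by
    have : (S4 f W z X Q).card ≤ ∑ k ∈ Icc 1 Q, (Us f W z X k).card := by
      unfold S4
      exact card_biUnion_le.trans (sum_le_sum fun k _ => card_image_le)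
    exact_mod_cast this
  refine h1.trans ?_
  have h2 : ∑ k ∈ Icc 1 Q, ((Us f W z X k).card : ℝ) ≤ ∑ _k ∈ Icc 1 Q, R :=
    sum_le_sum fun k hk => h k (mem_Icc.1 hk).1 (mem_Icc.1 hk).2
  refine h2.trans (le_of_eq ?_)
  rw [sum_const, Nat.card_Icc, Nat.add_sub_cancel, nsmul_eq_mul]

/-- the size of the exceptional set for one `k` -/
lemma card_Us {f : ℕ → ℕ} (hf : LM f) {P : ℕ}
    (hP : ∀ p : ℕ, P ≤ p → p.Prime → ∀ q : ℕ, P ≤ q → q.Prime → f q = f p → q = p)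
    {z J X Y k : ℕ} (hz : P ≤ z) {W : Set ℕ} (hk : 1 ≤ k) {R : ℝ} (hR : 0 ≤ R)
    (hJ : ∀ u, Squarefree u → Rough z u → u ≤ X → u.primeFactors.card ≤ J)
    (hY : ∀ u ∈ Us f W z X k, f k * f u ≤ Y)
    (hT : ∀ v, 1 ≤ v → v ≤ Y → ((Tp J v).card : ℝ) ≤ R) :
    ((Us f W z X k).card : ℝ) ≤ (((Icc 1 Y).filter (fun v => v ∈ W)).card : ℝ) * (2 * R) := by
  have hmap : ∀ u ∈ Us f W z X k, f k * f u ∈ (Icc 1 Y).filter (fun v => v ∈ W) := by
    intro u hu
    rw [mem_filter, mem_Icc]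
    obtain ⟨⟨a1, a2⟩, a3, a4, a5⟩ := mem_Us.1 hu
    exact ⟨⟨Nat.mul_pos (hf.pos k hk) (hf.pos u a1), hY u hu⟩, a5⟩
  have h1 : ∀ w ∈ (Icc 1 Y).filter (fun v => v ∈ W),
      (((Us f W z X k).filter (fun u => f k * f u = w)).card : ℝ) ≤ 2 * R := by
    intro w hw
    rw [mem_filter, mem_Icc] at hw
    rcases ((Us f W z X k).filter (fun u => f k * f u = w)).eq_empty_or_nonempty with he | ⟨u0, hu0⟩
    · rw [he, card_empty, Nat.cast_zero]
      positivity
    · rw [mem_filter] at hu0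
      obtain ⟨⟨b1, b2⟩, b3, b4, b5⟩ := mem_Us.1 hu0.1
      have hfk := hf.pos k hk
      have hv1 : 1 ≤ f u0 := hf.pos u0 b1
      have hvY : f u0 ≤ Y := by
        have : f u0 ≤ f k * f u0 := Nat.le_mul_of_pos_left _ hfk
        omega
      have h2 := fiberT hf hP (z := z) (J := J) (v := f u0) hz hv1 ((Us f W z X k).filter (fun u => f k * f u = w))
        (fun u hu => (mem_Us.1 (mem_filter.1 hu).1).2.1) (fun u hu => (mem_Us.1 (mem_filter.1 hu).1).2.2.1)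
        (fun u hu => hJ u (mem_Us.1 (mem_filter.1 hu).1).2.1 (mem_Us.1 (mem_filter.1 hu).1).2.2.1
          (mem_Us.1 (mem_filter.1 hu).1).1.2)
        (fun u hu => by
          have e1 := (mem_filter.1 hu).2
          rw [← hu0.2] at e1
          exact Nat.eq_of_mul_eq_mul_left hfk e1)
      have h3 : (((Us f W z X k).filter (fun u => f k * f u = w)).card : ℝ) ≤ 2 * ((Tp J (f u0)).card : ℝ) := by
        exact_mod_cast h2
      refine h3.trans ?_
      have := hT _ hv1 hvY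
      linarith
  have h2 := card_eq_sum_card_fiberwise hmap
  rw [h2]
  push_cast
  refine (sum_le_sum h1).trans (le_of_eq ?_)
  rw [sum_const, nsmul_eq_mul]

theorem av_step {f F : ℕ → ℕ} (hf : LM f) (hF : Good F) (hA : Av F) : Av (fun m => f (F m)) := by
  intro θ ρ hθ0 hθ1 hρ C₀ A
  obtain ⟨B, K, hF⟩ := hF
  obtain ⟨P, M₀, hPM₀⟩ := hf.prime
  obtain ⟨C₁, D, hCD₀⟩ := hf.growth
  obtain ⟨M, hM⟩ : ∃ M : ℕ, M = M₀ + 1 := ⟨_, rfl⟩
  obtain ⟨C, hC⟩ : ∃ C : ℕ, C = C₁ + 1 := ⟨_, rfl⟩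
  have hM1 : 1 ≤ M := by omega
  have hC1 : 1 ≤ C := by omega
  have hCr : (1 : ℝ) ≤ C := by exact_mod_cast hC1
  have hPM : ∀ p : ℕ, P ≤ p → p.Prime → f p ≤ M * p ∧
      ∀ q : ℕ, P ≤ q → q.Prime → f q = f p → q = p := by
    intro p h1 h2
    refine ⟨((hPM₀ p h1 h2).1).trans (Nat.mul_le_mul_right _ (by omega)), (hPM₀ p h1 h2).2⟩
  have hCD : ∀ m : ℕ, 1 ≤ m → f m ≤ C * m ^ D := fun m hm =>
    (hCD₀ m hm).trans (Nat.mul_le_mul_right _ (by omega))
  obtain ⟨δ, hδ⟩ : ∃ δ : ℝ, δ = 1 - θ := ⟨_, rfl⟩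
  have hδ0 : 0 < δ := by linarith
  obtain ⟨η, hη⟩ : ∃ η : ℝ, η = min (min δ ρ) 1 := ⟨_, rfl⟩
  have hη0 : 0 < η := by rw [hη]; exact lt_min (lt_min hδ0 hρ) one_pos
  have hη1 : η ≤ 1 := by rw [hη]; exact min_le_right _ _
  have hηδ : η ≤ δ := by rw [hη]; exact (min_le_left _ _).trans (min_le_left _ _)
  have hηρ : η ≤ ρ := by rw [hη]; exact (min_le_left _ _).trans (min_le_right _ _)
  have hD0 : (0 : ℝ) ≤ D := Nat.cast_nonneg _
  obtain ⟨η₁, hη₁⟩ : ∃ η₁ : ℝ, η₁ = η / (8 * (D + 1)) := ⟨_, rfl⟩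
  have hη₁0 : 0 < η₁ := by rw [hη₁]; positivity
  have hη₁D : η₁ * (D + 1) = η / 8 := by rw [hη₁]; field_simp
  have hη₁1 : η₁ ≤ η / 8 := by
    rw [← hη₁D]
    nlinarith
  have hDη : D * η₁ ≤ η / 8 := by
    rw [← hη₁D]
    nlinarith
  obtain ⟨θ', hθ'⟩ : ∃ θ' : ℝ, θ' = θ + η₁ + δ / 4 := ⟨_, rfl⟩
  have hθ'0 : 0 ≤ θ' := by rw [hθ']; positivity
  have hθ'1 : θ' < 1 := by
    rw [hθ']
    linarith
  obtain ⟨N₁, hN₁⟩ := hF η₁ hη₁0 (A + 1)
  obtain ⟨N₂, hN₂⟩ := facts P M C B (K + A + 5) hM1 hC1 hη0 hη1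
  obtain ⟨N₃, hN₃⟩ := hA θ' 1 hθ'0 hθ'1 one_pos (2 * |C₀|) (A + 1)
  obtain ⟨N₄, hN₄⟩ := fib_num (B + 2) (ε := δ / 4) (by positivity)
  obtain ⟨N₅, hN₅⟩ := base 0 2 (ε := 1) one_pos
  refine ⟨max N₁ (max (max N₂ N₃) (max N₄ N₅)), fun N hN W hW => ?_⟩
  obtain ⟨V, s, r, hV⟩ := hN₁ N ((le_max_left _ _).trans hN)
  have hx := hN₂ N ((le_max_left _ _).trans ((le_max_left _ _).trans ((le_max_right _ _).trans hN)))
  have hAF := hN₃ N ((le_max_right _ _).trans ((le_max_left _ _).trans ((le_max_right _ _).trans hN)))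
  have hfib := hN₄ N ((le_max_left _ _).trans ((le_max_right _ _).trans ((le_max_right _ _).trans hN)))
  obtain ⟨g1, g2, g3, _, _⟩ := hN₅ N ((le_max_right _ _).trans ((le_max_right _ _).trans ((le_max_right _ _).trans hN)))
  obtain ⟨hL, hexpL, hexpl⟩ := rel g1
  have hL4 := hx.L4
  have hN0 : (0 : ℝ) < N := by exact_mod_cast (by omega : 0 < N)
  -- the parameters
  obtain ⟨Q, hQ⟩ : ∃ Q : ℕ, Q = ⌊Real.exp (η₁ * Real.log N)⌋₊ := ⟨_, rfl⟩
  obtain ⟨Y, hY⟩ : ∃ Y : ℕ, Y = ⌊(N : ℝ) ^ (1 + η)⌋₊ := ⟨_, rfl⟩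
  obtain ⟨J, hJ⟩ : ∃ J : ℕ, J = ⌊2 * ll N ^ B⌋₊ + 1 := ⟨_, rfl⟩
  have hNpow : ∀ x : ℝ, (N : ℝ) ^ x = Real.exp (x * Real.log N) := by
    intro x
    rw [Real.rpow_def_of_pos hN0, mul_comm]
  have hQ1 : (Q : ℝ) ≤ Real.exp (η₁ * Real.log N) := by rw [hQ]; exact Nat.floor_le (Real.exp_pos _).le
  have hY1 : (Y : ℝ) ≤ Real.exp ((1 + η) * Real.log N) := by
    rw [hY, hNpow]
    exact Nat.floor_le (Real.exp_pos _).le
  have hsize : ∀ m ∈ V, f (s m) * f (r m) ≤ Y := by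
    intro m hm
    rw [hY, hNpow]
    apply Nat.le_floor
    push_cast
    rw [hf.sqf (hV.sqf m hm)]
    have e1 := val_le hf hPM hη₁1 hη1 hx hV hm
    have e2 := val_s hCD hDη hx hV hm
    have e3 : (C : ℝ) ≤ Real.exp (η / 8 * Real.log N) := by
      refine le_trans ?_ hx.hC2
      exact le_self_pow₀ hCr (by norm_num)
    push_cast at e1 ⊢
    calc (f (s m) : ℝ) * ∏ p ∈ (r m).primeFactors, (f p : ℝ) ≤
          (Real.exp (η / 8 * Real.log N) * Real.exp (η / 8 * Real.log N)) * Real.exp ((1 + η₁ + η / 8) * Real.log N) := by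
          apply mul_le_mul _ e1 (prod_nonneg fun _ _ => Nat.cast_nonneg _) (by positivity)
          exact e2.trans (mul_le_mul_of_nonneg_right e3 (Real.exp_pos _).le)
      _ ≤ Real.exp ((1 + η) * Real.log N) := by
        rw [← Real.exp_add, ← Real.exp_add]
        apply Real.exp_le_exp.2
        have e4 : η / 8 * Real.log N + η / 8 * Real.log N + (1 + η₁ + η / 8) * Real.log N =
            (1 + (η₁ + 3 * (η / 8))) * Real.log N := by ring
        rw [e4]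
        apply mul_le_mul_of_nonneg_right _ hL.le
        linarith
  -- the part of `W` up to `Y`
  have hWY : (((Icc 1 Y).filter (fun v => v ∈ W)).card : ℝ) ≤ |C₀| * Real.exp (θ * Real.log N) := by
    have e1 : (Icc 1 Y).filter (fun v => v ∈ W) ⊆ (Icc 1 ⌊(N : ℝ) ^ (1 + ρ)⌋₊).filter (fun v => v ∈ W) := by
      apply filter_subset_filter
      apply Icc_subset_Icc_right
      rw [hY]
      apply Nat.floor_mono
      exact Real.rpow_le_rpow_of_exponent_le (by exact_mod_cast (by omega : 1 ≤ N)) (by linarith)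
    have e2 : (((Icc 1 Y).filter (fun v => v ∈ W)).card : ℝ) ≤
        (((Icc 1 ⌊(N : ℝ) ^ (1 + ρ)⌋₊).filter (fun v => v ∈ W)).card : ℝ) := by exact_mod_cast card_le_card e1
    refine e2.trans (hW.trans ?_)
    rw [hNpow]
    exact mul_le_mul_of_nonneg_right (le_abs_self _) (Real.exp_pos _).le
  -- the exceptional products: we cut the range so that the values are at most `Y`
  obtain ⟨W', hW'⟩ : ∃ W' : Set ℕ, W' = {v | v ∈ W ∧ v ≤ Y} := ⟨_, rfl⟩
  have hJ1 : 1 ≤ J := by omega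
  have hJ2 : (J : ℝ) ≤ ll N ^ (B + 2) := by
    rw [hJ]
    push_cast
    have e1 : (⌊2 * ll N ^ B⌋₊ : ℝ) ≤ 2 * ll N ^ B := Nat.floor_le (by positivity)
    have e2 : (1 : ℝ) ≤ ll N ^ B := one_le_pow₀ g3
    have e3 : ll N ^ (B + 2) = ll N ^ B * ll N ^ 2 := pow_add _ _ _
    have e4 : (4 : ℝ) ≤ ll N ^ 2 := by nlinarith
    rw [e3]
    nlinarith
  have hcardU : ∀ k, 1 ≤ k → k ≤ Q → ((Us f W' (zz B N) (XX η₁ N) k).card : ℝ) ≤
      (|C₀| * Real.exp (θ * Real.log N)) * (2 * Real.exp (δ / 4 * Real.log N)) := by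
    intro k hk1 hkQ
    have h1 := card_Us hf (fun p h1 h2 => (hPM p h1 h2).2) (z := zz B N) (J := J) (X := XX η₁ N) (Y := Y) (k := k)
      hx.hz (W := W') hk1 (R := Real.exp (δ / 4 * Real.log N)) (Real.exp_pos _).le
      (by
        intro u hu1 hu2 hu3
        have h2 : (u : ℝ) ≤ Real.exp (2 * Real.log N) := by
          have h3 : (u : ℝ) ≤ XX η₁ N := by exact_mod_cast hu3
          refine h3.trans ?_
          unfold XX
          refine (Nat.floor_le (Real.exp_pos _).le).trans (Real.exp_le_exp.2 ?_)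
          apply mul_le_mul_of_nonneg_right _ hL.le
          linarith
        have h4 := omega_bd g1 g3 hu1 hu2 h2
        have h5 : u.primeFactors.card ≤ ⌊2 * ll N ^ B⌋₊ := Nat.le_floor h4
        omega)
      (by
        intro u hu
        have := (mem_Us.1 hu).2.2.2
        rw [hW'] at this
        exact this.2)
      (by
        intro v hv1 hv2
        apply hfib J v hJ1 hJ2 hv1
        have h3 : (v : ℝ) ≤ Y := by exact_mod_cast hv2
        refine h3.trans (hY1.trans ?_)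
        have h4 : (N : ℝ) ^ 2 = Real.exp (2 * Real.log N) := by
          rw [two_mul, Real.exp_add, hexpL]
          ring
        rw [h4]
        apply Real.exp_le_exp.2
        apply mul_le_mul_of_nonneg_right _ hL.le
        linarith)
    refine h1.trans ?_
    apply mul_le_mul_of_nonneg_right _ (by positivity)
    refine le_trans ?_ hWY
    have : (Icc 1 Y).filter (fun v => v ∈ W') ⊆ (Icc 1 Y).filter (fun v => v ∈ W) := by
      intro v hv
      rw [mem_filter] at hv ⊢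
      refine ⟨hv.1, ?_⟩
      have := hv.2
      rw [hW'] at this
      exact this.1
    exact_mod_cast card_le_card this
  have hS4 : ((S4 f W' (zz B N) (XX η₁ N) Q).card : ℝ) ≤ 2 * |C₀| * (N : ℝ) ^ θ' := by
    refine (card_S4 hcardU).trans ?_
    calc (Q : ℝ) * ((|C₀| * Real.exp (θ * Real.log N)) * (2 * Real.exp (δ / 4 * Real.log N))) ≤
          Real.exp (η₁ * Real.log N) * ((|C₀| * Real.exp (θ * Real.log N)) * (2 * Real.exp (δ / 4 * Real.log N))) :=
          mul_le_mul_of_nonneg_right hQ1 (by positivity)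
      _ = 2 * |C₀| * (Real.exp (η₁ * Real.log N) * Real.exp (θ * Real.log N) * Real.exp (δ / 4 * Real.log N)) := by ring
      _ = 2 * |C₀| * (N : ℝ) ^ θ' := by
        rw [hNpow, ← Real.exp_add, ← Real.exp_add, hθ']
        congr 2
        ring
  obtain ⟨T, hT⟩ : ∃ T : Set ℕ, T = {n | n ∈ S4 f W' (zz B N) (XX η₁ N) Q} := ⟨_, rfl⟩
  have hmT : ∀ v, v ∈ T ↔ v ∈ S4 f W' (zz B N) (XX η₁ N) Q := by
    intro v
    rw [hT]
    exact Iff.rfl
  have hmain := hAF T (by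
    refine le_trans ?_ hS4
    refine Nat.cast_le.2 (card_le_card ?_)
    intro v hv
    exact (hmT v).1 (mem_filter.1 hv).2)
  have hcov : (Icc 1 N).filter (fun m => f (F m) ∈ W) ⊆
      (Icc 1 N \ V) ∪ (Icc 1 N).filter (fun m => F m ∈ T) := by
    intro m hm
    rw [mem_filter] at hm
    rw [mem_union]
    by_cases hmV : m ∈ V
    swap
    · left
      exact mem_sdiff.2 ⟨hm.1, hmV⟩
    · right
      rw [mem_filter]
      refine ⟨hm.1, ?_⟩
      rw [hmT]
      unfold S4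
      rw [mem_biUnion]
      refine ⟨s m, ?_, ?_⟩
      · rw [mem_Icc]
        refine ⟨hV.pos m hmV, ?_⟩
        rw [hQ]
        exact Nat.le_floor (hV.sle m hmV)
      · rw [mem_image]
        refine ⟨r m, ?_, (hV.eq m hmV).symm⟩
        rw [mem_Us]
        refine ⟨⟨Nat.pos_of_ne_zero (hV.sqf m hmV).ne_zero, ?_⟩, hV.sqf m hmV, hV.rough m hmV, ?_⟩
        · unfold XX
          exact Nat.le_floor (hV.rle m hmV)
        · rw [hW']
          refine ⟨?_, hsize m hmV⟩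
          have e1 : f (F m) = f (s m) * f (r m) := by
            rw [hV.eq m hmV]
            exact hf.mul _ _ (hV.cop m hmV)
          rw [← e1]
          exact hm.2
  have h1 : (((Icc 1 N).filter (fun m => f (F m) ∈ W)).card : ℝ) ≤ ((Icc 1 N \ V).card : ℝ) +
      (((Icc 1 N).filter (fun m => F m ∈ T)).card : ℝ) := by
    exact_mod_cast (card_le_card hcov).trans (card_union_le _ _)
  have h2 := hV.card
  have h3 : (N : ℝ) / Real.log N ^ (A + 1) ≤ N / Real.log N ^ A / 2 := by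
    rw [pow_succ, ← div_div]
    exact div_le_div_of_nonneg_left (by positivity) (by norm_num) (by linarith)
  linarith

/-- compositions of multiplicative functions of the class `LM` -/
inductive Comp : (ℕ → ℕ) → Prop
  | lm {f : ℕ → ℕ} (hf : LM f) : Comp f
  | comp {f F : ℕ → ℕ} (hf : LM f) (hF : Comp F) : Comp (fun m => f (F m))

theorem good_lm {f : ℕ → ℕ} (hf : LM f) : Good f := good_step hf good_id

theorem good_comp {F : ℕ → ℕ} (h : Comp F) : Good F := by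
  induction h with
  | lm hf => exact good_lm hf
  | comp hf _ ih => exact good_step hf ih

theorem av_comp {F : ℕ → ℕ} (h : Comp F) : Av F := by
  induction h with
  | lm hf => exact av_lm hf
  | comp hf hF ih => exact av_step hf (good_comp hF) ih

end Pool.Agent.D0H71.CM
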