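import Pool.Agent.Results.MP_4ab349_nt.SequenceMembers
import Pool.Agent.D0H71.CM.Keep

set_option autoImplicit false

/-!
Pairs of positive integers whose reduced abc-triple has a small radical.
-/

namespace Pool.Agent.D0H71.CM.AbcPairs

open Finset
open Pool.Agent.Results.MP_4ab349_nt.SequenceMembers (rad T rad_pos)
open Pool.Agent.W221.ABC7 (ExcB count_FxB excB_finite)

/-- the triple `(x, y, x + y)`, divided by the greatest common divisor of `x` and `y`, satisfies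
`T < - η √(log c) - K / √(log c)` -/
def PairGood (η K : ℝ) (x y : ℕ) : Prop :=
  T (x / Nat.gcd x y) (y / Nat.gcd x y) ((x + y) / Nat.gcd x y) <
    - η * Real.sqrt (Real.log (((x + y) / Nat.gcd x y : ℕ) : ℝ)) -
      K / Real.sqrt (Real.log (((x + y) / Nat.gcd x y : ℕ) : ℝ))

lemma T_lt {η K : ℝ} {a b : ℕ} (ha : 0 < a) (hb : 0 < b)
    (hbig : Real.exp K * ((a + b : ℕ) : ℝ) ^ (1 + η) < (rad (a * b * (a + b)) : ℝ)) :
    T a b (a + b) < - η * Real.sqrt (Real.log ((a + b : ℕ) : ℝ)) - K / Real.sqrt (Real.log ((a + b : ℕ) : ℝ)) := by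
  have hc : (1 : ℝ) < ((a + b : ℕ) : ℝ) := by exact_mod_cast (by omega : 1 < a + b)
  have hc0 : (0 : ℝ) < ((a + b : ℕ) : ℝ) := by linarith
  have hl : 0 < Real.log ((a + b : ℕ) : ℝ) := Real.log_pos hc
  have hs : 0 < Real.sqrt (Real.log ((a + b : ℕ) : ℝ)) := Real.sqrt_pos.mpr hl
  have hr : (0 : ℝ) < (rad (a * b * (a + b)) : ℝ) := by exact_mod_cast rad_pos _
  have h1 := Real.log_lt_log (by positivity) hbig
  rw [Real.log_mul (Real.exp_pos K).ne' (Real.rpow_pos_of_pos hc0 _).ne', Real.log_exp,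
    Real.log_rpow hc0] at h1
  unfold T
  rw [Real.log_div hc0.ne' hr.ne', div_lt_iff₀ hs]
  have hss : Real.sqrt (Real.log ((a + b : ℕ) : ℝ)) * Real.sqrt (Real.log ((a + b : ℕ) : ℝ)) =
      Real.log ((a + b : ℕ) : ℝ) := Real.mul_self_sqrt hl.le
  have h2 : (-η * Real.sqrt (Real.log ((a + b : ℕ) : ℝ)) - K / Real.sqrt (Real.log ((a + b : ℕ) : ℝ))) *
      Real.sqrt (Real.log ((a + b : ℕ) : ℝ)) = -η * Real.log ((a + b : ℕ) : ℝ) - K := by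
    rw [sub_mul, div_mul_cancel₀ _ hs.ne', mul_assoc, hss]
  rw [h2]
  linarith

lemma Fx_lt_two {η : ℝ} (h1 : η < 2) : W221.ABC7.Fx (1 + η) < 2 := by
  unfold W221.ABC7.Fx
  split_ifs <;> linarith

/-- the bad pairs in a box -/
theorem pair_count (η K : ℝ) (h0 : 0 ≤ η) (h1 : η < 2) : ∃ c : ℝ, 0 < c ∧ c ≤ 2 ∧ ∃ C₀ : ℝ, ∀ X : ℕ, 1 ≤ X →
    ({w : Fin 2 → ℕ | w ∈ {w : Fin 2 → ℕ | ¬ PairGood η K (w 0) (w 1)} ∧ ∀ i, 1 ≤ w i ∧ w i ≤ X}.ncard : ℝ) ≤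
      C₀ * (X : ℝ) ^ (((2 : ℕ) : ℝ) - c) := by
  classical
  obtain ⟨s, hs⟩ : ∃ s : ℝ, s = max (W221.ABC7.Fx (1 + η)) 1 := ⟨_, rfl⟩
  have hs1 : 1 ≤ s := by rw [hs]; exact le_max_right _ _
  have hs2 : s < 2 := by rw [hs]; exact max_lt (Fx_lt_two h1) (by norm_num)
  have hsF : W221.ABC7.Fx (1 + η) ≤ s := by rw [hs]; exact le_max_left _ _
  obtain ⟨ε, hε⟩ : ∃ ε : ℝ, ε = (2 - s) / 2 := ⟨_, rfl⟩
  have hε0 : 0 < ε := by rw [hε]; linarith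
  obtain ⟨C, hC⟩ := count_FxB (Real.exp K) (1 + η) ε (by linarith) hε0
  have hsum : Summable (fun n : ℕ => 1 / (n : ℝ) ^ (s + ε)) := Real.summable_one_div_nat_rpow.2 (by linarith)
  obtain ⟨S, hS⟩ : ∃ S : ℝ, S = ∑' n : ℕ, 1 / (n : ℝ) ^ (s + ε) := ⟨_, rfl⟩
  have hS0 : 0 ≤ S := by rw [hS]; exact tsum_nonneg fun n => by positivity
  refine ⟨ε, hε0, by linarith, |C| * (2 : ℝ) ^ (s + ε) * S, fun X hX => ?_⟩
  have hX1 : (1 : ℝ) ≤ X := by exact_mod_cast hX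
  -- the reduced triples
  obtain ⟨U, hU⟩ : ∃ U : ℕ → Finset (ℕ × ℕ × ℕ), U = fun g => (excB_finite (Real.exp K) (1 + η) (2 * X / g)).toFinset :=
    ⟨_, rfl⟩
  obtain ⟨V, hV⟩ : ∃ V : Finset (Fin 2 → ℕ), V = (Icc 1 X).biUnion (fun g => (U g).image
    (fun t => (![g * t.1, g * t.2.1] : Fin 2 → ℕ))) := ⟨_, rfl⟩
  have hsub : {w : Fin 2 → ℕ | w ∈ {w : Fin 2 → ℕ | ¬ PairGood η K (w 0) (w 1)} ∧ ∀ i, 1 ≤ w i ∧ w i ≤ X} ⊆ (V : Set (Fin 2 → ℕ)) := by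
    rintro w ⟨hw, hwX⟩
    have hw : ¬ PairGood η K (w 0) (w 1) := hw
    have hx := hwX 0
    have hy := hwX 1
    obtain ⟨x, hx'⟩ : ∃ x, x = w 0 := ⟨_, rfl⟩
    obtain ⟨y, hy'⟩ : ∃ y, y = w 1 := ⟨_, rfl⟩
    rw [← hx'] at hw hx
    rw [← hy'] at hw hy
    have hg0 : 0 < Nat.gcd x y := Nat.gcd_pos_of_pos_left _ (by omega)
    obtain ⟨a, ha⟩ := Nat.gcd_dvd_left x y
    obtain ⟨b, hb⟩ := Nat.gcd_dvd_right x y
    have hxg : x / Nat.gcd x y = a := Nat.div_eq_of_eq_mul_right hg0 ha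
    have hyg : y / Nat.gcd x y = b := Nat.div_eq_of_eq_mul_right hg0 hb
    have hxyg : (x + y) / Nat.gcd x y = a + b := by
      have : x + y = Nat.gcd x y * (a + b) := by rw [mul_add, ← ha, ← hb]
      exact Nat.div_eq_of_eq_mul_right hg0 this
    have hcop : Nat.Coprime a b := by
      have := Nat.coprime_div_gcd_div_gcd hg0
      rwa [hxg, hyg] at this
    have ha0 : 0 < a := by
      rcases Nat.eq_zero_or_pos a with h | h
      · rw [h, mul_zero] at ha; omega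
      · exact h
    have hb0 : 0 < b := by
      rcases Nat.eq_zero_or_pos b with h | h
      · rw [h, mul_zero] at hb; omega
      · exact h
    unfold PairGood at hw
    rw [hxg, hyg, hxyg] at hw
    have hrad : (rad (a * b * (a + b)) : ℝ) ≤ Real.exp K * ((a + b : ℕ) : ℝ) ^ (1 + η) := by
      by_contra hcon
      push Not at hcon
      exact hw (T_lt ha0 hb0 hcon)
    have hgX : Nat.gcd x y ≤ X := (Nat.le_of_dvd (by omega) (Nat.gcd_dvd_left x y)).trans hx.2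
    have hab : a + b ≤ 2 * X / Nat.gcd x y := by
      rw [Nat.le_div_iff_mul_le hg0, mul_comm, mul_add, ← ha, ← hb]
      omega
    rw [hV, mem_coe, mem_biUnion]
    refine ⟨Nat.gcd x y, mem_Icc.2 ⟨hg0, hgX⟩, ?_⟩
    rw [mem_image]
    refine ⟨(a, b, a + b), ?_, ?_⟩
    · rw [hU, Set.Finite.mem_toFinset]
      exact ⟨ha0, hb0, hcop, rfl, hab, hrad⟩
    · simp only
      rw [← ha, ← hb, hx', hy']
      funext i
      fin_cases i <;> rfl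
  have h2 := Set.ncard_le_ncard hsub (finite_toSet _)
  rw [Set.ncard_coe_finset] at h2
  have h3 : (V.card : ℝ) ≤ ∑ g ∈ Icc 1 X, ((U g).card : ℝ) := by
    have : V.card ≤ ∑ g ∈ Icc 1 X, (U g).card := by
      rw [hV]
      exact card_biUnion_le.trans (sum_le_sum fun g _ => card_image_le)
    exact_mod_cast this
  have h4 : ∀ g ∈ Icc 1 X, ((U g).card : ℝ) ≤ (|C| * (2 : ℝ) ^ (s + ε) * (X : ℝ) ^ (s + ε)) * (1 / (g : ℝ) ^ (s + ε)) := by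
    intro g hg
    rw [mem_Icc] at hg
    have hg0 : (0 : ℝ) < g := by exact_mod_cast hg.1
    have hq1 : 1 ≤ 2 * X / g := by
      rw [Nat.le_div_iff_mul_le hg.1]
      omega
    have h5 := hC (2 * X / g) hq1
    have h6 : ((U g).card : ℝ) = ((ExcB (Real.exp K) (1 + η) (2 * X / g)).ncard : ℝ) := by
      rw [hU, Set.ncard_eq_toFinset_card _ (excB_finite (Real.exp K) (1 + η) (2 * X / g))]
    rw [h6]
    have hq1' : (1 : ℝ) ≤ ((2 * X / g : ℕ) : ℝ) := by exact_mod_cast hq1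
    have hq2 : ((2 * X / g : ℕ) : ℝ) ≤ 2 * X / g := by
      have := @Nat.cast_div_le ℝ _ _ _ (2 * X) g
      push_cast at this
      exact this
    calc ((ExcB (Real.exp K) (1 + η) (2 * X / g)).ncard : ℝ) ≤ C * ((2 * X / g : ℕ) : ℝ) ^ (W221.ABC7.Fx (1 + η) + ε) := h5
      _ ≤ |C| * ((2 * X / g : ℕ) : ℝ) ^ (W221.ABC7.Fx (1 + η) + ε) := mul_le_mul_of_nonneg_right (le_abs_self _) (by positivity)
      _ ≤ |C| * (2 * X / g : ℝ) ^ (s + ε) := by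
        apply mul_le_mul_of_nonneg_left _ (abs_nonneg _)
        exact (Real.rpow_le_rpow_of_exponent_le hq1' (by linarith)).trans
          (Real.rpow_le_rpow (by linarith) hq2 (by linarith))
      _ = (|C| * (2 : ℝ) ^ (s + ε) * (X : ℝ) ^ (s + ε)) * (1 / (g : ℝ) ^ (s + ε)) := by
        rw [Real.div_rpow (by positivity) hg0.le, Real.mul_rpow (by norm_num) (by linarith)]
        ring
  have h7 : ∑ g ∈ Icc 1 X, (1 / (g : ℝ) ^ (s + ε)) ≤ S := by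
    rw [hS]
    exact hsum.sum_le_tsum _ (fun n _ => by positivity)
  calc (({w : Fin 2 → ℕ | w ∈ {w : Fin 2 → ℕ | ¬ PairGood η K (w 0) (w 1)} ∧ ∀ i, 1 ≤ w i ∧ w i ≤ X}.ncard : ℕ) : ℝ)
      ≤ (V.card : ℝ) := by exact_mod_cast h2
    _ ≤ ∑ g ∈ Icc 1 X, ((U g).card : ℝ) := h3
    _ ≤ ∑ g ∈ Icc 1 X, (|C| * (2 : ℝ) ^ (s + ε) * (X : ℝ) ^ (s + ε)) * (1 / (g : ℝ) ^ (s + ε)) := sum_le_sum h4
    _ = (|C| * (2 : ℝ) ^ (s + ε) * (X : ℝ) ^ (s + ε)) * ∑ g ∈ Icc 1 X, (1 / (g : ℝ) ^ (s + ε)) := by rw [mul_sum]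
    _ ≤ (|C| * (2 : ℝ) ^ (s + ε) * (X : ℝ) ^ (s + ε)) * S := mul_le_mul_of_nonneg_left h7 (by positivity)
    _ = |C| * (2 : ℝ) ^ (s + ε) * S * (X : ℝ) ^ (((2 : ℕ) : ℝ) - ε) := by
      have : s + ε = ((2 : ℕ) : ℝ) - ε := by rw [hε]; push_cast; ring
      rw [this]
      ring

/-- almost all pairs of values of compositions are good -/
theorem pairs {F : Fin 2 → ℕ → ℕ} (hF : ∀ i, Comp (F i)) {η : ℝ} (h0 : 0 ≤ η) (h1 : η < 2) (K : ℝ) (U : ℕ) :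
    ∃ N₀ : ℕ, ∀ N : ℕ, N₀ ≤ N →
      ({m : Fin 2 → ℕ | (∀ i, 1 ≤ m i ∧ m i ≤ N) ∧ ¬ PairGood η K (F 0 (m 0)) (F 1 (m 1))}.ncard : ℝ) ≤
        (N : ℝ) ^ 2 / Real.log N ^ U := by
  obtain ⟨c, hc, hc2, C₀, hC₀⟩ := pair_count η K h0 h1
  obtain ⟨N₀, hN₀⟩ := ckeep_tuples (F := F) (fun i => av_comp (hF i)) hc (by exact_mod_cast hc2) U C₀
  refine ⟨N₀, fun N hN => ?_⟩
  exact hN₀ N hN {w | ¬ PairGood η K (w 0) (w 1)} hC₀

end Pool.Agent.D0H71.CM.AbcPairs
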