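import Pool.Agent.D0H71.CM.Step

set_option autoImplicit false

/-!
Numerical facts for the step.
-/

namespace Pool.Agent.D0H71.CM

open Finset Classical
open Pool.Agent.N733.TG

/-- the numerical facts about `N` -/
structure Fx (P M C B A : ℕ) (η : ℝ) (N : ℕ) : Prop where
  three : 3 ≤ N
  l1 : 1 ≤ ll N
  L4 : 4 ≤ Real.log N
  hz : P ≤ zz B N
  hz' : 8 * Real.log N ^ A ≤ zz (B + 2) N
  hM : 3 * (M : ℝ) ≤ Real.log N
  hM' : 1 + Real.log M ≤ Real.log N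
  hMp : ∀ w : ℕ, (w : ℝ) ≤ 2 * ll N ^ B → (M : ℝ) ^ w ≤ Real.exp (η / 8 * Real.log N)
  hC2 : (C : ℝ) ^ 2 ≤ Real.exp (η / 8 * Real.log N)

lemma facts (P M C B A : ℕ) (hM : 1 ≤ M) (hC : 1 ≤ C) {η : ℝ} (hη : 0 < η) (hη1 : η ≤ 1) :
    ∃ N₀ : ℕ, ∀ N : ℕ, N₀ ≤ N → Fx P M C B A η N := by
  obtain ⟨N₃, hN₃⟩ := zz_big (B + 2) A 8
  obtain ⟨N₄, hN₄⟩ := zz_big B 0 P
  obtain ⟨N₅, hN₅⟩ := base B (4 * M + 4 * C + 4) (ε := η / 16) (by positivity)
  refine ⟨max (max N₃ N₄) N₅, fun N hN => ?_⟩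
  obtain ⟨g1, g2, g3, g4, _⟩ := hN₅ N ((le_max_right _ _).trans hN)
  have hz' := hN₃ N ((le_max_left _ _).trans ((le_max_left _ _).trans hN))
  have hzP := hN₄ N ((le_max_right _ _).trans ((le_max_left _ _).trans hN))
  obtain ⟨hL, hexpL, hexpl⟩ := rel g1
  rw [pow_zero, mul_one] at hzP
  have hMr : (1 : ℝ) ≤ M := by exact_mod_cast hM
  have hCr : (1 : ℝ) ≤ C := by exact_mod_cast hC
  have hLl : ll N + 1 ≤ Real.log N := by
    have := Real.add_one_le_exp (ll N)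
    rwa [hexpl] at this
  have hL1 : 1 ≤ Real.log N := by linarith
  have hsq : √(Real.log N) ≤ Real.log N := by
    rw [Real.sqrt_le_left hL.le]
    exact le_self_pow₀ hL1 (by norm_num)
  have hlB : 1 ≤ ll N ^ B := one_le_pow₀ g3
  have hlM : Real.log M ≤ M := (Real.log_le_sub_one_of_pos (by linarith)).trans (by linarith)
  have hlC : Real.log C ≤ C := (Real.log_le_sub_one_of_pos (by linarith)).trans (by linarith)
  have hkey : (4 * M + 4 * C + 4 : ℝ) * ll N ^ B ≤ η / 16 * Real.log N :=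
    g4.trans (mul_le_mul_of_nonneg_left hsq (by positivity))
  refine ⟨g1, g3, by linarith, by exact_mod_cast hzP, hz', by linarith, by linarith, ?_, ?_⟩
  · intro w hw
    have h2 : (M : ℝ) ^ w = Real.exp (w * Real.log M) := by
      rw [Real.exp_nat_mul, Real.exp_log (by linarith)]
    rw [h2]
    apply Real.exp_le_exp.2
    have h3 : (w : ℝ) * Real.log M ≤ (2 * ll N ^ B) * M :=
      mul_le_mul hw hlM (Real.log_nonneg hMr) (by positivity)
    have h4 : (2 * ll N ^ B) * M ≤ (4 * M + 4 * C + 4 : ℝ) * ll N ^ B := by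
      have : (2 * ll N ^ B) * M = (2 * (M : ℝ)) * ll N ^ B := by ring
      rw [this]
      apply mul_le_mul_of_nonneg_right _ (by positivity)
      linarith
    have h5 : η / 16 * Real.log N ≤ η / 8 * Real.log N := by
      apply mul_le_mul_of_nonneg_right _ hL.le
      linarith
    linarith
  · have h2 : (C : ℝ) ^ 2 = Real.exp (2 * Real.log C) := by
      rw [two_mul, Real.exp_add, Real.exp_log (by linarith)]
      ring
    rw [h2]
    apply Real.exp_le_exp.2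
    have h3 : (4 * M + 4 * C + 4 : ℝ) ≤ (4 * M + 4 * C + 4) * ll N ^ B := le_mul_of_one_le_right (by positivity) hlB
    have h5 : η / 16 * Real.log N ≤ η / 8 * Real.log N := by
      apply mul_le_mul_of_nonneg_right _ hL.le
      linarith
    linarith

/-- the range of the primes -/
noncomputable def XX (η₁ : ℝ) (N : ℕ) : ℕ := ⌊Real.exp ((1 + η₁) * Real.log N)⌋₊

lemma XX_facts {P M C B A : ℕ} {η η₁ : ℝ} {N : ℕ} (h : Fx P M C B A η N) (hM : 1 ≤ M) (hη₁ : 0 ≤ η₁) (hη₁' : η₁ ≤ 1) :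
    1 ≤ XX η₁ N ∧ 0 ≤ 1 + Real.log ((M * XX η₁ N : ℕ) : ℝ) ∧ 1 + Real.log ((M * XX η₁ N : ℕ) : ℝ) ≤ 3 * Real.log N ∧
      (M : ℝ) * (1 + Real.log ((M * XX η₁ N : ℕ) : ℝ)) ≤ Real.log N ^ 2 := by
  have hL4 := h.L4
  have hMr : (1 : ℝ) ≤ M := by exact_mod_cast hM
  have h1 : 1 ≤ XX η₁ N := by
    unfold XX
    apply Nat.le_floor
    rw [Nat.cast_one]
    exact Real.one_le_exp (by positivity)
  have h2 : (XX η₁ N : ℝ) ≤ Real.exp (2 * Real.log N) := by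
    unfold XX
    refine (Nat.floor_le (Real.exp_pos _).le).trans (Real.exp_le_exp.2 ?_)
    apply mul_le_mul_of_nonneg_right _ (by linarith)
    linarith
  have h3 : 1 + Real.log ((M * XX η₁ N : ℕ) : ℝ) ≤ 3 * Real.log N := by
    have hX0' : (0 : ℝ) < XX η₁ N := by exact_mod_cast h1
    push_cast
    rw [Real.log_mul (by positivity) (by positivity)]
    have e1 : Real.log (XX η₁ N) ≤ 2 * Real.log N := by
      have := Real.log_le_log hX0' h2
      rwa [Real.log_exp] at this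
    have := h.hM'
    linarith
  have h4 : 0 ≤ 1 + Real.log ((M * XX η₁ N : ℕ) : ℝ) := by linarith [log_nn (M * XX η₁ N)]
  refine ⟨h1, h4, h3, ?_⟩
  calc (M : ℝ) * (1 + Real.log ((M * XX η₁ N : ℕ) : ℝ)) ≤ M * (3 * Real.log N) :=
        mul_le_mul_of_nonneg_left h3 (by positivity)
    _ = (3 * M) * Real.log N := by ring
    _ ≤ Real.log N * Real.log N := mul_le_mul_of_nonneg_right h.hM (by linarith)
    _ = Real.log N ^ 2 := by ring

/-- the bound for the reciprocals of the bad primes -/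
lemma bad_small {f : ℕ → ℕ} (hf : LM f) {P M : ℕ} (hPM : ∀ p : ℕ, P ≤ p → p.Prime → f p ≤ M * p ∧
    ∀ q : ℕ, P ≤ q → q.Prime → f q = f p → q = p) (B A : ℕ) {κ η₁ : ℝ} (hκ : 0 < κ) (hη₁ : 0 ≤ η₁) (hη₁' : η₁ ≤ 1)
    (hM : 1 ≤ M) (C A' : ℕ) (η : ℝ) :
    ∃ N₀ : ℕ, ∀ N : ℕ, N₀ ≤ N → Fx P M C B A' η N →
      ∑ p ∈ PS f (zz B N) (XX η₁ N) (zz (B + 2) N) (Real.exp (κ * (Real.log N / ll N ^ B))), (1 : ℝ) / p ≤
        1 / Real.log N ^ A := by
  obtain ⟨CR, hCR0, hCR⟩ := rec_smooth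
  obtain ⟨N₂, hN₂⟩ := br_num B A (κ := κ) (M := M) (C := CR) hκ (by positivity) hCR0
  refine ⟨N₂, fun N hN hx => ?_⟩
  obtain ⟨h1, h2, h3, h4⟩ := XX_facts hx hM hη₁ hη₁'
  obtain ⟨β, hβ0, hβ1, hβ⟩ := hN₂ N hN _ h2 h3
  refine le_trans ?_ hβ
  have h5 := rec_val hf hPM (X := XX η₁ N) hx.hz (fun v => Real.exp (κ * (Real.log N / ll N ^ B)) < (sp (zz (B + 2) N) v : ℝ))
  have hz2 : 2 ≤ zz (B + 2) N := by
    have e1 := hx.hz'
    have e2 : (1 : ℝ) ≤ Real.log N ^ A' := one_le_pow₀ (by linarith [hx.L4])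
    have e3 : (2 : ℝ) ≤ zz (B + 2) N := by linarith
    exact_mod_cast e3
  have h6 := hCR β (zz (B + 2) N) (M * XX η₁ N) (Real.exp (κ * (Real.log N / ll N ^ B))) hβ0 hβ1 hz2 (Real.exp_pos _)
  unfold PS
  refine (le_of_eq (sum_congr (by ext p; simp only [mem_filter]) fun _ _ => rfl)).trans (h5.trans ?_)
  apply mul_le_mul_of_nonneg_left _ (Nat.cast_nonneg _)
  exact (le_of_eq (sum_congr (by ext p; simp only [mem_filter]) fun _ _ => rfl)).trans h6

end Pool.Agent.D0H71.CM
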