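import Pool.Agent.N733.TG.G

set_option autoImplicit false

/-!
The number of squarefree rough numbers with a bounded number of prime factors and a given value of a multiplicative function:
a bound for every value.
-/

namespace Pool.Agent.D0H71.CM

open Finset Classical
open Pool.Agent.N733.TG

/-- the factorizations of `v` into `J` factors -/
noncomputable def Tp (J v : ℕ) : Finset (Fin J → ℕ) :=
  (Fintype.piFinset fun _ : Fin J => v.divisors).filter (fun g => ∏ i, g i = v)

lemma mem_Tp {J v : ℕ} (hv : 1 ≤ v) {g : Fin J → ℕ} : g ∈ Tp J v ↔ ∏ i, g i = v := by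
  unfold Tp
  rw [mem_filter, Fintype.mem_piFinset]
  constructor
  · exact fun h => h.2
  · intro h
    refine ⟨fun i => ?_, h⟩
    rw [Nat.mem_divisors]
    refine ⟨?_, by omega⟩
    rw [← h]
    exact dvd_prod_of_mem _ (mem_univ i)

lemma Tp_one (J : ℕ) : (Tp J 1).card ≤ 1 := by
  rw [card_le_one]
  intro g hg h hh
  rw [mem_Tp le_rfl] at hg hh
  have h1 : ∀ i, g i = 1 := fun i => by
    have := dvd_prod_of_mem g (mem_univ i)
    rw [hg] at this
    exact Nat.dvd_one.1 this
  have h2 : ∀ i, h i = 1 := fun i => by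
    have := dvd_prod_of_mem h (mem_univ i)
    rw [hh] at this
    exact Nat.dvd_one.1 this
  ext i
  rw [h1, h2]

lemma Tp_prime {J w q : ℕ} (hw : 1 ≤ w) (hq : q.Prime) : (Tp J (q * w)).card ≤ J * (Tp J w).card := by
  have hq1 := hq.pos
  have hqw : 1 ≤ q * w := Nat.mul_pos hq1 hw
  have hsub : Tp J (q * w) ⊆ ((univ : Finset (Fin J)) ×ˢ Tp J w).image
      (fun x => Function.update x.2 x.1 (q * x.2 x.1)) := by
    intro g hg
    rw [mem_Tp hqw] at hg
    have h1 : q ∣ ∏ i, g i := by rw [hg]; exact dvd_mul_right _ _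
    obtain ⟨i, _, hi⟩ := (Prime.dvd_finsetProd_iff hq.prime g).1 h1
    obtain ⟨c, hc⟩ := hi
    rw [mem_image]
    refine ⟨(i, Function.update g i c), ?_, ?_⟩
    · rw [mem_product]
      refine ⟨mem_univ _, ?_⟩
      rw [mem_Tp hw]
      have h2 : q * ∏ j, Function.update g i c j = ∏ j, g j := by
        rw [← mul_prod_erase univ g (mem_univ i), ← mul_prod_erase univ (Function.update g i c) (mem_univ i),
          Function.update_self, hc, mul_assoc]
        congr 2
        apply prod_congr rfl
        intro j hj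
        rw [Function.update_of_ne (ne_of_mem_erase hj)]
      rw [hg] at h2
      exact Nat.eq_of_mul_eq_mul_left hq1 h2
    · simp only [Function.update_self]
      ext j
      by_cases hj : j = i
      · subst hj
        rw [Function.update_self, hc]
      · rw [Function.update_of_ne hj, Function.update_of_ne hj]
  refine (card_le_card hsub).trans (card_image_le.trans ?_)
  rw [card_product, card_univ, Fintype.card_fin]

lemma Tp_rough {J y : ℕ} (hJ : 1 ≤ J) : ∀ (k w : ℕ), 1 ≤ w → Rough y w → w < (y + 1) ^ (k + 1) →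
    (Tp J w).card ≤ J ^ k := by
  intro k
  induction k with
  | zero =>
    intro w hw hr hlt
    rw [zero_add, pow_one] at hlt
    rcases Nat.eq_or_lt_of_le hw with h | h
    · rw [← h, pow_zero]
      exact Tp_one J
    · exfalso
      have h1 := hr _ (Nat.minFac_prime (by omega : w ≠ 1)) (Nat.minFac_dvd w)
      have h2 := Nat.minFac_le (n := w) (by omega)
      omega
  | succ k ih =>
    intro w hw hr hlt
    rcases Nat.eq_or_lt_of_le hw with h | h
    · rw [← h]
      exact (Tp_one J).trans (Nat.one_le_pow _ _ hJ)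
    · have hp := Nat.minFac_prime (by omega : w ≠ 1)
      have h1 := hr _ hp (Nat.minFac_dvd w)
      obtain ⟨u, hu⟩ := Nat.minFac_dvd w
      have hu1 : 1 ≤ u := by
        rcases Nat.eq_zero_or_pos u with h0 | h0
        · rw [h0, mul_zero] at hu
          omega
        · exact h0
      have hru : Rough y u := fun p hp' hd => hr p hp' (by rw [hu]; exact hd.mul_left _)
      have hult : u < (y + 1) ^ (k + 1) := by
        by_contra hcon
        push Not at hcon
        have h3 : (y + 1) * (y + 1) ^ (k + 1) ≤ w.minFac * u := Nat.mul_le_mul (by omega) hcon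
        rw [← hu, ← pow_succ'] at h3
        omega
      have h4 := ih u hu1 hru hult
      have h5 := Tp_prime (J := J) hu1 hp
      rw [← hu] at h5
      refine h5.trans ?_
      rw [pow_succ']
      exact Nat.mul_le_mul_left _ h4

lemma Tp_div (J v : ℕ) : (Tp J v).card ≤ v.divisors.card ^ J := by
  refine (card_filter_le _ _).trans ?_
  rw [Fintype.card_piFinset, prod_const, card_univ, Fintype.card_fin]

lemma div_smooth {y s : ℕ} (hs : 1 ≤ s) (h : ∀ p : ℕ, p.Prime → p ∣ s → p ≤ y) :
    s.divisors.card ≤ (Nat.log 2 s + 1) ^ y := by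
  rw [Nat.card_divisors (by omega)]
  have h1 : ∏ x ∈ s.primeFactors, (s.factorization x + 1) ≤ ∏ x ∈ s.primeFactors, (Nat.log 2 s + 1) := by
    apply prod_le_prod'
    intro p hp
    have hp' := Nat.prime_of_mem_primeFactors hp
    apply Nat.add_le_add_right
    apply Nat.le_log_of_pow_le (by norm_num)
    exact (Nat.pow_le_pow_left hp'.two_le _).trans (Nat.ordProj_le p (by omega))
  refine h1.trans ?_
  rw [prod_const]
  apply Nat.pow_le_pow_right (by omega)
  have h2 : s.primeFactors ⊆ Icc 1 y := by
    intro p hp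
    have hp' := Nat.prime_of_mem_primeFactors hp
    rw [mem_Icc]
    exact ⟨hp'.pos, h p hp' (Nat.dvd_of_mem_primeFactors hp)⟩
  have := card_le_card h2
  rwa [Nat.card_Icc, Nat.add_sub_cancel] at this

lemma Tp_mul {J a b : ℕ} (ha : 1 ≤ a) (hb : 1 ≤ b) (hab : Nat.Coprime a b) :
    (Tp J (a * b)).card ≤ (Tp J a).card * (Tp J b).card := by
  have hab1 : 1 ≤ a * b := Nat.mul_pos ha hb
  rw [← card_product]
  apply card_le_card_of_injOn (fun g => ((fun i => Nat.gcd (g i) a), (fun i => Nat.gcd (g i) b)))
  · intro g hg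
    rw [mem_coe, mem_Tp hab1] at hg
    have h1 : ∀ i, g i = Nat.gcd (g i) a * Nat.gcd (g i) b := by
      intro i
      rw [← Nat.Coprime.gcd_mul _ hab]
      refine (Nat.gcd_eq_left ?_).symm
      rw [← hg]
      exact dvd_prod_of_mem _ (mem_univ i)
    have h2 : (∏ i, Nat.gcd (g i) a) * (∏ i, Nat.gcd (g i) b) = a * b := by
      rw [← hg, ← prod_mul_distrib]
      exact prod_congr rfl fun i _ => (h1 i).symm
    have h3 : Nat.Coprime (∏ i, Nat.gcd (g i) a) b := by
      apply Nat.Coprime.prod_left
      intro i _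
      exact Nat.Coprime.coprime_dvd_left (Nat.gcd_dvd_right _ _) hab
    have h4 : Nat.Coprime (∏ i, Nat.gcd (g i) b) a := by
      apply Nat.Coprime.prod_left
      intro i _
      exact Nat.Coprime.coprime_dvd_left (Nat.gcd_dvd_right _ _) hab.symm
    have h5 : (∏ i, Nat.gcd (g i) a) ∣ a := by
      apply h3.dvd_of_dvd_mul_right
      rw [← h2]
      exact dvd_mul_right _ _
    have h6 : (∏ i, Nat.gcd (g i) b) ∣ b := by
      apply h4.dvd_of_dvd_mul_left
      rw [← h2]
      exact dvd_mul_left _ _
    have h7 := Nat.le_of_dvd (by omega) h5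
    have h8 := Nat.le_of_dvd (by omega) h6
    have h9 : (∏ i, Nat.gcd (g i) a) = a := by
      rcases Nat.lt_or_ge (∏ i, Nat.gcd (g i) a) a with h | h
      · exfalso
        have : (∏ i, Nat.gcd (g i) a) * (∏ i, Nat.gcd (g i) b) < a * b := by
          calc _ ≤ (∏ i, Nat.gcd (g i) a) * b := Nat.mul_le_mul_left _ h8
            _ < a * b := Nat.mul_lt_mul_of_pos_right h (by omega)
        omega
      · omega
    have h10 : (∏ i, Nat.gcd (g i) b) = b := by
      rw [h9] at h2
      exact Nat.eq_of_mul_eq_mul_left (by omega) h2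
    rw [coe_product, Set.mem_prod, mem_coe, mem_coe]
    exact ⟨(mem_Tp ha).2 h9, (mem_Tp hb).2 h10⟩
  · intro g hg h hh hgh
    rw [mem_coe, mem_Tp hab1] at hg hh
    simp only [Prod.mk.injEq] at hgh
    ext i
    have e1 : g i = Nat.gcd (g i) a * Nat.gcd (g i) b := by
      rw [← Nat.Coprime.gcd_mul _ hab]
      refine (Nat.gcd_eq_left ?_).symm
      rw [← hg]
      exact dvd_prod_of_mem _ (mem_univ i)
    have e2 : h i = Nat.gcd (h i) a * Nat.gcd (h i) b := by
      rw [← Nat.Coprime.gcd_mul _ hab]
      refine (Nat.gcd_eq_left ?_).symm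
      rw [← hh]
      exact dvd_prod_of_mem _ (mem_univ i)
    rw [e1, e2, congrFun hgh.1 i, congrFun hgh.2 i]

/-- the bound for the number of factorizations -/
lemma Tp_le {J v y k : ℕ} (hJ : 1 ≤ J) (hv : 1 ≤ v) (hk : v < (y + 1) ^ (k + 1)) :
    (Tp J v).card ≤ (Nat.log 2 v + 1) ^ (y * J) * J ^ k := by
  have h1 := sp_mul_rp y v (by omega)
  have h2 := sp_pos y v
  have h3 := rp_pos y v
  have h4 := Tp_mul (J := J) h2 h3 (coprime_sp_rp y v)
  rw [h1] at h4
  refine h4.trans (Nat.mul_le_mul ?_ ?_)
  · refine (Tp_div J _).trans ?_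
    rw [pow_mul]
    apply Nat.pow_le_pow_left
    refine (div_smooth h2 (fun p hp hd => le_of_dvd_sp hp hd)).trans ?_
    apply Nat.pow_le_pow_left
    apply Nat.add_le_add_right
    apply Nat.log_mono_right
    exact Nat.le_of_dvd (by omega) ⟨_, h1.symm⟩
  · apply Tp_rough hJ k _ h3 (fun p hp hd => lt_of_dvd_rp hp hd)
    exact lt_of_le_of_lt (Nat.le_of_dvd (by omega) ⟨_, by rw [mul_comm]; exact h1.symm⟩) hk

lemma prod_getD (l : List ℕ) : ∀ J : ℕ, l.length ≤ J → ∏ i ∈ range J, l.getD i 1 = l.prod := by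
  induction l with
  | nil => intro J _; simp
  | cons a t ih =>
    intro J hJ
    obtain ⟨J', rfl⟩ : ∃ J', J = J' + 1 := ⟨J - 1, by simp at hJ; omega⟩
    rw [prod_range_succ', List.prod_cons, mul_comm]
    have h1 := ih J' (by simpa using hJ)
    rw [← h1]
    simp

/-- few preimages, for every value -/
lemma fiberT {f : ℕ → ℕ} (hf : LM f) {P : ℕ}
    (hP : ∀ p : ℕ, P ≤ p → p.Prime → ∀ q : ℕ, P ≤ q → q.Prime → f q = f p → q = p)
    {z J v : ℕ} (hz : P ≤ z) (hv : 1 ≤ v) (U : Finset ℕ) (h1 : ∀ u ∈ U, Squarefree u) (h2 : ∀ u ∈ U, Rough z u)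
    (h3 : ∀ u ∈ U, u.primeFactors.card ≤ J) (h4 : ∀ u ∈ U, f u = v) :
    U.card ≤ 2 * (Tp J v).card := by
  have hinj : ∀ p q : ℕ, p.Prime → q.Prime → z < p → z < q → f p = f q → p = q := by
    intro p q hp hq hzp hzq h
    exact hP q (by omega) hq p (by omega) hp h
  -- the set of the values
  obtain ⟨S, hS⟩ : ∃ S : ℕ → Finset ℕ, S = fun u => u.primeFactors.image f := ⟨_, rfl⟩
  have hSc : ∀ u ∈ U, (S u).card ≤ J := by
    intro u hu
    rw [hS]
    exact card_image_le.trans (h3 u hu)
  have hSp : ∀ u ∈ U, ∏ x ∈ S u, x = v := by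
    intro u hu
    rw [hS, ← h4 u hu, hf.sqf (h1 u hu)]
    simp only
    rw [prod_image]
    intro p hp q hq hpq
    rw [mem_coe] at hp hq
    have hp' := Nat.prime_of_mem_primeFactors hp
    have hq' := Nat.prime_of_mem_primeFactors hq
    exact hinj p q hp' hq' (h2 u hu p hp' (Nat.dvd_of_mem_primeFactors hp))
      (h2 u hu q hq' (Nat.dvd_of_mem_primeFactors hq)) hpq
  have hSinj : ∀ u ∈ U, ∀ w ∈ U, S u = S w → u = w := by
    intro u hu w hw huw
    rw [hS] at huw
    simp only at huw
    have e : u.primeFactors = w.primeFactors := by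
      ext p
      constructor
      · intro hp
        have : f p ∈ w.primeFactors.image f := by
          rw [← huw]
          exact mem_image_of_mem f hp
        obtain ⟨q, hq, hqp⟩ := mem_image.1 this
        have hp' := Nat.prime_of_mem_primeFactors hp
        have hq' := Nat.prime_of_mem_primeFactors hq
        have := hinj q p hq' hp' (h2 w hw q hq' (Nat.dvd_of_mem_primeFactors hq))
          (h2 u hu p hp' (Nat.dvd_of_mem_primeFactors hp)) hqp
        rw [← this]
        exact hq
      · intro hp
        have : f p ∈ u.primeFactors.image f := by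
          rw [huw]
          exact mem_image_of_mem f hp
        obtain ⟨q, hq, hqp⟩ := mem_image.1 this
        have hp' := Nat.prime_of_mem_primeFactors hp
        have hq' := Nat.prime_of_mem_primeFactors hq
        have := hinj q p hq' hp' (h2 u hu q hq' (Nat.dvd_of_mem_primeFactors hq))
          (h2 w hw p hp' (Nat.dvd_of_mem_primeFactors hp)) hqp
        rw [← this]
        exact hq
    rw [← Nat.prod_primeFactors_of_squarefree (h1 u hu), ← Nat.prod_primeFactors_of_squarefree (h1 w hw), e]
  -- the functions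
  obtain ⟨G, hG⟩ : ∃ G : ℕ → (Fin J → ℕ), G = fun u (i : Fin J) => (S u).toList.getD (i : ℕ) 1 := ⟨_, rfl⟩
  have hGT : ∀ u ∈ U, G u ∈ Tp J v := by
    intro u hu
    rw [mem_Tp hv, hG]
    simp only
    rw [Fin.prod_univ_eq_prod_range (fun i => (S u).toList.getD i 1) J, prod_getD _ J (by
      rw [length_toList]; exact hSc u hu), ← hSp u hu]
    have := Finset.prod_map_toList (S u) (fun x : ℕ => x)
    simpa using this
  have hGm : ∀ u ∈ U, ∀ x, x ≠ 1 → (x ∈ S u ↔ ∃ i, G u i = x) := by
    intro u hu x hx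
    rw [hG]
    simp only
    constructor
    · intro hxS
      rw [← mem_toList] at hxS
      obtain ⟨n, hn, hnx⟩ := List.getElem_of_mem hxS
      have hn' : n < J := by
        rw [length_toList] at hn
        have := hSc u hu
        omega
      refine ⟨⟨n, hn'⟩, ?_⟩
      simp only
      rw [List.getD_eq_getElem _ _ hn, hnx]
    · rintro ⟨i, hi⟩
      rcases Nat.lt_or_ge (i : ℕ) (S u).toList.length with h | h
      · rw [List.getD_eq_getElem _ _ h] at hi
        rw [← mem_toList, ← hi]
        exact List.getElem_mem h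
      · rw [List.getD_eq_default _ _ h] at hi
        exact absurd hi.symm hx
  have hcard : U.card ≤ ((univ : Finset Bool) ×ˢ Tp J v).card := by
    apply card_le_card_of_injOn (fun u => (decide (1 ∈ S u), G u))
    · intro u hu
      rw [mem_coe] at hu
      rw [coe_product, Set.mem_prod]
      exact ⟨mem_coe.2 (mem_univ _), hGT u hu⟩
    · intro u hu w hw huw
      rw [mem_coe] at hu hw
      simp only [Prod.mk.injEq, decide_eq_decide] at huw
      apply hSinj u hu w hw
      ext x
      by_cases hx : x = 1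
      · subst hx
        exact huw.1
      · rw [hGm u hu x hx, hGm w hw x hx, huw.2]
  refine hcard.trans ?_
  rw [card_product]
  simp

end Pool.Agent.D0H71.CM
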