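import Pool.Agent.D0H71.CM.Facts

set_option autoImplicit false

/-!
The structure of the typical values is inherited by the composition with a multiplicative function.
-/

namespace Pool.Agent.D0H71.CM

open Finset Classical
open Pool.Agent.N733.TG

section at_N

variable {f F : ℕ → ℕ} (hf : LM f) {P M C D : ℕ} (hPM : ∀ p : ℕ, P ≤ p → p.Prime → f p ≤ M * p ∧
    ∀ q : ℕ, P ≤ q → q.Prime → f q = f p → q = p) (hCD : ∀ m : ℕ, 1 ≤ m → f m ≤ C * m ^ D) (hM : 1 ≤ M)
  {B K A N : ℕ} {η η₁ : ℝ} (hη : 0 < η) (hη₁ : 0 ≤ η₁) (hη₁' : η₁ ≤ η / 8) (hη1 : η ≤ 1)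
  (hDη : D * η₁ ≤ η / 8) (hx : Fx P M C B (K + A + 5) η N)
  {V : Finset ℕ} {s r : ℕ → ℕ} (hV : Dec F B K η₁ (A + 1) N V s r)

include hη₁' hη1 hx hV in
lemma omega_V {m : ℕ} (hm : m ∈ V) : ((r m).primeFactors.card : ℝ) ≤ 2 * ll N ^ B := by
  apply omega_bd hx.three hx.l1 (hV.sqf m hm) (hV.rough m hm)
  refine (hV.rle m hm).trans (Real.exp_le_exp.2 ?_)
  apply mul_le_mul_of_nonneg_right _ (by linarith [hx.L4])
  linarith

include hV in
lemma PP_V : ∀ m ∈ V, ∀ p ∈ (r m).primeFactors, p ∈ PP (zz B N) (XX η₁ N) := by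
  intro m hm p hp
  have hp' := Nat.prime_of_mem_primeFactors hp
  have hd := Nat.dvd_of_mem_primeFactors hp
  rw [mem_PP]
  refine ⟨?_, hp', hV.rough m hm p hp' hd⟩
  unfold XX
  apply Nat.le_floor
  have h1 : (p : ℝ) ≤ r m := by
    exact_mod_cast Nat.le_of_dvd (Nat.pos_of_ne_zero (hV.sqf m hm).ne_zero) hd
  exact h1.trans (hV.rle m hm)

include hf hPM hM hη₁ hη₁' hη1 hx in
lemma rec_V : ∀ d : ℕ, 1 ≤ d → ∑ p ∈ PQ f (zz B N) (XX η₁ N) d, (1 : ℝ) / p ≤ Real.log N ^ 2 / d := by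
  intro d hd
  refine (rec_prime hf hPM hx.hz hd).trans ?_
  exact div_le_div_of_nonneg_right (XX_facts hx hM hη₁ (by linarith)).2.2.2 (Nat.cast_nonneg _)

include hf hPM hM hη₁ hη₁' hη1 hx hV in
lemma card_V' (hbad : ∑ p ∈ PS f (zz B N) (XX η₁ N) (zz (B + 2) N) (Real.exp (η / 16 * (Real.log N / ll N ^ B))), (1 : ℝ) / p ≤
      1 / Real.log N ^ (K + A + 2)) :
    ((Icc 1 N \ VN f (zz (B + 2) N) (Real.exp (η / 16 * (Real.log N / ll N ^ B))) V r).card : ℝ) ≤
      N / Real.log N ^ A := by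
  obtain ⟨T, hT⟩ : ∃ T, T = Real.exp (η / 16 * (Real.log N / ll N ^ B)) := ⟨_, rfl⟩
  have hrec := rec_V hf hPM hM hη₁ hη₁' hη1 hx
  have hPPr := PP_V hV
  have hz' := hx.hz'
  have hL4 := hx.L4
  have hP := hx.hz
  have hone := hV.one
  have htwo := hV.two
  have hcard := hV.card
  have h3N := hx.three
  rw [← hT] at hbad ⊢
  obtain ⟨z, hzd⟩ : ∃ z, z = zz B N := ⟨_, rfl⟩
  obtain ⟨z', hzd'⟩ : ∃ z', z' = zz (B + 2) N := ⟨_, rfl⟩
  obtain ⟨X, hX⟩ : ∃ X, X = XX η₁ N := ⟨_, rfl⟩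
  rw [← hzd] at hP
  rw [← hzd, ← hX] at hrec hPPr
  rw [← hzd, ← hX, ← hzd'] at hbad
  rw [← hzd'] at hz' ⊢
  have hcov := cover (T := T) (z' := z') hf hPM (N := N) hP hPPr
  obtain ⟨L, hLd⟩ : ∃ L, L = Real.log N := ⟨_, rfl⟩
  rw [← hLd] at hrec hz' hL4 hbad hone htwo hcard ⊢
  have hN0 : (0 : ℝ) < N := by exact_mod_cast (by omega : 0 < N)
  have hL0 : 0 < L := by linarith
  have hL1 : 1 ≤ L := by linarith
  have hz'0 : (0 : ℝ) < z' := lt_of_lt_of_le (by positivity) hz'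
  have hz'n : 1 ≤ z' := by
    have : 0 < z' := by exact_mod_cast hz'0
    omega
  have hNK : 0 ≤ (N : ℝ) * L ^ K := by positivity
  have hL2 : 0 ≤ L ^ 2 := by positivity
  have t3 := count3 (Y := M * X) hNK hL2 hone hrec hz'n
  have t4 := count4 (Y := M * X) hNK hL2 htwo hrec hz'n
  have t2 : ((V1 V r (PS f z X z' T)).card : ℝ) ≤ N / L ^ A / 4 := by
    refine (card1 hone prime_PS).trans ((mul_le_mul_of_nonneg_left hbad hNK).trans ?_)
    have e1 : (N : ℝ) * L ^ K * (1 / L ^ (K + A + 2)) = N / L ^ A / L ^ 2 := by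
      rw [pow_add, pow_add]
      field_simp
    rw [e1]
    apply div_le_div_of_nonneg_left (by positivity) (by norm_num)
    nlinarith
  have t1 : ((Icc 1 N \ V).card : ℝ) ≤ N / L ^ A / 4 := by
    refine hcard.trans ?_
    rw [pow_succ, ← div_div]
    exact div_le_div_of_nonneg_left (by positivity) (by norm_num) hL4
  have aux : ∀ j : ℕ, j ≤ 4 → (N : ℝ) * L ^ (K + j) / z' ≤ N / L ^ A / 4 := by
    intro j hj
    rw [div_div, div_le_div_iff₀ hz'0 (by positivity)]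
    have h5 : L ^ (K + j) * (L ^ A * 4) ≤ z' := by
      refine le_trans ?_ hz'
      have h6 : L ^ (K + j) * (L ^ A * 4) = 4 * L ^ (K + A + j) := by ring
      rw [h6]
      have h7 : L ^ (K + A + j) ≤ L ^ (K + A + 5) := pow_le_pow_right₀ hL1 (by omega)
      have h8 : 0 ≤ L ^ (K + A + 5) := by positivity
      linarith
    calc (N : ℝ) * L ^ (K + j) * (L ^ A * 4) = N * (L ^ (K + j) * (L ^ A * 4)) := by ring
      _ ≤ N * z' := mul_le_mul_of_nonneg_left h5 hN0.le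
  have t3' : (((Ioc z' (M * X)).biUnion (fun q => V1 V r (PQ f z X (q ^ 2)))).card : ℝ) ≤ N / L ^ A / 4 := by
    refine t3.trans (le_trans (le_of_eq ?_) (aux 2 (by norm_num)))
    rw [pow_add]
    ring
  have t4' : (((Ioc z' (M * X)).biUnion (fun q => V2 V r (PQ f z X q) (PQ f z X q))).card : ℝ) ≤ N / L ^ A / 4 := by
    refine t4.trans (le_trans (le_of_eq ?_) (aux 4 (by norm_num)))
    rw [pow_add]
    ring
  have h2 := card_le_card hcov
  have h3 := card_union_le ((Icc 1 N \ V) ∪ V1 V r (PS f z X z' T) ∪ (Ioc z' (M * X)).biUnion (fun q => V1 V r (PQ f z X (q ^ 2))))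
    ((Ioc z' (M * X)).biUnion (fun q => V2 V r (PQ f z X q) (PQ f z X q)))
  have h4 := card_union_le ((Icc 1 N \ V) ∪ V1 V r (PS f z X z' T))
    ((Ioc z' (M * X)).biUnion (fun q => V1 V r (PQ f z X (q ^ 2))))
  have h5 := card_union_le (Icc 1 N \ V) (V1 V r (PS f z X z' T))
  have h1 : ((Icc 1 N \ VN f z' T V r).card : ℝ) ≤ ((Icc 1 N \ V).card : ℝ) + ((V1 V r (PS f z X z' T)).card : ℝ) +
      (((Ioc z' (M * X)).biUnion (fun q => V1 V r (PQ f z X (q ^ 2)))).card : ℝ) +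
      (((Ioc z' (M * X)).biUnion (fun q => V2 V r (PQ f z X q) (PQ f z X q))).card : ℝ) := by
    exact_mod_cast h2.trans (h3.trans (Nat.add_le_add_right (h4.trans (Nat.add_le_add_right h5 _)) _))
  linarith

include hf hPM hη₁' hη1 hx hV in
/-- the size of the values at the rough part -/
lemma val_le {m : ℕ} (hm : m ∈ V) : ((∏ p ∈ (r m).primeFactors, f p : ℕ) : ℝ) ≤
    Real.exp ((1 + η₁ + η / 8) * Real.log N) := by
  have h2 : ∏ p ∈ (r m).primeFactors, f p ≤ M ^ (r m).primeFactors.card * r m := by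
    calc ∏ p ∈ (r m).primeFactors, f p ≤ ∏ p ∈ (r m).primeFactors, (M * p) := by
          apply prod_le_prod'
          intro p hp
          obtain ⟨b1, b2, b3⟩ := mem_PP.1 (PP_V hV m hm p hp)
          exact (hPM p (by have := hx.hz; omega) b2).1
      _ = _ := by
        rw [prod_mul_distrib, prod_const, Nat.prod_primeFactors_of_squarefree (hV.sqf m hm)]
  have h3 : ((∏ p ∈ (r m).primeFactors, f p : ℕ) : ℝ) ≤ (M : ℝ) ^ (r m).primeFactors.card * r m := by
    exact_mod_cast h2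
  refine h3.trans ?_
  calc (M : ℝ) ^ (r m).primeFactors.card * r m ≤ Real.exp (η / 8 * Real.log N) * Real.exp ((1 + η₁) * Real.log N) :=
        mul_le_mul (hx.hMp _ (omega_V hη₁' hη1 hx hV hm)) (hV.rle m hm) (Nat.cast_nonneg _) (Real.exp_pos _).le
    _ = _ := by
      rw [← Real.exp_add]
      congr 1
      ring

include hCD hDη hx hV in
/-- the size of the values at the small part -/
lemma val_s {m : ℕ} (hm : m ∈ V) : (f (s m) : ℝ) ≤ C * Real.exp (η / 8 * Real.log N) := by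
  have e1 : (f (s m) : ℝ) ≤ C * (s m : ℝ) ^ D := by exact_mod_cast hCD (s m) (hV.pos m hm)
  refine e1.trans (mul_le_mul_of_nonneg_left ?_ (by positivity))
  calc (s m : ℝ) ^ D ≤ (Real.exp (η₁ * Real.log N)) ^ D := pow_le_pow_left₀ (Nat.cast_nonneg _) (hV.sle m hm) D
    _ = Real.exp (D * η₁ * Real.log N) := by
      rw [← Real.exp_nat_mul]
      congr 1
      ring
    _ ≤ _ := by
      apply Real.exp_le_exp.2
      apply mul_le_mul_of_nonneg_right _ (by linarith [hx.L4])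
      exact hDη

include hf hPM hCD hM hη hη₁ hη₁' hη1 hDη hx hV in
lemma step_at (hbad : ∑ p ∈ PS f (zz B N) (XX η₁ N) (zz (B + 2) N) (Real.exp (η / 16 * (Real.log N / ll N ^ B))), (1 : ℝ) / p ≤
      1 / Real.log N ^ (K + A + 2)) :
    Dec (fun m => f (F m)) (B + 2) (K + 5) η A N (VN f (zz (B + 2) N) (Real.exp (η / 16 * (Real.log N / ll N ^ B))) V r)
      (fun m => ns f (zz (B + 2) N) (s m) (r m)) (fun m => nr f (zz (B + 2) N) (s m) (r m)) := by
  have hcards := card_V' hf hPM hM hη₁ hη₁' hη1 hx hV hbad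
  have hrec := rec_V hf hPM hM hη₁ hη₁' hη1 hx
  have hPPr := PP_V hV
  have hL4 := hx.L4
  have hL1 : 1 ≤ Real.log N := by linarith
  have hL0 : 0 < Real.log N := by linarith
  have hN0 : (0 : ℝ) ≤ N := Nat.cast_nonneg _
  have hNK : 0 ≤ (N : ℝ) * Real.log N ^ K := by positivity
  have hL2 : 0 ≤ Real.log N ^ 2 := by positivity
  constructor
  · intro m hm
    exact hV.sub (mem_VN.1 hm).1
  · exact hcards
  · intro m hm
    obtain ⟨a1, a2, a3, a4⟩ := mem_VN.1 hm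
    rw [hV.eq m a1]
    exact c_eq hf (hV.cop m a1) (hV.sqf m a1) a3 a4
  · intro m hm
    exact c_cop
  · intro m hm
    obtain ⟨a1, a2, a3, a4⟩ := mem_VN.1 hm
    exact c_pos hf (hV.pos m a1)
  · intro m hm
    obtain ⟨a1, a2, a3, a4⟩ := mem_VN.1 hm
    have h1 : (ns f (zz (B + 2) N) (s m) (r m) : ℝ) ≤ (f (s m) : ℝ) ^ 2 * AA f (zz (B + 2) N) (r m) := by
      exact_mod_cast c_sle hf (hV.pos m a1)
    refine h1.trans ?_
    have h2 : (AA f (zz (B + 2) N) (r m) : ℝ) ≤ Real.exp (η / 8 * Real.log N) := by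
      have e1 : (AA f (zz (B + 2) N) (r m) : ℝ) ≤
          (Real.exp (η / 16 * (Real.log N / ll N ^ B))) ^ (r m).primeFactors.card := by
        unfold AA
        push_cast
        calc ∏ p ∈ (r m).primeFactors, (sp (zz (B + 2) N) (f p) : ℝ) ≤
              ∏ _p ∈ (r m).primeFactors, Real.exp (η / 16 * (Real.log N / ll N ^ B)) :=
              Finset.prod_le_prod (fun _ _ => Nat.cast_nonneg _) a2
          _ = _ := by rw [prod_const]
      refine e1.trans ?_
      rw [← Real.exp_nat_mul]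
      apply Real.exp_le_exp.2
      have hl1 := hx.l1
      calc ((r m).primeFactors.card : ℝ) * (η / 16 * (Real.log N / ll N ^ B)) ≤
            (2 * ll N ^ B) * (η / 16 * (Real.log N / ll N ^ B)) :=
            mul_le_mul_of_nonneg_right (omega_V hη₁' hη1 hx hV a1) (by positivity)
        _ = η / 8 * Real.log N := by
          field_simp
          ring
    have h3 := val_s hCD hDη hx hV a1
    calc (f (s m) : ℝ) ^ 2 * AA f (zz (B + 2) N) (r m) ≤
          (C * Real.exp (η / 8 * Real.log N)) ^ 2 * Real.exp (η / 8 * Real.log N) :=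
          mul_le_mul (pow_le_pow_left₀ (Nat.cast_nonneg _) h3 2) h2 (Nat.cast_nonneg _) (by positivity)
      _ = (C : ℝ) ^ 2 * Real.exp (3 * (η / 8) * Real.log N) := by
        rw [mul_pow, ← Real.exp_nat_mul, mul_assoc, ← Real.exp_add]
        congr 2
        push_cast
        ring
      _ ≤ Real.exp (η / 8 * Real.log N) * Real.exp (3 * (η / 8) * Real.log N) :=
        mul_le_mul_of_nonneg_right hx.hC2 (Real.exp_pos _).le
      _ ≤ Real.exp (η * Real.log N) := by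
        rw [← Real.exp_add]
        apply Real.exp_le_exp.2
        have : η / 8 * Real.log N + 3 * (η / 8) * Real.log N = (η / 2) * Real.log N := by ring
        rw [this]
        apply mul_le_mul_of_nonneg_right _ hL0.le
        linarith
  · intro m hm
    exact c_sqf
  · intro m hm
    exact c_rough
  · intro m hm
    obtain ⟨a1, a2, a3, a4⟩ := mem_VN.1 hm
    have h1 := c_rle hf (s := s m) a3 a4
    have h3 : (nr f (zz (B + 2) N) (s m) (r m) : ℝ) ≤ ((∏ p ∈ (r m).primeFactors, f p : ℕ) : ℝ) := by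
      exact_mod_cast h1
    refine h3.trans ((val_le hf hPM hη₁' hη1 hx hV a1).trans (Real.exp_le_exp.2 ?_))
    apply mul_le_mul_of_nonneg_right _ hL0.le
    linarith
  · intro q hq
    have h1 := count1 (z' := zz (B + 2) N) (T := Real.exp (η / 16 * (Real.log N / ll N ^ B))) hNK hV.one hrec hf hPPr
      (s := s) hq
    refine h1.trans ?_
    have e1 : (N : ℝ) * Real.log N ^ K * Real.log N ^ 2 = N * Real.log N ^ (K + 2) := by
      rw [pow_add]
      ring
    rw [e1]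
    exact mul_le_mul_of_nonneg_left (pow_le_pow_right₀ hL1 (by omega)) hN0
  · intro q q' hq hq' hne
    have h1 := count2 (z' := zz (B + 2) N) (T := Real.exp (η / 16 * (Real.log N / ll N ^ B))) hNK hL2 hV.one hV.two hrec
      hf hPPr (s := s) hq hq' hne
    refine h1.trans ?_
    have e1 : (N : ℝ) * Real.log N ^ K * (Real.log N ^ 2 + (Real.log N ^ 2) ^ 2) =
        N * (Real.log N ^ (K + 2) + Real.log N ^ (K + 4)) := by
      rw [pow_add, pow_add]
      ring
    rw [e1]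
    apply mul_le_mul_of_nonneg_left _ hN0
    have e3 : Real.log N ^ (K + 2) ≤ Real.log N ^ (K + 4) := pow_le_pow_right₀ hL1 (by omega)
    have e4 : Real.log N ^ (K + 5) = Real.log N ^ (K + 4) * Real.log N := pow_succ _ _
    have e5 : 0 ≤ Real.log N ^ (K + 4) := by positivity
    rw [e4]
    nlinarith

end at_N

theorem good_step {f F : ℕ → ℕ} (hf : LM f) (hF : Good F) : Good (fun m => f (F m)) := by
  obtain ⟨B, K, hF⟩ := hF
  obtain ⟨P, M₀, hPM₀⟩ := hf.prime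
  obtain ⟨C₀, D, hCD₀⟩ := hf.growth
  obtain ⟨M, hM⟩ : ∃ M : ℕ, M = M₀ + 1 := ⟨_, rfl⟩
  obtain ⟨C, hC⟩ : ∃ C : ℕ, C = C₀ + 1 := ⟨_, rfl⟩
  have hM1 : 1 ≤ M := by omega
  have hC1 : 1 ≤ C := by omega
  have hPM : ∀ p : ℕ, P ≤ p → p.Prime → f p ≤ M * p ∧
      ∀ q : ℕ, P ≤ q → q.Prime → f q = f p → q = p := by
    intro p h1 h2
    refine ⟨((hPM₀ p h1 h2).1).trans (Nat.mul_le_mul_right _ (by omega)), (hPM₀ p h1 h2).2⟩
  have hCD : ∀ m : ℕ, 1 ≤ m → f m ≤ C * m ^ D := fun m hm =>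
    (hCD₀ m hm).trans (Nat.mul_le_mul_right _ (by omega))
  refine ⟨B + 2, K + 5, fun η₀ hη₀ A => ?_⟩
  obtain ⟨η, hη⟩ : ∃ η : ℝ, η = min η₀ 1 := ⟨_, rfl⟩
  have hη0 : 0 < η := by rw [hη]; exact lt_min hη₀ one_pos
  have hη1 : η ≤ 1 := by rw [hη]; exact min_le_right _ _
  have hηη : η ≤ η₀ := by rw [hη]; exact min_le_left _ _
  have hD0 : (0 : ℝ) ≤ D := Nat.cast_nonneg _
  obtain ⟨η₁, hη₁⟩ : ∃ η₁ : ℝ, η₁ = η / (8 * (D + 1)) := ⟨_, rfl⟩
  have hη₁0 : 0 < η₁ := by rw [hη₁]; positivity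
  have hη₁D : η₁ * (D + 1) = η / 8 := by rw [hη₁]; field_simp
  have hη₁1 : η₁ ≤ η / 8 := by
    rw [← hη₁D]
    nlinarith
  have hDη : D * η₁ ≤ η / 8 := by
    rw [← hη₁D]
    nlinarith
  obtain ⟨N₁, hN₁⟩ := hF η₁ hη₁0 (A + 1)
  obtain ⟨N₂, hN₂⟩ := facts P M C B (K + A + 5) hM1 hC1 hη0 hη1
  obtain ⟨N₃, hN₃⟩ := bad_small hf hPM B (K + A + 2) (κ := η / 16) (η₁ := η₁) (by positivity) hη₁0.le (by linarith) hM1 C
    (K + A + 5) η
  refine ⟨max N₁ (max N₂ N₃), fun N hN => ?_⟩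
  obtain ⟨V, s, r, hV⟩ := hN₁ N ((le_max_left _ _).trans hN)
  have hx := hN₂ N ((le_max_left _ _).trans ((le_max_right _ _).trans hN))
  have hbad := hN₃ N ((le_max_right _ _).trans ((le_max_right _ _).trans hN)) hx
  have h := step_at hf hPM hCD hM1 hη0 hη₁0.le hη₁1 hη1 hDη hx hV hbad
  have hL : 0 ≤ Real.log N := by linarith [hx.L4]
  refine ⟨_, _, _, h.sub, h.card, h.eq, h.cop, h.pos, fun m hm => (h.sle m hm).trans (Real.exp_le_exp.2 ?_), h.sqf,
    h.rough, fun m hm => (h.rle m hm).trans (Real.exp_le_exp.2 ?_), h.one, h.two⟩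
  · exact mul_le_mul_of_nonneg_right hηη hL
  · exact mul_le_mul_of_nonneg_right (by linarith) hL

end Pool.Agent.D0H71.CM
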