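import Pool.Agent.D0H71.CM.Num

set_option autoImplicit false

/-!
The structure of the typical values of a composition of multiplicative functions: definition, and the identity.
-/

namespace Pool.Agent.D0H71.CM

open Finset Classical
open Pool.Agent.N733.TG

/-- for the `m` in `V`, `F m = s m * r m`, where `s m` is small and `r m` is squarefree without small prime factors; few `m` have
a given prime factor, or two given prime factors, of `r m` -/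
structure Dec (F : ℕ → ℕ) (B K : ℕ) (η : ℝ) (A N : ℕ) (V : Finset ℕ) (s r : ℕ → ℕ) : Prop where
  sub : V ⊆ Icc 1 N
  card : ((Icc 1 N \ V).card : ℝ) ≤ N / Real.log N ^ A
  eq : ∀ m ∈ V, F m = s m * r m
  cop : ∀ m ∈ V, Nat.Coprime (s m) (r m)
  pos : ∀ m ∈ V, 1 ≤ s m
  sle : ∀ m ∈ V, (s m : ℝ) ≤ Real.exp (η * Real.log N)
  sqf : ∀ m ∈ V, Squarefree (r m)
  rough : ∀ m ∈ V, Rough (zz B N) (r m)
  rle : ∀ m ∈ V, (r m : ℝ) ≤ Real.exp ((1 + η) * Real.log N)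
  one : ∀ p : ℕ, p.Prime → ((V.filter (fun m => p ∣ r m)).card : ℝ) * p ≤ N * Real.log N ^ K
  two : ∀ p q : ℕ, p.Prime → q.Prime → p ≠ q →
    ((V.filter (fun m => p ∣ r m ∧ q ∣ r m)).card : ℝ) * (p * q) ≤ N * Real.log N ^ K

/-- the typical values of `F` have a good decomposition -/
def Good (F : ℕ → ℕ) : Prop := ∃ B K : ℕ, ∀ η : ℝ, 0 < η → ∀ A : ℕ, ∃ N₀ : ℕ, ∀ N : ℕ, N₀ ≤ N →
  ∃ (V : Finset ℕ) (s r : ℕ → ℕ), Dec F B K η A N V s r

lemma card_dvd (N d : ℕ) : (((Icc 1 N).filter (fun m => d ∣ m)).card : ℝ) * d ≤ N := by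
  have h1 : ((Icc 1 N).filter (fun m => d ∣ m)).card = N / d := by
    have := Nat.Ioc_filter_dvd_card_eq_div N d
    rw [← this]
    rfl
  rw [h1]
  exact_mod_cast Nat.div_mul_le_self N d

theorem good_id : Good id := by
  refine ⟨2, 0, fun η hη A => ?_⟩
  obtain ⟨CR, hCR0, hCR⟩ := few_large'
  obtain ⟨N₁, hN₁⟩ := br_num 0 A (κ := η) (M := 2) (C := CR) hη (by norm_num) hCR0
  obtain ⟨N₂, hN₂⟩ := zz_big 2 A 2
  obtain ⟨N₃, hN₃⟩ := base 0 1 (ε := 1) one_pos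
  obtain ⟨N₄, hN₄⟩ := zz_big 2 0 2
  refine ⟨max (max N₁ N₂) (max N₃ N₄), fun N hN => ?_⟩
  have hN1 : N₁ ≤ N := (le_max_left _ _).trans ((le_max_left _ _).trans hN)
  have hN2 : N₂ ≤ N := (le_max_right _ _).trans ((le_max_left _ _).trans hN)
  have hN3 : N₃ ≤ N := (le_max_left _ _).trans ((le_max_right _ _).trans hN)
  have hN4 : N₄ ≤ N := (le_max_right _ _).trans ((le_max_right _ _).trans hN)
  obtain ⟨g1, g2, g3, _, _⟩ := hN₃ N hN3
  obtain ⟨hL, hexpL, hexpl⟩ := rel g1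
  have hN0 : (0 : ℝ) < N := by exact_mod_cast (by omega : 0 < N)
  have hL1 : 1 ≤ Real.log N := by
    rw [← hexpl]
    exact Real.one_le_exp (by linarith)
  obtain ⟨β, hβ0, hβ1, hβ⟩ := hN₁ N hN1 1 (by norm_num) (by linarith)
  have hz := hN₂ N hN2
  have hz2 := hN₄ N hN4
  rw [pow_zero, mul_one] at hz2
  rw [pow_zero, div_one, zero_add, one_mul] at hβ
  obtain ⟨z, hzd⟩ : ∃ z, z = zz 2 N := ⟨_, rfl⟩
  rw [← hzd] at hz hβ hz2
  obtain ⟨Y, hY⟩ : ∃ Y : ℝ, Y = Real.exp (η * Real.log N) := ⟨_, rfl⟩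
  rw [← hY] at hβ
  have hY0 : 0 < Y := by rw [hY]; exact Real.exp_pos _
  have hz2' : 2 ≤ z := by exact_mod_cast hz2
  have hsub : ∀ m, 1 ≤ m → sp z m ≤ m := fun m hm =>
    Nat.le_of_dvd (by omega) ⟨_, (sp_mul_rp z m (by omega)).symm⟩
  have hsub' : ∀ m, 1 ≤ m → rp z m ≤ m := fun m hm =>
    Nat.le_of_dvd (by omega) ⟨_, by rw [mul_comm]; exact (sp_mul_rp z m (by omega)).symm⟩
  have hrd : ∀ m, 1 ≤ m → rp z m ∣ m := fun m hm => ⟨_, by rw [mul_comm]; exact (sp_mul_rp z m (by omega)).symm⟩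
  refine ⟨(Icc 1 N).filter (fun m => (sp z m : ℝ) ≤ Y ∧ ¬ ∃ p : ℕ, p.Prime ∧ z < p ∧ p ^ 2 ∣ m), sp z, rp z, ?_⟩
  constructor
  · exact filter_subset _ _
  · have h1 : (Icc 1 N \ (Icc 1 N).filter (fun m => (sp z m : ℝ) ≤ Y ∧ ¬ ∃ p : ℕ, p.Prime ∧ z < p ∧ p ^ 2 ∣ m)) ⊆
        (Icc 1 N).filter (fun m => Y < (sp z m : ℝ)) ∪
          (Icc 1 N).filter (fun m => ∃ p : ℕ, p.Prime ∧ z < p ∧ p ^ 2 ∣ m) := by
      intro m hm
      rw [mem_sdiff, mem_filter] at hm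
      rw [mem_union, mem_filter, mem_filter]
      by_cases h : Y < (sp z m : ℝ)
      · left; exact ⟨hm.1, h⟩
      · right
        refine ⟨hm.1, ?_⟩
        by_contra hcon
        exact hm.2 ⟨hm.1, not_lt.1 h, hcon⟩
    have h2 : ((Icc 1 N \ (Icc 1 N).filter (fun m => (sp z m : ℝ) ≤ Y ∧
        ¬ ∃ p : ℕ, p.Prime ∧ z < p ∧ p ^ 2 ∣ m)).card : ℝ) ≤
        (((Icc 1 N).filter (fun m => Y < (sp z m : ℝ))).card : ℝ) +
          (((Icc 1 N).filter (fun m => ∃ p : ℕ, p.Prime ∧ z < p ∧ p ^ 2 ∣ m)).card : ℝ) := by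
      exact_mod_cast (card_le_card h1).trans (card_union_le _ _)
    have h3 := hCR β z N Y hβ0 hβ1 hz2' hY0
    have h4 := few_square N z (by omega)
    have h5 : (N : ℝ) * Y ^ (-β) * (CR * Real.log z * Real.exp (4 * β * (z : ℝ) ^ β * (Real.log z + CR))) ≤
        N / Real.log N ^ A / 2 := by
      have e1 : (N : ℝ) * Y ^ (-β) * (CR * Real.log z * Real.exp (4 * β * (z : ℝ) ^ β * (Real.log z + CR))) =
          N / 2 * (2 * (Y ^ (-β) * (CR * Real.log z * Real.exp (4 * β * (z : ℝ) ^ β * (Real.log z + CR))))) := by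
        ring
      rw [e1]
      calc _ ≤ N / 2 * (1 / Real.log N ^ A) := mul_le_mul_of_nonneg_left hβ (by positivity)
        _ = N / Real.log N ^ A / 2 := by ring
    have h6 : (N : ℝ) / z ≤ N / Real.log N ^ A / 2 := by
      rw [div_div]
      apply div_le_div_of_nonneg_left hN0.le (by positivity)
      linarith
    linarith
  · intro m hm
    rw [mem_filter, mem_Icc] at hm
    exact (sp_mul_rp z m (by omega)).symm
  · intro m _
    exact coprime_sp_rp z m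
  · intro m _
    exact sp_pos z m
  · intro m hm
    rw [mem_filter] at hm
    rw [← hY]
    exact hm.2.1
  · intro m hm
    rw [mem_filter, mem_Icc] at hm
    rw [Nat.squarefree_iff_prime_squarefree]
    intro p hp hd
    apply hm.2.2
    refine ⟨p, hp, lt_of_dvd_rp hp ((dvd_mul_right p p).trans hd), ?_⟩
    rw [pow_two]
    exact hd.trans (hrd m (by omega))
  · intro m _ p hp hd
    rw [← hzd]
    exact lt_of_dvd_rp hp hd
  · intro m hm
    rw [mem_filter, mem_Icc] at hm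
    have h1 : (rp z m : ℝ) ≤ N := by exact_mod_cast (hsub' m hm.1.1).trans hm.1.2
    refine h1.trans ?_
    calc (N : ℝ) = Real.exp (Real.log N) := hexpL.symm
      _ ≤ Real.exp ((1 + η) * Real.log N) := by
        apply Real.exp_le_exp.2
        nlinarith
  · intro p hp
    rw [pow_zero, mul_one]
    refine le_trans ?_ (card_dvd N p)
    apply mul_le_mul_of_nonneg_right _ (Nat.cast_nonneg _)
    have : (((Icc 1 N).filter (fun m => (sp z m : ℝ) ≤ Y ∧ ¬ ∃ p : ℕ, p.Prime ∧ z < p ∧ p ^ 2 ∣ m)).filter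
        (fun m => p ∣ rp z m)) ⊆ (Icc 1 N).filter (fun m => p ∣ m) := by
      intro m hm
      rw [mem_filter, mem_filter] at hm
      rw [mem_filter]
      refine ⟨hm.1.1, hm.2.trans (hrd m ?_)⟩
      exact (mem_Icc.1 hm.1.1).1
    exact_mod_cast card_le_card this
  · intro p q hp hq hpq
    rw [pow_zero, mul_one]
    have h9 := card_dvd N (p * q)
    push_cast at h9
    refine le_trans ?_ h9
    apply mul_le_mul_of_nonneg_right _ (by positivity)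
    have : (((Icc 1 N).filter (fun m => (sp z m : ℝ) ≤ Y ∧ ¬ ∃ p : ℕ, p.Prime ∧ z < p ∧ p ^ 2 ∣ m)).filter
        (fun m => p ∣ rp z m ∧ q ∣ rp z m)) ⊆ (Icc 1 N).filter (fun m => p * q ∣ m) := by
      intro m hm
      rw [mem_filter, mem_filter] at hm
      rw [mem_filter]
      refine ⟨hm.1.1, ?_⟩
      have h1 := hrd m (mem_Icc.1 hm.1.1).1
      exact Nat.Coprime.mul_dvd_of_dvd_of_dvd ((Nat.coprime_primes hp hq).2 hpq) (hm.2.1.trans h1) (hm.2.2.trans h1)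
    exact_mod_cast card_le_card this

/-- the union over some primes -/
lemma cardU {V S : Finset ℕ} {r : ℕ → ℕ} {c : ℝ} (h : ∀ p : ℕ, p.Prime → ((V.filter (fun m => p ∣ r m)).card : ℝ) * p ≤ c)
    (hS : ∀ p ∈ S, p.Prime) :
    ((V.filter (fun m => ∃ p ∈ S, p ∣ r m)).card : ℝ) ≤ c * ∑ p ∈ S, (1 : ℝ) / p := by
  have h1 : V.filter (fun m => ∃ p ∈ S, p ∣ r m) ⊆ S.biUnion (fun p => V.filter (fun m => p ∣ r m)) := by
    intro m hm
    rw [mem_filter] at hm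
    obtain ⟨hm, p, hp, hd⟩ := hm
    rw [mem_biUnion]
    exact ⟨p, hp, mem_filter.2 ⟨hm, hd⟩⟩
  have h2 : ((V.filter (fun m => ∃ p ∈ S, p ∣ r m)).card : ℝ) ≤ ∑ p ∈ S, ((V.filter (fun m => p ∣ r m)).card : ℝ) := by
    exact_mod_cast (card_le_card h1).trans card_biUnion_le
  refine h2.trans ?_
  rw [mul_sum]
  apply sum_le_sum
  intro p hp
  have hp' := hS p hp
  have hp0 : (0 : ℝ) < p := by exact_mod_cast hp'.pos
  rw [mul_one_div, le_div_iff₀ hp0]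
  exact h p hp'

/-- the union over some pairs of primes -/
lemma cardU2 {V S S' : Finset ℕ} {r : ℕ → ℕ} {c : ℝ} (hc : 0 ≤ c) (h : ∀ p q : ℕ, p.Prime → q.Prime → p ≠ q →
    ((V.filter (fun m => p ∣ r m ∧ q ∣ r m)).card : ℝ) * (p * q) ≤ c)
    (hS : ∀ p ∈ S, p.Prime) (hS' : ∀ p ∈ S', p.Prime) :
    ((V.filter (fun m => ∃ p ∈ S, ∃ q ∈ S', p ≠ q ∧ p ∣ r m ∧ q ∣ r m)).card : ℝ) ≤
      c * ((∑ p ∈ S, (1 : ℝ) / p) * ∑ p ∈ S', (1 : ℝ) / p) := by
  have h1 : V.filter (fun m => ∃ p ∈ S, ∃ q ∈ S', p ≠ q ∧ p ∣ r m ∧ q ∣ r m) ⊆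
      ((S ×ˢ S').filter (fun x => x.1 ≠ x.2)).biUnion (fun x => V.filter (fun m => x.1 ∣ r m ∧ x.2 ∣ r m)) := by
    intro m hm
    rw [mem_filter] at hm
    obtain ⟨hm, p, hp, q, hq, hpq, hd⟩ := hm
    rw [mem_biUnion]
    exact ⟨(p, q), mem_filter.2 ⟨mem_product.2 ⟨hp, hq⟩, hpq⟩, mem_filter.2 ⟨hm, hd⟩⟩
  have h2 : ((V.filter (fun m => ∃ p ∈ S, ∃ q ∈ S', p ≠ q ∧ p ∣ r m ∧ q ∣ r m)).card : ℝ) ≤
      ∑ x ∈ (S ×ˢ S').filter (fun x => x.1 ≠ x.2), ((V.filter (fun m => x.1 ∣ r m ∧ x.2 ∣ r m)).card : ℝ) := by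
    exact_mod_cast (card_le_card h1).trans card_biUnion_le
  refine h2.trans ?_
  have h3 : ∀ x ∈ (S ×ˢ S').filter (fun x => x.1 ≠ x.2), ((V.filter (fun m => x.1 ∣ r m ∧ x.2 ∣ r m)).card : ℝ) ≤
      c * ((1 : ℝ) / x.1 * (1 / x.2)) := by
    intro x hx
    rw [mem_filter, mem_product] at hx
    have hp' := hS x.1 hx.1.1
    have hq' := hS' x.2 hx.1.2
    have hp0 : (0 : ℝ) < x.1 := by exact_mod_cast hp'.pos
    have hq0 : (0 : ℝ) < x.2 := by exact_mod_cast hq'.pos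
    rw [div_mul_div_comm, one_mul, mul_one_div, le_div_iff₀ (by positivity)]
    exact h x.1 x.2 hp' hq' hx.2
  refine (sum_le_sum h3).trans ?_
  rw [← mul_sum, sum_mul_sum, ← sum_product']
  apply mul_le_mul_of_nonneg_left _ hc
  exact sum_le_sum_of_subset_of_nonneg (filter_subset _ _) (fun _ _ _ => by positivity)

end Pool.Agent.D0H71.CM
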