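import Pool.Agent.D0H71.CM.Rec

set_option autoImplicit false

/-!
Numerical facts for the compositions of multiplicative functions.
-/

namespace Pool.Agent.D0H71.CM

open Finset Classical Filter
open Pool.Agent.N733.TG

/-- `log log N` -/
noncomputable def ll (N : ℕ) : ℝ := Real.log (Real.log N)

/-- the threshold `exp (log N / (log log N) ^ B)` -/
noncomputable def zz (B N : ℕ) : ℕ := ⌊Real.exp (Real.log N / ll N ^ B)⌋₊

lemma tendsto_log_nat : Tendsto (fun N : ℕ => Real.log (N : ℝ)) atTop atTop :=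
  Real.tendsto_log_atTop.comp tendsto_natCast_atTop_atTop

lemma tendsto_ll : Tendsto ll atTop atTop := Real.tendsto_log_atTop.comp tendsto_log_nat

lemma base (B : ℕ) (R : ℝ) {ε : ℝ} (hε : 0 < ε) : ∃ N₀ : ℕ, ∀ N : ℕ, N₀ ≤ N →
    3 ≤ N ∧ R ≤ ll N ∧ 1 ≤ ll N ∧ R * ll N ^ B ≤ ε * √(Real.log N) ∧ R * Real.log (ll N) ≤ ε * ll N := by
  have h1 : Tendsto (fun x : ℝ => x ^ B * Real.exp (-x)) atTop (nhds 0) :=
    Real.tendsto_pow_mul_exp_neg_atTop_nhds_zero B
  have h2 : Tendsto (fun N : ℕ => ll N / 2) atTop atTop := tendsto_ll.atTop_div_const (by norm_num)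
  have h3 := h1.comp h2
  have h4 : ∀ᶠ N : ℕ in atTop, ((fun x : ℝ => x ^ B * Real.exp (-x)) ∘ fun N : ℕ => ll N / 2) N <
      ε / ((|R| + 1) * 2 ^ B) := h3.eventually_lt_const (by positivity)
  have h5 : ∀ᶠ N : ℕ in atTop, R ≤ ll N := tendsto_ll.eventually_ge_atTop R
  have h6 : ∀ᶠ N : ℕ in atTop, 1 ≤ ll N := tendsto_ll.eventually_ge_atTop 1
  have h7 : Tendsto (fun x : ℝ => Real.log x / x) atTop (nhds 0) := by
    have := Real.isLittleO_log_id_atTop
    exact this.tendsto_div_nhds_zero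
  have h8 : ∀ᶠ N : ℕ in atTop, ((fun x : ℝ => Real.log x / x) ∘ ll) N < ε / (|R| + 1) :=
    (h7.comp tendsto_ll).eventually_lt_const (by positivity)
  obtain ⟨N₀, hN₀⟩ := eventually_atTop.1 (h4.and (h5.and (h6.and (h8.and (eventually_ge_atTop 3)))))
  refine ⟨N₀, fun N hN => ?_⟩
  obtain ⟨g1, g2, g3, g4, g5⟩ := hN₀ N hN
  refine ⟨g5, g2, g3, ?_, ?_⟩
  · have hl : 0 < ll N := by linarith
    have hL : 0 < Real.log N := Real.log_pos (by exact_mod_cast (by omega : 1 < N))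
    have e1 : Real.exp (ll N / 2) = √(Real.log N) := by
      unfold ll
      rw [Real.sqrt_eq_rpow, Real.rpow_def_of_pos hL]
      congr 1
      ring
    simp only [Function.comp] at g1
    rw [Real.exp_neg, e1, lt_div_iff₀ (by positivity)] at g1
    have hs : 0 < √(Real.log N) := Real.sqrt_pos.2 hL
    have e2 : (ll N / 2) ^ B * (√(Real.log N))⁻¹ * ((|R| + 1) * 2 ^ B) = (|R| + 1) * ll N ^ B / √(Real.log N) := by
      rw [div_pow]
      field_simp
    rw [e2, div_lt_iff₀ hs] at g1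
    have e3 : R * ll N ^ B ≤ (|R| + 1) * ll N ^ B := by
      apply mul_le_mul_of_nonneg_right _ (by positivity)
      linarith [le_abs_self R]
    linarith
  · have hl : 0 < ll N := by linarith
    simp only [Function.comp] at g4
    rw [div_lt_div_iff₀ hl (by positivity)] at g4
    have h0 : 0 ≤ Real.log (ll N) := Real.log_nonneg g3
    have e3 : R * Real.log (ll N) ≤ Real.log (ll N) * (|R| + 1) := by
      rw [mul_comm]
      apply mul_le_mul_of_nonneg_left _ h0
      linarith [le_abs_self R]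
    linarith

/-- basic relations between `N`, `log N` and `log log N` -/
lemma rel {N : ℕ} (hN : 3 ≤ N) : 0 < Real.log N ∧ Real.exp (Real.log N) = N ∧ Real.exp (ll N) = Real.log N := by
  have hL : 0 < Real.log N := Real.log_pos (by exact_mod_cast (by omega : 1 < N))
  exact ⟨hL, Real.exp_log (by exact_mod_cast (by omega : 0 < N)), Real.exp_log hL⟩

/-- the number of the factorizations is small -/
lemma fib_num (B : ℕ) {ε : ℝ} (hε : 0 < ε) : ∃ N₀ : ℕ, ∀ N : ℕ, N₀ ≤ N → ∀ J v : ℕ, 1 ≤ J → (J : ℝ) ≤ ll N ^ B →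
    1 ≤ v → (v : ℝ) ≤ (N : ℝ) ^ 2 → ((Tp J v).card : ℝ) ≤ Real.exp (ε * Real.log N) := by
  obtain ⟨N₁, hN₁⟩ := base (B + 1) (8 * B + 8) (ε := ε / 2) (by positivity)
  refine ⟨N₁, fun N hN J v hJ1 hJ hv1 hv => ?_⟩
  obtain ⟨g1, g2, g3, g4, g5⟩ := hN₁ N hN
  obtain ⟨hL, hexpL, hexpl⟩ := rel g1
  obtain ⟨L, hLd⟩ : ∃ L, L = Real.log N := ⟨_, rfl⟩
  obtain ⟨l, hld⟩ : ∃ l, l = ll N := ⟨_, rfl⟩
  rw [← hLd] at g4 hL hexpL hexpl ⊢
  rw [← hld] at g2 g3 g4 g5 hJ hexpl
  have hl0 : 0 < l := by linarith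
  have hB0 : (0 : ℝ) ≤ B := Nat.cast_nonneg _
  have hl8 : 8 ≤ l := by linarith
  obtain ⟨y, hy⟩ : ∃ y : ℕ, y = ⌊√L⌋₊ := ⟨_, rfl⟩
  obtain ⟨k, hk⟩ : ∃ k : ℕ, k = ⌊4 * L / l⌋₊ := ⟨_, rfl⟩
  have hsq : 0 < √L := Real.sqrt_pos.2 hL
  have hy1 : (y : ℝ) ≤ √L := by rw [hy]; exact Nat.floor_le hsq.le
  have hy2 : √L < y + 1 := by rw [hy]; exact Nat.lt_floor_add_one _
  have hk1 : (k : ℝ) ≤ 4 * L / l := by rw [hk]; exact Nat.floor_le (by positivity)
  have hk2 : 4 * L / l < k + 1 := by rw [hk]; exact Nat.lt_floor_add_one _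
  have hsl : Real.log (√L) = l / 2 := by
    rw [Real.log_sqrt hL.le, ← hexpl, Real.log_exp]
  have hylog : l / 2 ≤ Real.log (y + 1 : ℝ) := by
    rw [← hsl]
    exact Real.log_le_log hsq hy2.le
  have hv0 : (0 : ℝ) < v := by exact_mod_cast hv1
  have hvL : Real.log v ≤ 2 * L := by
    have := Real.log_le_log hv0 hv
    rw [Real.log_pow] at this
    push_cast at this
    rw [hLd]
    linarith
  have hvk : v < (y + 1) ^ (k + 1) := by
    have h1 : (v : ℝ) < ((y : ℝ) + 1) ^ (k + 1) := by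
      rw [← Real.log_lt_log_iff hv0 (by positivity), Real.log_pow]
      push_cast
      have h2 : 2 * L < ((k : ℝ) + 1) * (l / 2) := by
        rw [div_lt_iff₀ hl0] at hk2
        linarith
      have h3 : ((k : ℝ) + 1) * (l / 2) ≤ ((k : ℝ) + 1) * Real.log (y + 1 : ℝ) :=
        mul_le_mul_of_nonneg_left hylog (by positivity)
      linarith
    exact_mod_cast h1
  have h1 := Tp_le (J := J) hJ1 hv1 hvk
  have h2 : ((Tp J v).card : ℝ) ≤ ((Nat.log 2 v : ℝ) + 1) ^ (y * J) * (J : ℝ) ^ k := by exact_mod_cast h1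
  refine h2.trans ?_
  have hL1 : Real.exp 8 ≤ L := by rw [← hexpl]; exact Real.exp_le_exp.2 hl8
  have he8 : (9 : ℝ) ≤ Real.exp 8 := by
    have := Real.add_one_le_exp (8 : ℝ)
    linarith
  have hL9 : 9 ≤ L := by linarith
  have hlog2 : (Nat.log 2 v : ℝ) + 1 ≤ L ^ 2 := by
    have h3 : (Nat.log 2 v : ℝ) ≤ Real.log v / Real.log 2 := by
      rw [le_div_iff₀ (Real.log_pos (by norm_num)), ← Real.log_pow]
      apply Real.log_le_log (by positivity)
      exact_mod_cast Nat.pow_log_le_self 2 (by omega)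
    have h4 : Real.log v / Real.log 2 ≤ 2 * L / (1 / 2) := by
      apply div_le_div₀ (by positivity) hvL (by norm_num)
      have := Real.log_two_gt_d9
      linarith
    nlinarith
  have h5 : ((Nat.log 2 v : ℝ) + 1) ^ (y * J) ≤ Real.exp (ε / 2 * L) := by
    calc ((Nat.log 2 v : ℝ) + 1) ^ (y * J) ≤ (L ^ 2) ^ (y * J) := pow_le_pow_left₀ (by positivity) hlog2 _
      _ = Real.exp (2 * l * (y * J)) := by
        rw [← hexpl, ← Real.exp_nat_mul, ← Real.exp_nat_mul]
        congr 1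
        push_cast
        ring
      _ ≤ Real.exp (ε / 2 * L) := by
        apply Real.exp_le_exp.2
        have h6 : (y : ℝ) * J ≤ √L * l ^ B := mul_le_mul hy1 hJ (Nat.cast_nonneg _) hsq.le
        have h7 : 2 * l * (y * J) ≤ 2 * l * (√L * l ^ B) := mul_le_mul_of_nonneg_left h6 (by positivity)
        have h8 : 2 * l ^ (B + 1) ≤ ε / 2 * √L := by
          refine le_trans ?_ g4
          apply mul_le_mul_of_nonneg_right _ (by positivity)
          linarith
        calc 2 * l * (y * J) ≤ 2 * l * (√L * l ^ B) := h7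
          _ = (2 * l ^ (B + 1)) * √L := by ring
          _ ≤ (ε / 2 * √L) * √L := mul_le_mul_of_nonneg_right h8 hsq.le
          _ = ε / 2 * L := by rw [mul_assoc, Real.mul_self_sqrt hL.le]
  have h6 : (J : ℝ) ^ k ≤ Real.exp (ε / 2 * L) := by
    have hJ0 : (0 : ℝ) < J := by exact_mod_cast hJ1
    have h7 : (J : ℝ) = Real.exp (Real.log J) := (Real.exp_log hJ0).symm
    have h8 : Real.log J ≤ B * Real.log l := by
      rw [← Real.log_pow]
      exact Real.log_le_log hJ0 hJ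
    have h9 : 0 ≤ Real.log l := Real.log_nonneg g3
    rw [h7, ← Real.exp_nat_mul]
    apply Real.exp_le_exp.2
    calc (k : ℝ) * Real.log J ≤ (4 * L / l) * (B * Real.log l) :=
          mul_le_mul hk1 h8 (Real.log_natCast_nonneg _) (by positivity)
      _ = (L / l) * (4 * B * Real.log l) := by ring
      _ ≤ (L / l) * (ε / 2 * l) := by
        apply mul_le_mul_of_nonneg_left _ (by positivity)
        refine le_trans ?_ g5
        apply mul_le_mul_of_nonneg_right _ h9
        linarith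
      _ = ε / 2 * L := by field_simp
  calc ((Nat.log 2 v : ℝ) + 1) ^ (y * J) * (J : ℝ) ^ k ≤ Real.exp (ε / 2 * L) * Real.exp (ε / 2 * L) :=
        mul_le_mul h5 h6 (by positivity) (Real.exp_pos _).le
    _ = Real.exp (ε * L) := by
      rw [← Real.exp_add]
      congr 1
      ring

lemma zz_le (B N : ℕ) : (zz B N : ℝ) ≤ Real.exp (Real.log N / ll N ^ B) := Nat.floor_le (Real.exp_pos _).le

lemma lt_zz (B N : ℕ) : Real.exp (Real.log N / ll N ^ B) < (zz B N : ℝ) + 1 := Nat.lt_floor_add_one _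

/-- the threshold is larger than every power of `log N` -/
lemma zz_big (B A : ℕ) (R : ℝ) : ∃ N₀ : ℕ, ∀ N : ℕ, N₀ ≤ N →
    R * Real.log N ^ A ≤ zz B N := by
  obtain ⟨N₁, hN₁⟩ := base (B + 1) (A + |R| + 2) (ε := 1) one_pos
  refine ⟨N₁, fun N hN => ?_⟩
  obtain ⟨g1, g2, g3, g4, g5⟩ := hN₁ N hN
  obtain ⟨hL, hexpL, hexpl⟩ := rel g1
  have hlt := lt_zz B N
  obtain ⟨L, hLd⟩ : ∃ L, L = Real.log N := ⟨_, rfl⟩
  obtain ⟨l, hld⟩ : ∃ l, l = ll N := ⟨_, rfl⟩
  rw [← hLd] at g4 hL hexpL hexpl hlt ⊢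
  rw [← hld] at g2 g3 g4 g5 hexpl hlt
  have hl0 : 0 < l := by linarith
  have hR0 := abs_nonneg R
  have hA0 : (0 : ℝ) ≤ A := Nat.cast_nonneg _
  have h1 : (A + |R| + 2) * l ≤ L / l ^ B := by
    rw [le_div_iff₀ (by positivity)]
    have h2 : √L ≤ L := by
      rw [Real.sqrt_le_left hL.le]
      have : 1 ≤ L := by
        rw [← hexpl]
        exact Real.one_le_exp (by linarith)
      nlinarith
    calc (A + |R| + 2) * l * l ^ B = (A + |R| + 2) * l ^ (B + 1) := by ring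
      _ ≤ 1 * √L := g4
      _ ≤ L := by linarith
  have h3 : Real.exp ((A + |R| + 2) * l) ≤ Real.exp (L / l ^ B) := Real.exp_le_exp.2 h1
  have h4 : R * L ^ A + 1 ≤ Real.exp ((A + |R| + 2) * l) := by
    have e1 : Real.exp ((A + |R| + 2) * l) = L ^ A * Real.exp (|R| * l) * Real.exp (2 * l) := by
      rw [← hexpl, ← Real.exp_nat_mul, ← Real.exp_add, ← Real.exp_add]
      congr 1
      ring
    have hL1 : 1 ≤ L := by
      rw [← hexpl]
      exact Real.one_le_exp (by linarith)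
    have e2 : 1 ≤ L ^ A := one_le_pow₀ hL1
    have e3 : |R| ≤ Real.exp (|R| * l) := by
      have := Real.add_one_le_exp (|R| * l)
      nlinarith
    have e4 : 2 ≤ Real.exp (2 * l) := by
      have := Real.add_one_le_exp (2 * l)
      linarith
    have e5 : 1 ≤ Real.exp (|R| * l) := Real.one_le_exp (by positivity)
    have e6 : R ≤ Real.exp (|R| * l) := (le_abs_self R).trans e3
    rw [e1]
    have e7 : R * L ^ A ≤ L ^ A * Real.exp (|R| * l) := by
      rw [mul_comm]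
      exact mul_le_mul_of_nonneg_left e6 (by positivity)
    have e8 : 1 ≤ L ^ A * Real.exp (|R| * l) := one_le_mul_of_one_le_of_one_le e2 e5
    nlinarith
  linarith

/-- the bad primes are rare -/
lemma br_num (B A : ℕ) {κ M C : ℝ} (hκ : 0 < κ) (hM : 0 ≤ M) (hC : 0 < C) : ∃ N₀ : ℕ, ∀ N : ℕ, N₀ ≤ N →
    ∀ lg : ℝ, 0 ≤ lg → lg ≤ 3 * Real.log N → ∃ β : ℝ, 0 ≤ β ∧ β ≤ 1 / 4 ∧
      M * (lg * Real.exp (κ * (Real.log N / ll N ^ B)) ^ (-β) * (C * Real.log (zz (B + 2) N) *
        Real.exp (4 * β * (zz (B + 2) N : ℝ) ^ β * (Real.log (zz (B + 2) N) + C)))) ≤ 1 / Real.log N ^ A := by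
  obtain ⟨R, hR⟩ : ∃ R : ℝ, R = 3 * M * C * Real.exp (4 * Real.exp 1 * (1 + C)) := ⟨_, rfl⟩
  obtain ⟨N₁, hN₁⟩ := base (B + 2) (4 + R + (A + 3) / κ) (ε := 1) one_pos
  obtain ⟨N₂, hN₂⟩ := zz_big (B + 2) 0 2
  refine ⟨max N₁ N₂, fun N hN lg hlg0 hlg => ?_⟩
  obtain ⟨g1, g2, g3, g4, g5⟩ := hN₁ N ((le_max_left _ _).trans hN)
  have hz2 := hN₂ N ((le_max_right _ _).trans hN)
  obtain ⟨hL, hexpL, hexpl⟩ := rel g1
  have hzle := zz_le (B + 2) N
  obtain ⟨z, hz⟩ : ∃ z, z = zz (B + 2) N := ⟨_, rfl⟩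
  obtain ⟨L, hLd⟩ : ∃ L, L = Real.log N := ⟨_, rfl⟩
  obtain ⟨l, hld⟩ : ∃ l, l = ll N := ⟨_, rfl⟩
  rw [← hz] at hz2 hzle ⊢
  rw [← hLd] at g4 hL hexpL hexpl hlg hzle ⊢
  rw [← hld] at g2 g3 g4 g5 hexpl hzle ⊢
  rw [pow_zero, mul_one] at hz2
  have hl0 : 0 < l := by linarith
  have hR0 : 0 ≤ R := by rw [hR]; positivity
  have hA0 : (0 : ℝ) ≤ A := Nat.cast_nonneg _
  have hAκ : 0 ≤ (A + 3) / κ := by positivity
  have hL1 : 1 ≤ L := by
    rw [← hexpl]
    exact Real.one_le_exp (by linarith)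
  have hsL : √L ≤ L := by
    rw [Real.sqrt_le_left hL.le]
    nlinarith
  have hz0 : (0 : ℝ) < z := by linarith
  have hlogz : Real.log z ≤ L / l ^ (B + 2) := by
    have := Real.log_le_log hz0 hzle
    rwa [Real.log_exp] at this
  have hlogz0 : 0 ≤ Real.log z := Real.log_nonneg (by linarith)
  refine ⟨l ^ (B + 2) / L, by positivity, ?_, ?_⟩
  · rw [div_le_iff₀ hL]
    have h1 : 4 * l ^ (B + 2) ≤ 1 * √L := by
      refine le_trans ?_ g4
      apply mul_le_mul_of_nonneg_right _ (by positivity)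
      linarith
    linarith
  · obtain ⟨β, hβ⟩ : ∃ β : ℝ, β = l ^ (B + 2) / L := ⟨_, rfl⟩
    rw [← hβ]
    have hβ0 : 0 ≤ β := by rw [hβ]; positivity
    have hβ1 : β ≤ 1 / 4 := by
      rw [hβ, div_le_iff₀ hL]
      have h1 : 4 * l ^ (B + 2) ≤ 1 * √L := by
        refine le_trans ?_ g4
        apply mul_le_mul_of_nonneg_right _ (by positivity)
        linarith
      linarith
    have hβL : β * (L / l ^ (B + 2)) = 1 := by rw [hβ]; field_simp
    have e1 : Real.exp (κ * (L / l ^ B)) ^ (-β) = Real.exp (-(κ * l ^ 2)) := by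
      rw [← Real.exp_mul]
      congr 1
      rw [hβ, pow_add]
      field_simp
    have e2 : (z : ℝ) ^ β ≤ Real.exp 1 := by
      calc (z : ℝ) ^ β ≤ (Real.exp (L / l ^ (B + 2))) ^ β := Real.rpow_le_rpow hz0.le hzle hβ0
        _ = Real.exp 1 := by rw [← Real.exp_mul, mul_comm, hβL]
    have e3 : β * (Real.log z + C) ≤ 1 + C := by
      have h1 : β * Real.log z ≤ 1 := by
        rw [← hβL]
        exact mul_le_mul_of_nonneg_left hlogz hβ0
      nlinarith
    have e4 : Real.exp (4 * β * (z : ℝ) ^ β * (Real.log z + C)) ≤ Real.exp (4 * Real.exp 1 * (1 + C)) := by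
      apply Real.exp_le_exp.2
      have h1 : 4 * β * (z : ℝ) ^ β * (Real.log z + C) = (4 * (z : ℝ) ^ β) * (β * (Real.log z + C)) := by ring
      rw [h1]
      apply mul_le_mul _ e3 (by positivity) (by positivity)
      linarith
    have e5 : Real.log z ≤ L := by
      refine hlogz.trans (div_le_self hL.le (one_le_pow₀ g3))
    have e6 : C * Real.log z * Real.exp (4 * β * (z : ℝ) ^ β * (Real.log z + C)) ≤
        C * L * Real.exp (4 * Real.exp 1 * (1 + C)) := by
      apply mul_le_mul _ e4 (Real.exp_pos _).le (by positivity)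
      exact mul_le_mul_of_nonneg_left e5 hC.le
    rw [e1]
    calc M * (lg * Real.exp (-(κ * l ^ 2)) * (C * Real.log z * Real.exp (4 * β * (z : ℝ) ^ β * (Real.log z + C))))
        ≤ M * ((3 * L) * Real.exp (-(κ * l ^ 2)) * (C * L * Real.exp (4 * Real.exp 1 * (1 + C)))) := by
          apply mul_le_mul_of_nonneg_left _ hM
          apply mul_le_mul _ e6 (by positivity) (by positivity)
          exact mul_le_mul_of_nonneg_right hlg (Real.exp_pos _).le
      _ = R * L ^ 2 * Real.exp (-(κ * l ^ 2)) := by rw [hR]; ring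
      _ ≤ 1 / L ^ A := by
        rw [le_div_iff₀ (by positivity)]
        have h1 : R ≤ L := by
          have := Real.add_one_le_exp l
          rw [hexpl] at this
          linarith
        have h2 : R * L ^ 2 * L ^ A ≤ Real.exp ((A + 3) * l) := by
          have : Real.exp ((A + 3) * l) = L * L ^ 2 * L ^ A := by
            rw [← hexpl, ← Real.exp_nat_mul, ← Real.exp_nat_mul, ← Real.exp_add, ← Real.exp_add]
            congr 1
            push_cast
            ring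
          rw [this]
          gcongr
        have h3 : (A + 3) * l ≤ κ * l ^ 2 := by
          have h4 : (A + 3) / κ ≤ l := by linarith
          rw [div_le_iff₀ hκ] at h4
          nlinarith
        calc R * L ^ 2 * Real.exp (-(κ * l ^ 2)) * L ^ A = (R * L ^ 2 * L ^ A) * Real.exp (-(κ * l ^ 2)) := by ring
          _ ≤ Real.exp (κ * l ^ 2) * Real.exp (-(κ * l ^ 2)) := by
            apply mul_le_mul_of_nonneg_right _ (Real.exp_pos _).le
            exact h2.trans (Real.exp_le_exp.2 h3)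
          _ = 1 := by rw [← Real.exp_add, add_neg_cancel, Real.exp_zero]

end Pool.Agent.D0H71.CM
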