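import Pool.Agent.D0H71.CM.Fib

set_option autoImplicit false

/-!
Sums of the reciprocals of the integers with a given divisor, or with a large smooth part, and the corresponding sums over
primes.
-/

namespace Pool.Agent.D0H71.CM

open Finset Classical
open Pool.Agent.N733.TG

lemma harm (Y : ℕ) : ∑ w ∈ Icc 1 Y, (1 : ℝ) / w ≤ 1 + Real.log Y := by
  have h := harmonic_le_one_add_log Y
  refine le_trans (le_of_eq ?_) h
  rw [harmonic_eq_sum_Icc]
  push_cast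
  simp

lemma log_nn (Y : ℕ) : 0 ≤ Real.log Y := Real.log_natCast_nonneg Y

lemma sum_biU {ι : Type*} (F : Finset ι) (G : ι → Finset ℕ) (w : ℕ → ℝ) (hw : ∀ v, 0 ≤ w v) :
    ∑ v ∈ F.biUnion G, w v ≤ ∑ d ∈ F, ∑ v ∈ G d, w v := by
  induction F using Finset.induction_on with
  | empty => simp
  | insert a s ha ih =>
    rw [biUnion_insert, sum_insert ha]
    have h1 : ∑ v ∈ G a ∪ s.biUnion G, w v ≤ ∑ v ∈ G a, w v + ∑ v ∈ s.biUnion G, w v := by
      rw [← sum_union_inter]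
      have : 0 ≤ ∑ v ∈ G a ∩ s.biUnion G, w v := sum_nonneg fun v _ => hw v
      linarith
    linarith

/-- multiples of `d` -/
lemma rec_dvd {d Y : ℕ} (hd : 1 ≤ d) :
    ∑ v ∈ (Icc 1 Y).filter (fun v => d ∣ v), (1 : ℝ) / v ≤ (1 + Real.log Y) / d := by
  have hd0 : (0 : ℝ) < d := by exact_mod_cast hd
  have hsub : (Icc 1 Y).filter (fun v => d ∣ v) ⊆ (Icc 1 Y).image (fun w => d * w) := by
    intro v hv
    rw [mem_filter, mem_Icc] at hv
    obtain ⟨⟨h1, h2⟩, w, rfl⟩ := hv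
    rw [mem_image]
    refine ⟨w, ?_, rfl⟩
    rw [mem_Icc]
    constructor
    · rcases Nat.eq_zero_or_pos w with h | h
      · rw [h, mul_zero] at h1; omega
      · exact h
    · exact (Nat.le_mul_of_pos_left w hd).trans h2
  calc ∑ v ∈ (Icc 1 Y).filter (fun v => d ∣ v), (1 : ℝ) / v
      ≤ ∑ v ∈ (Icc 1 Y).image (fun w => d * w), (1 : ℝ) / v :=
        sum_le_sum_of_subset_of_nonneg hsub (fun _ _ _ => by positivity)
    _ = ∑ w ∈ Icc 1 Y, (1 : ℝ) / ((d * w : ℕ) : ℝ) := by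
        rw [sum_image]
        intro a _ b _ hab
        exact Nat.eq_of_mul_eq_mul_left hd hab
    _ = (∑ w ∈ Icc 1 Y, (1 : ℝ) / w) / d := by
        rw [sum_div]
        apply sum_congr rfl
        intro w _
        push_cast
        rw [div_div, mul_comm]
    _ ≤ (1 + Real.log Y) / d := div_le_div_of_nonneg_right (harm Y) hd0.le

/-- integers with a large smooth part (Rankin's method) -/
theorem rec_smooth : ∃ C : ℝ, 0 < C ∧ ∀ (β : ℝ) (z Y : ℕ) (T : ℝ), 0 ≤ β → β ≤ 1 / 4 → 2 ≤ z → 0 < T →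
    ∑ v ∈ (Icc 1 Y).filter (fun v => T < (sp z v : ℝ)), (1 : ℝ) / v ≤
      (1 + Real.log Y) * T ^ (-β) * (C * Real.log z * Real.exp (4 * β * (z : ℝ) ^ β * (Real.log z + C))) := by
  obtain ⟨C, hC, h⟩ := Pool.Agent.H398R2.RK.euler_le
  refine ⟨C, hC, fun β z N Y hβ0 hβ1 hz hY => ?_⟩
  have h1 := h β z hβ0 hβ1 hz
  have h2 := Pool.Agent.H398R2.RK.smooth_tsum (σ := 1 - β) (by linarith) z N
  obtain ⟨F, hF⟩ : ∃ F : Finset ℕ, F = ((Icc 1 N).filter (fun n => ∀ p : ℕ, p.Prime → p ∣ n → p ≤ z)).filter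
    (fun d : ℕ => Y < (d : ℝ)) := ⟨_, rfl⟩
  have hsub : (Icc 1 N).filter (fun m => Y < (sp z m : ℝ)) ⊆
      F.biUnion (fun d => (Icc 1 N).filter (fun m => d ∣ m)) := by
    intro m hm
    rw [mem_filter, mem_Icc] at hm
    rw [mem_biUnion]
    have hmul := sp_mul_rp z m (by omega)
    have hk1 := sp_pos z m
    have hu1 := rp_pos z m
    have hdvd : sp z m ∣ m := ⟨rp z m, hmul.symm⟩
    have hle : sp z m ≤ m := Nat.le_of_dvd (by omega) hdvd
    refine ⟨sp z m, ?_, ?_⟩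
    · rw [hF, mem_filter, mem_filter, mem_Icc]
      exact ⟨⟨⟨hk1, hle.trans hm.1.2⟩, fun p hp hd => le_of_dvd_sp hp hd⟩, hm.2⟩
    · rw [mem_filter, mem_Icc]
      exact ⟨hm.1, hdvd⟩
  have h3 : ∑ v ∈ (Icc 1 N).filter (fun v => Y < (sp z v : ℝ)), (1 : ℝ) / v ≤
      ∑ d ∈ F, (1 + Real.log N) * Y ^ (-β) * (d : ℝ) ^ (-(1 - β)) := by
    have h4 : ∑ v ∈ (Icc 1 N).filter (fun v => Y < (sp z v : ℝ)), (1 : ℝ) / v ≤
        ∑ d ∈ F, ∑ v ∈ (Icc 1 N).filter (fun m => d ∣ m), (1 : ℝ) / v := by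
      refine (sum_le_sum_of_subset_of_nonneg hsub (fun _ _ _ => by positivity)).trans ?_
      exact sum_biU F _ (fun v : ℕ => (1 : ℝ) / v) (fun _ => by positivity)
    refine h4.trans (sum_le_sum fun d hd => ?_)
    rw [hF, mem_filter, mem_filter, mem_Icc] at hd
    have hd0 : (0 : ℝ) < d := by exact_mod_cast (by omega : 0 < d)
    refine (rec_dvd (Y := N) hd.1.1.1).trans ?_
    have h6 : (1 + Real.log N) / d = (1 + Real.log N) * (d : ℝ) ^ (-β) * (d : ℝ) ^ (-(1 - β)) := by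
      rw [mul_assoc, ← Real.rpow_add hd0, show -β + -(1 - β) = (-1 : ℝ) by ring, Real.rpow_neg_one, div_eq_mul_inv]
    have h7 : (d : ℝ) ^ (-β) ≤ Y ^ (-β) := Real.rpow_le_rpow_of_nonpos hY hd.2.le (by linarith)
    have h8 : 0 ≤ 1 + Real.log N := by linarith [log_nn N]
    rw [h6]
    gcongr
  refine h3.trans ?_
  rw [← mul_sum]
  have h8 : ∑ d ∈ F, (d : ℝ) ^ (-(1 - β)) ≤
      ∑ n ∈ (Icc 1 N).filter (fun n => ∀ p : ℕ, p.Prime → p ∣ n → p ≤ z), (n : ℝ) ^ (-(1 - β)) := by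
    rw [hF]
    apply sum_le_sum_of_subset_of_nonneg (filter_subset _ _)
    intro n _ _
    positivity
  have h9 : ∑ n ∈ (Icc 1 N).filter (fun n => ∀ p : ℕ, p.Prime → p ∣ n → p ≤ z), (n : ℝ) ^ (-(1 - β)) ≤
      C * Real.log z * Real.exp (4 * β * (z : ℝ) ^ β * (Real.log z + C)) := by
    refine le_trans (le_of_eq ?_) (h2.trans h1)
    congr!
  have h10 : 0 ≤ 1 + Real.log N := by linarith [log_nn N]
  exact mul_le_mul_of_nonneg_left (h8.trans h9) (by positivity)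

/-- the squares -/
lemma rec_sq {z Y : ℕ} (hz : 1 ≤ z) : ∑ q ∈ Ioc z Y, (1 : ℝ) / (q : ℝ) ^ 2 ≤ 1 / z := by
  rcases Nat.lt_or_ge Y z with h | h
  · rw [Ioc_eq_empty_of_le h.le, sum_empty]
    positivity
  have h2 : ∀ p ∈ Ioc z Y, (1 : ℝ) / (p : ℝ) ^ 2 ≤ (1 : ℝ) / (p - 1 : ℝ) - 1 / p := by
    intro p hp
    rw [mem_Ioc] at hp
    have hp1 : (1 : ℝ) < p := by exact_mod_cast (by omega : 1 < p)
    rw [div_sub_div _ _ (by linarith) (by linarith), div_le_div_iff₀ (by positivity) (mul_pos (by linarith) (by linarith))]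
    nlinarith
  refine (sum_le_sum h2).trans ?_
  rw [tele z Y hz h]
  have : (0 : ℝ) ≤ 1 / (Y : ℝ) := by positivity
  linarith

/-- the large primes up to `X` -/
def PP (z X : ℕ) : Finset ℕ := (Icc 1 X).filter (fun p => p.Prime ∧ z < p)

lemma mem_PP {z X p : ℕ} : p ∈ PP z X ↔ p ≤ X ∧ p.Prime ∧ z < p := by
  unfold PP
  rw [mem_filter, mem_Icc]
  constructor
  · rintro ⟨⟨_, h1⟩, h2, h3⟩
    exact ⟨h1, h2, h3⟩
  · rintro ⟨h1, h2, h3⟩
    exact ⟨⟨h2.pos, h1⟩, h2, h3⟩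

/-- from primes to their values -/
lemma rec_val {f : ℕ → ℕ} (hf : LM f) {P M : ℕ}
    (hP : ∀ p : ℕ, P ≤ p → p.Prime → f p ≤ M * p ∧ ∀ q : ℕ, P ≤ q → q.Prime → f q = f p → q = p)
    {z X : ℕ} (hz : P ≤ z) (Q : ℕ → Prop) :
    ∑ p ∈ (PP z X).filter (fun p => Q (f p)), (1 : ℝ) / p ≤
      M * ∑ v ∈ (Icc 1 (M * X)).filter (fun v => Q v), (1 : ℝ) / v := by
  have h1 : ∀ p ∈ (PP z X).filter (fun p => Q (f p)), (1 : ℝ) / p ≤ M * (1 / (f p : ℝ)) := by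
    intro p hp
    rw [mem_filter, mem_PP] at hp
    obtain ⟨⟨h1, h2, h3⟩, h4⟩ := hp
    have h5 := (hP p (by omega) h2).1
    have h6 := hf.pos p h2.pos
    have h7 : (0 : ℝ) < p := by exact_mod_cast h2.pos
    have h8 : (0 : ℝ) < f p := by exact_mod_cast h6
    rw [mul_one_div, div_le_div_iff₀ h7 h8, one_mul]
    exact_mod_cast h5
  refine (sum_le_sum h1).trans ?_
  rw [← mul_sum]
  apply mul_le_mul_of_nonneg_left _ (Nat.cast_nonneg _)
  have h2 : ∑ p ∈ (PP z X).filter (fun p => Q (f p)), (1 : ℝ) / (f p : ℝ) =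
      ∑ v ∈ ((PP z X).filter (fun p => Q (f p))).image f, (1 : ℝ) / v := by
    rw [sum_image]
    intro p hp q hq hpq
    rw [mem_coe, mem_filter, mem_PP] at hp hq
    exact (hP q (by omega) hq.1.2.1).2 p (by omega) hp.1.2.1 hpq
  rw [h2]
  apply sum_le_sum_of_subset_of_nonneg
  · intro v hv
    rw [mem_image] at hv
    obtain ⟨p, hp, rfl⟩ := hv
    rw [mem_filter, mem_PP] at hp
    rw [mem_filter, mem_Icc]
    refine ⟨⟨hf.pos p hp.1.2.1.pos, ?_⟩, hp.2⟩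
    exact ((hP p (by omega) hp.1.2.1).1).trans (Nat.mul_le_mul_left _ hp.1.1)
  · intro _ _ _
    positivity

/-- primes with `d ∣ f p` -/
lemma rec_prime {f : ℕ → ℕ} (hf : LM f) {P M : ℕ}
    (hP : ∀ p : ℕ, P ≤ p → p.Prime → f p ≤ M * p ∧ ∀ q : ℕ, P ≤ q → q.Prime → f q = f p → q = p)
    {z X d : ℕ} (hz : P ≤ z) (hd : 1 ≤ d) :
    ∑ p ∈ (PP z X).filter (fun p => d ∣ f p), (1 : ℝ) / p ≤ M * (1 + Real.log ((M * X : ℕ) : ℝ)) / d := by
  have h1 := rec_val hf hP (X := X) hz (fun v => d ∣ v)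
  refine (le_of_eq (sum_congr (by ext p; simp only [mem_filter]) fun _ _ => rfl)).trans (h1.trans ?_)
  rw [mul_div_assoc]
  exact mul_le_mul_of_nonneg_left ((le_of_eq (sum_congr (by ext p; simp only [mem_filter]) fun _ _ => rfl)).trans
    (rec_dvd hd)) (Nat.cast_nonneg _)

end Pool.Agent.D0H71.CM
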