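import Pool.Agent.D0H71.CM.Good

set_option autoImplicit false

/-!
The decomposition of the value of a multiplicative function at a decomposed number.
-/

namespace Pool.Agent.D0H71.CM

open Finset Classical
open Pool.Agent.N733.TG

lemma sqf_prod {S : Finset ℕ} {b : ℕ → ℕ} (h1 : ∀ p ∈ S, Squarefree (b p))
    (h2 : ∀ p ∈ S, ∀ q ∈ S, p ≠ q → Nat.Coprime (b p) (b q)) : Squarefree (∏ p ∈ S, b p) := by
  induction S using Finset.induction_on with
  | empty => simp
  | insert a s ha ih =>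
    rw [prod_insert ha, Nat.squarefree_mul]
    · exact ⟨h1 a (mem_insert_self _ _), ih (fun p hp => h1 p (mem_insert_of_mem hp))
        (fun p hp q hq => h2 p (mem_insert_of_mem hp) q (mem_insert_of_mem hq))⟩
    · apply Nat.Coprime.prod_right
      intro p hp
      apply h2 a (mem_insert_self _ _) p (mem_insert_of_mem hp)
      rintro rfl
      exact ha hp

/-- the product of the rough parts of the `f p` -/
noncomputable def RR (f : ℕ → ℕ) (z r : ℕ) : ℕ := ∏ p ∈ r.primeFactors, rp z (f p)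

/-- the product of the smooth parts of the `f p` -/
noncomputable def AA (f : ℕ → ℕ) (z r : ℕ) : ℕ := ∏ p ∈ r.primeFactors, sp z (f p)

/-- the new rough part -/
noncomputable def nr (f : ℕ → ℕ) (z s r : ℕ) : ℕ := ∏ q ∈ (RR f z r).primeFactors.filter (fun q => ¬ q ∣ f s), q

/-- the common prime factors -/
noncomputable def tt (f : ℕ → ℕ) (z s r : ℕ) : ℕ := ∏ q ∈ (RR f z r).primeFactors.filter (fun q => q ∣ f s), q

/-- the new small part -/
noncomputable def ns (f : ℕ → ℕ) (z s r : ℕ) : ℕ := f s * AA f z r * tt f z s r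

section

variable {f : ℕ → ℕ} (hf : LM f) {z s r : ℕ} (hs : 1 ≤ s) (hcop : Nat.Coprime s r) (hr : Squarefree r)
  (h1 : ∀ p ∈ r.primeFactors, ∀ q : ℕ, q.Prime → z < q → ¬ q ^ 2 ∣ f p)
  (h2 : ∀ p ∈ r.primeFactors, ∀ p' ∈ r.primeFactors, p ≠ p' → ∀ q : ℕ, q.Prime → z < q → ¬ (q ∣ f p ∧ q ∣ f p'))

include hf in
lemma fpos {p : ℕ} (hp : p ∈ r.primeFactors) : 1 ≤ f p := hf.pos p (Nat.prime_of_mem_primeFactors hp).pos

include hf in
lemma rp_dvd {p : ℕ} (hp : p ∈ r.primeFactors) : rp z (f p) ∣ f p :=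
  ⟨sp z (f p), by rw [mul_comm]; exact (sp_mul_rp z (f p) (by have := fpos hf hp; omega)).symm⟩

include hf h1 h2 in
lemma RR_sqf : Squarefree (RR f z r) := by
  unfold RR
  apply sqf_prod
  · intro p hp
    rw [Nat.squarefree_iff_prime_squarefree]
    intro q hq hd
    apply h1 p hp q hq (lt_of_dvd_rp hq ((dvd_mul_right q q).trans hd))
    rw [pow_two]
    exact hd.trans (rp_dvd hf hp)
  · intro p hp p' hp' hne
    rw [Nat.coprime_iff_gcd_eq_one]
    by_contra hcon
    obtain ⟨q, hq, hd⟩ := Nat.exists_prime_and_dvd hcon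
    have e1 := hd.trans (Nat.gcd_dvd_left _ _)
    have e2 := hd.trans (Nat.gcd_dvd_right _ _)
    exact h2 p hp p' hp' hne q hq (lt_of_dvd_rp hq e1) ⟨e1.trans (rp_dvd hf hp), e2.trans (rp_dvd hf hp')⟩

include hf h1 h2 in
lemma RR_eq : RR f z r = tt f z s r * nr f z s r := by
  rw [← Nat.prod_primeFactors_of_squarefree (RR_sqf hf h1 h2)]
  unfold tt nr
  rw [prod_filter_mul_prod_filter_not]

include hf hcop hr in
lemma f_eq : f (s * r) = f s * (AA f z r * RR f z r) := by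
  rw [hf.mul _ _ hcop, hf.sqf hr]
  congr 1
  unfold AA RR
  rw [← prod_mul_distrib]
  apply prod_congr rfl
  intro p hp
  exact (sp_mul_rp z (f p) (by have := fpos hf hp; omega)).symm

include hf hcop hr h1 h2 in
lemma c_eq : f (s * r) = ns f z s r * nr f z s r := by
  rw [f_eq hf (z := z) hcop hr, RR_eq hf (s := s) h1 h2]
  unfold ns
  ring

lemma dvd_RR {q : ℕ} (hq : q.Prime) (hd : q ∣ RR f z r) : ∃ p ∈ r.primeFactors, q ∣ rp z (f p) := by
  unfold RR at hd
  obtain ⟨p, hp, h⟩ := (Prime.dvd_finsetProd_iff hq.prime _).1 hd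
  exact ⟨p, hp, h⟩

lemma of_dvd_nr {q : ℕ} (hq : q.Prime) (hd : q ∣ nr f z s r) : q ∣ RR f z r ∧ ¬ q ∣ f s := by
  unfold nr at hd
  obtain ⟨q', hq', h⟩ := (Prime.dvd_finsetProd_iff hq.prime _).1 hd
  rw [mem_filter] at hq'
  have hq'' := Nat.prime_of_mem_primeFactors hq'.1
  rw [Nat.prime_dvd_prime_iff_eq hq hq''] at h
  rw [h]
  exact ⟨Nat.dvd_of_mem_primeFactors hq'.1, hq'.2⟩

lemma c_rough : Rough z (nr f z s r) := by
  intro q hq hd
  obtain ⟨p, _, h⟩ := dvd_RR hq (of_dvd_nr hq hd).1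
  exact lt_of_dvd_rp hq h

include hf in
lemma c_val {q : ℕ} (hq : q.Prime) (hd : q ∣ nr f z s r) : z < q ∧ ∃ p ∈ r.primeFactors, q ∣ f p := by
  obtain ⟨p, hp, h⟩ := dvd_RR hq (of_dvd_nr hq hd).1
  exact ⟨lt_of_dvd_rp hq h, p, hp, h.trans (rp_dvd hf hp)⟩

lemma c_sqf : Squarefree (nr f z s r) := by
  unfold nr
  apply sqf_prod
  · intro p hp
    exact (Nat.prime_of_mem_primeFactors (mem_filter.1 hp).1).squarefree
  · intro p hp q hq hpq
    exact (Nat.coprime_primes (Nat.prime_of_mem_primeFactors (mem_filter.1 hp).1)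
      (Nat.prime_of_mem_primeFactors (mem_filter.1 hq).1)).2 hpq

lemma c_cop : Nat.Coprime (ns f z s r) (nr f z s r) := by
  rw [Nat.coprime_iff_gcd_eq_one]
  by_contra hcon
  obtain ⟨q, hq, hd⟩ := Nat.exists_prime_and_dvd hcon
  have e1 := hd.trans (Nat.gcd_dvd_left _ _)
  have e2 := hd.trans (Nat.gcd_dvd_right _ _)
  obtain ⟨e3, e4⟩ := of_dvd_nr hq e2
  have e5 := c_rough q hq e2
  unfold ns at e1
  rw [hq.dvd_mul, hq.dvd_mul] at e1
  rcases e1 with (e1 | e1) | e1
  · exact e4 e1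
  · unfold AA at e1
    obtain ⟨p, hp, h⟩ := (Prime.dvd_finsetProd_iff hq.prime _).1 e1
    have := le_of_dvd_sp hq h
    omega
  · unfold tt at e1
    obtain ⟨q', hq', h⟩ := (Prime.dvd_finsetProd_iff hq.prime _).1 e1
    rw [mem_filter] at hq'
    have hq'' := Nat.prime_of_mem_primeFactors hq'.1
    rw [Nat.prime_dvd_prime_iff_eq hq hq''] at h
    rw [← h] at hq'
    exact e4 hq'.2

include hf hs in
lemma tt_dvd : tt f z s r ∣ f s := by
  unfold tt
  apply Finset.prod_primes_dvd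
  · intro q hq
    exact (Nat.prime_of_mem_primeFactors (mem_filter.1 hq).1).prime
  · intro q hq
    exact (mem_filter.1 hq).2

include hf hs in
lemma c_pos : 1 ≤ ns f z s r := by
  have e1 := hf.pos s hs
  have e2 : 1 ≤ AA f z r := by
    unfold AA
    exact Finset.one_le_prod' fun p _ => sp_pos z (f p)
  have e3 : 1 ≤ tt f z s r := Nat.pos_of_dvd_of_pos (tt_dvd hf hs) e1
  unfold ns
  exact Nat.mul_pos (Nat.mul_pos e1 e2) e3

include hf hs in
lemma c_sle : ns f z s r ≤ f s ^ 2 * AA f z r := by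
  have e1 := hf.pos s hs
  have e3 : tt f z s r ≤ f s := Nat.le_of_dvd e1 (tt_dvd hf hs)
  unfold ns
  calc f s * AA f z r * tt f z s r ≤ f s * AA f z r * f s := Nat.mul_le_mul_left _ e3
    _ = f s ^ 2 * AA f z r := by ring

include hf h1 h2 in
lemma c_rle : nr f z s r ≤ ∏ p ∈ r.primeFactors, f p := by
  have e1 : nr f z s r ∣ RR f z r := ⟨tt f z s r, by rw [RR_eq hf (s := s) h1 h2, mul_comm]⟩
  have e2 : RR f z r ∣ ∏ p ∈ r.primeFactors, f p := by
    unfold RR
    exact prod_dvd_prod_of_dvd _ _ fun p hp => rp_dvd hf hp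
  apply Nat.le_of_dvd _ (e1.trans e2)
  exact Finset.prod_pos fun p hp => fpos hf hp

end

end Pool.Agent.D0H71.CM
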