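import Pool.Agent.D0H71.CM.Split

set_option autoImplicit false

/-!
The structure of the typical values is inherited by the composition with a multiplicative function.
-/

namespace Pool.Agent.D0H71.CM

open Finset Classical
open Pool.Agent.N733.TG

lemma omega_bd {B N r : ℕ} (hN : 3 ≤ N) (hl : 1 ≤ ll N) (hr : Squarefree r) (hrr : Rough (zz B N) r)
    (hle : (r : ℝ) ≤ Real.exp (2 * Real.log N)) : (r.primeFactors.card : ℝ) ≤ 2 * ll N ^ B := by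
  obtain ⟨hL, _, _⟩ := rel hN
  have hr0 : 0 < r := Nat.pos_of_ne_zero hr.ne_zero
  have h1 : Real.log r = ∑ p ∈ r.primeFactors, Real.log p := by
    conv_lhs => rw [← Nat.prod_primeFactors_of_squarefree hr]
    push_cast
    rw [Real.log_prod]
    intro p hp
    have := (Nat.prime_of_mem_primeFactors hp).pos
    positivity
  have h2 : ∀ p ∈ r.primeFactors, Real.log N / ll N ^ B ≤ Real.log p := by
    intro p hp
    have hp' := Nat.prime_of_mem_primeFactors hp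
    have h3 := hrr p hp' (Nat.dvd_of_mem_primeFactors hp)
    have h4 := lt_zz B N
    have h5 : (zz B N : ℝ) + 1 ≤ p := by exact_mod_cast h3
    have h6 : Real.exp (Real.log N / ll N ^ B) ≤ p := by linarith
    have := Real.log_le_log (Real.exp_pos _) h6
    rwa [Real.log_exp] at this
  have h3 := card_nsmul_le_sum r.primeFactors (fun p : ℕ => Real.log (p : ℝ)) _ h2
  rw [← h1, nsmul_eq_mul] at h3
  have h4 : Real.log r ≤ 2 * Real.log N := by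
    have := Real.log_le_log (by exact_mod_cast hr0) hle
    rwa [Real.log_exp] at this
  have h5 := h3.trans h4
  have hlB : 0 < ll N ^ B := by positivity
  rw [← mul_div_assoc, div_le_iff₀ hlB] at h5
  have h6 : (r.primeFactors.card : ℝ) * Real.log N ≤ (2 * ll N ^ B) * Real.log N := by linarith
  exact le_of_mul_le_mul_right h6 hL

/-- some prime of `S` divides `r m` -/
noncomputable def V1 (V : Finset ℕ) (r : ℕ → ℕ) (S : Finset ℕ) : Finset ℕ := V.filter (fun m => ∃ p ∈ S, p ∣ r m)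

lemma mem_V1 {V : Finset ℕ} {r : ℕ → ℕ} {S : Finset ℕ} {m : ℕ} : m ∈ V1 V r S ↔ m ∈ V ∧ ∃ p ∈ S, p ∣ r m := by
  unfold V1
  rw [mem_filter]

/-- two different primes of `S` and `S'` divide `r m` -/
noncomputable def V2 (V : Finset ℕ) (r : ℕ → ℕ) (S S' : Finset ℕ) : Finset ℕ :=
  V.filter (fun m => ∃ p ∈ S, ∃ q ∈ S', p ≠ q ∧ p ∣ r m ∧ q ∣ r m)

lemma mem_V2 {V : Finset ℕ} {r : ℕ → ℕ} {S S' : Finset ℕ} {m : ℕ} :
    m ∈ V2 V r S S' ↔ m ∈ V ∧ ∃ p ∈ S, ∃ q ∈ S', p ≠ q ∧ p ∣ r m ∧ q ∣ r m := by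
  unfold V2
  rw [mem_filter]

/-- the large primes with `d ∣ f p` -/
def PQ (f : ℕ → ℕ) (z X d : ℕ) : Finset ℕ := (PP z X).filter (fun p => d ∣ f p)

lemma mem_PQ {f : ℕ → ℕ} {z X d p : ℕ} : p ∈ PQ f z X d ↔ p ∈ PP z X ∧ d ∣ f p := by
  unfold PQ
  rw [mem_filter]

lemma prime_PQ {f : ℕ → ℕ} {z X d : ℕ} : ∀ p ∈ PQ f z X d, p.Prime := fun _ hp => (mem_PP.1 (mem_PQ.1 hp).1).2.1

lemma card1 {V S : Finset ℕ} {r : ℕ → ℕ} {c : ℝ} (h : ∀ p : ℕ, p.Prime → ((V.filter (fun m => p ∣ r m)).card : ℝ) * p ≤ c)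
    (hS : ∀ p ∈ S, p.Prime) : ((V1 V r S).card : ℝ) ≤ c * ∑ p ∈ S, (1 : ℝ) / p := cardU h hS

lemma card2 {V S S' : Finset ℕ} {r : ℕ → ℕ} {c : ℝ} (hc : 0 ≤ c) (h : ∀ p q : ℕ, p.Prime → q.Prime → p ≠ q →
    ((V.filter (fun m => p ∣ r m ∧ q ∣ r m)).card : ℝ) * (p * q) ≤ c)
    (hS : ∀ p ∈ S, p.Prime) (hS' : ∀ p ∈ S', p.Prime) :
    ((V2 V r S S').card : ℝ) ≤ c * ((∑ p ∈ S, (1 : ℝ) / p) * ∑ p ∈ S', (1 : ℝ) / p) := cardU2 hc h hS hS'

/-- the new set -/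
noncomputable def VN (f : ℕ → ℕ) (z' : ℕ) (T : ℝ) (V : Finset ℕ) (r : ℕ → ℕ) : Finset ℕ :=
  V.filter (fun m => (∀ p ∈ (r m).primeFactors, (sp z' (f p) : ℝ) ≤ T) ∧
      (∀ p ∈ (r m).primeFactors, ∀ q : ℕ, q.Prime → z' < q → ¬ q ^ 2 ∣ f p) ∧
      (∀ p ∈ (r m).primeFactors, ∀ p' ∈ (r m).primeFactors, p ≠ p' → ∀ q : ℕ, q.Prime → z' < q →
        ¬ (q ∣ f p ∧ q ∣ f p')))

lemma mem_VN {f : ℕ → ℕ} {z' : ℕ} {T : ℝ} {V : Finset ℕ} {r : ℕ → ℕ} {m : ℕ} : m ∈ VN f z' T V r ↔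
    m ∈ V ∧ (∀ p ∈ (r m).primeFactors, (sp z' (f p) : ℝ) ≤ T) ∧
      (∀ p ∈ (r m).primeFactors, ∀ q : ℕ, q.Prime → z' < q → ¬ q ^ 2 ∣ f p) ∧
      (∀ p ∈ (r m).primeFactors, ∀ p' ∈ (r m).primeFactors, p ≠ p' → ∀ q : ℕ, q.Prime → z' < q →
        ¬ (q ∣ f p ∧ q ∣ f p')) := by
  unfold VN
  rw [mem_filter]

/-- the primes with a large smooth part of `f p` -/
noncomputable def PS (f : ℕ → ℕ) (z X z' : ℕ) (T : ℝ) : Finset ℕ := (PP z X).filter (fun p => T < (sp z' (f p) : ℝ))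

lemma mem_PS {f : ℕ → ℕ} {z X z' : ℕ} {T : ℝ} {p : ℕ} : p ∈ PS f z X z' T ↔ p ∈ PP z X ∧ T < (sp z' (f p) : ℝ) := by
  unfold PS
  rw [mem_filter]

lemma prime_PS {f : ℕ → ℕ} {z X z' : ℕ} {T : ℝ} : ∀ p ∈ PS f z X z' T, p.Prime :=
  fun _ hp => (mem_PP.1 (mem_PS.1 hp).1).2.1

lemma cover {f : ℕ → ℕ} (hf : LM f) {P M : ℕ} (hPM : ∀ p : ℕ, P ≤ p → p.Prime → f p ≤ M * p ∧
    ∀ q : ℕ, P ≤ q → q.Prime → f q = f p → q = p) {N z X z' : ℕ} {T : ℝ} {V : Finset ℕ} {r : ℕ → ℕ} (hz : P ≤ z)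
    (hPPr : ∀ m ∈ V, ∀ p ∈ (r m).primeFactors, p ∈ PP z X) :
    Icc 1 N \ VN f z' T V r ⊆ (Icc 1 N \ V) ∪ V1 V r (PS f z X z' T) ∪
      (Ioc z' (M * X)).biUnion (fun q => V1 V r (PQ f z X (q ^ 2))) ∪
      (Ioc z' (M * X)).biUnion (fun q => V2 V r (PQ f z X q) (PQ f z X q)) := by
  have hqY : ∀ p ∈ PP z X, ∀ q : ℕ, q ∣ f p → q ≤ M * X := by
    intro p hp q hq
    obtain ⟨h1, h2, h3⟩ := mem_PP.1 hp
    have h4 := Nat.le_of_dvd (hf.pos p h2.pos) hq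
    exact h4.trans (((hPM p (by omega) h2).1).trans (Nat.mul_le_mul_left _ h1))
  intro m hm
  rw [mem_sdiff] at hm
  rw [mem_union, mem_union, mem_union]
  by_cases hmV : m ∈ V
  swap
  · left; left; left
    exact mem_sdiff.2 ⟨hm.1, hmV⟩
  by_cases c1 : ∀ p ∈ (r m).primeFactors, (sp z' (f p) : ℝ) ≤ T
  swap
  · left; left; right
    push Not at c1
    obtain ⟨p, hp, h⟩ := c1
    exact mem_V1.2 ⟨hmV, p, mem_PS.2 ⟨hPPr m hmV p hp, h⟩, Nat.dvd_of_mem_primeFactors hp⟩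
  by_cases c2 : ∀ p ∈ (r m).primeFactors, ∀ q : ℕ, q.Prime → z' < q → ¬ q ^ 2 ∣ f p
  swap
  · left; right
    push Not at c2
    obtain ⟨p, hp, q, hq, hzq, hd⟩ := c2
    rw [mem_biUnion]
    refine ⟨q, ?_, ?_⟩
    · rw [mem_Ioc]
      exact ⟨hzq, hqY p (hPPr m hmV p hp) q ((dvd_pow_self q (by norm_num)).trans hd)⟩
    · exact mem_V1.2 ⟨hmV, p, mem_PQ.2 ⟨hPPr m hmV p hp, hd⟩, Nat.dvd_of_mem_primeFactors hp⟩
  by_cases c3 : ∀ p ∈ (r m).primeFactors, ∀ p' ∈ (r m).primeFactors, p ≠ p' → ∀ q : ℕ, q.Prime → z' < q →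
      ¬ (q ∣ f p ∧ q ∣ f p')
  swap
  · right
    push Not at c3
    obtain ⟨p, hp, p', hp', hne, q, hq, hzq, hd, hd'⟩ := c3
    rw [mem_biUnion]
    refine ⟨q, ?_, ?_⟩
    · rw [mem_Ioc]
      exact ⟨hzq, hqY p (hPPr m hmV p hp) q hd⟩
    · exact mem_V2.2 ⟨hmV, p, mem_PQ.2 ⟨hPPr m hmV p hp, hd⟩, p', mem_PQ.2 ⟨hPPr m hmV p' hp', hd'⟩, hne,
        Nat.dvd_of_mem_primeFactors hp, Nat.dvd_of_mem_primeFactors hp'⟩
  exact absurd (mem_VN.2 ⟨hmV, c1, c2, c3⟩) hm.2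

section counts

variable {V : Finset ℕ} {r f : ℕ → ℕ} {c R : ℝ} {z X z' Y : ℕ} (hc : 0 ≤ c) (hR : 0 ≤ R)
  (hone : ∀ p : ℕ, p.Prime → ((V.filter (fun m => p ∣ r m)).card : ℝ) * p ≤ c)
  (htwo : ∀ p q : ℕ, p.Prime → q.Prime → p ≠ q → ((V.filter (fun m => p ∣ r m ∧ q ∣ r m)).card : ℝ) * (p * q) ≤ c)
  (hrec : ∀ d : ℕ, 1 ≤ d → ∑ p ∈ PQ f z X d, (1 : ℝ) / p ≤ R / d) (hz' : 1 ≤ z')

include hc hR hone hrec hz' in
lemma count3 : (((Ioc z' Y).biUnion (fun q => V1 V r (PQ f z X (q ^ 2)))).card : ℝ) ≤ c * R / z' := by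
  have h1 : (((Ioc z' Y).biUnion (fun q => V1 V r (PQ f z X (q ^ 2)))).card : ℝ) ≤
      ∑ q ∈ Ioc z' Y, ((V1 V r (PQ f z X (q ^ 2))).card : ℝ) := by
    exact_mod_cast card_biUnion_le
  have h2 : ∀ q ∈ Ioc z' Y, ((V1 V r (PQ f z X (q ^ 2))).card : ℝ) ≤ c * R * (1 / (q : ℝ) ^ 2) := by
    intro q hq
    rw [mem_Ioc] at hq
    refine (card1 hone prime_PQ).trans ?_
    have h3 := hrec (q ^ 2) (Nat.pos_of_ne_zero (by
      have : q ≠ 0 := by omega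
      positivity))
    calc c * ∑ p ∈ PQ f z X (q ^ 2), (1 : ℝ) / p ≤ c * (R / ((q ^ 2 : ℕ) : ℝ)) := mul_le_mul_of_nonneg_left h3 hc
      _ = _ := by
        push_cast
        ring
  refine h1.trans ((sum_le_sum h2).trans ?_)
  rw [← mul_sum, div_eq_mul_one_div]
  exact mul_le_mul_of_nonneg_left (rec_sq hz') (by positivity)

include hc hR htwo hrec hz' in
lemma count4 : (((Ioc z' Y).biUnion (fun q => V2 V r (PQ f z X q) (PQ f z X q))).card : ℝ) ≤ c * R ^ 2 / z' := by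
  have h1 : (((Ioc z' Y).biUnion (fun q => V2 V r (PQ f z X q) (PQ f z X q))).card : ℝ) ≤
      ∑ q ∈ Ioc z' Y, ((V2 V r (PQ f z X q) (PQ f z X q)).card : ℝ) := by
    exact_mod_cast card_biUnion_le
  have h2 : ∀ q ∈ Ioc z' Y, ((V2 V r (PQ f z X q) (PQ f z X q)).card : ℝ) ≤ c * R ^ 2 * (1 / (q : ℝ) ^ 2) := by
    intro q hq
    rw [mem_Ioc] at hq
    refine (card2 hc htwo prime_PQ prime_PQ).trans ?_
    have h3 := hrec q (by omega)
    have h4 : 0 ≤ ∑ p ∈ PQ f z X q, (1 : ℝ) / p := sum_nonneg fun _ _ => by positivity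
    calc c * ((∑ p ∈ PQ f z X q, (1 : ℝ) / p) * ∑ p ∈ PQ f z X q, (1 : ℝ) / p) ≤ c * ((R / q) * (R / q)) := by
          apply mul_le_mul_of_nonneg_left _ hc
          exact mul_le_mul h3 h3 h4 (h4.trans h3)
      _ = _ := by ring
  refine h1.trans ((sum_le_sum h2).trans ?_)
  rw [← mul_sum, div_eq_mul_one_div (c * R ^ 2)]
  exact mul_le_mul_of_nonneg_left (rec_sq hz') (by positivity)

include hc hone hrec in
lemma count1 (hf : LM f) {T : ℝ} (hPPr : ∀ m ∈ V, ∀ p ∈ (r m).primeFactors, p ∈ PP z X) {s : ℕ → ℕ} {q : ℕ} (hq : q.Prime) :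
    (((VN f z' T V r).filter (fun m => q ∣ nr f z' (s m) (r m))).card : ℝ) * q ≤ c * R := by
  have hsub : (VN f z' T V r).filter (fun m => q ∣ nr f z' (s m) (r m)) ⊆ V1 V r (PQ f z X q) := by
    intro m hm
    rw [mem_filter] at hm
    obtain ⟨a1, a2, a3, a4⟩ := mem_VN.1 hm.1
    obtain ⟨_, p, hp, hd⟩ := c_val hf hq hm.2
    exact mem_V1.2 ⟨a1, p, mem_PQ.2 ⟨hPPr m a1 p hp, hd⟩, Nat.dvd_of_mem_primeFactors hp⟩
  have hq0 : (0 : ℝ) < q := by exact_mod_cast hq.pos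
  have h0 : (((VN f z' T V r).filter (fun m => q ∣ nr f z' (s m) (r m))).card : ℝ) ≤ ((V1 V r (PQ f z X q)).card : ℝ) := by
    exact_mod_cast card_le_card hsub
  have h1 := h0.trans ((card1 hone prime_PQ).trans (mul_le_mul_of_nonneg_left (hrec q hq.pos) hc))
  calc (((VN f z' T V r).filter (fun m => q ∣ nr f z' (s m) (r m))).card : ℝ) * q ≤ c * (R / q) * q :=
        mul_le_mul_of_nonneg_right h1 hq0.le
    _ = c * R := by field_simp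

include hc hR hone htwo hrec in
lemma count2 (hf : LM f) {T : ℝ} (hPPr : ∀ m ∈ V, ∀ p ∈ (r m).primeFactors, p ∈ PP z X) {s : ℕ → ℕ} {q q' : ℕ}
    (hq : q.Prime) (hq' : q'.Prime) (hne : q ≠ q') :
    (((VN f z' T V r).filter (fun m => q ∣ nr f z' (s m) (r m) ∧ q' ∣ nr f z' (s m) (r m))).card : ℝ) * (q * q') ≤
      c * (R + R ^ 2) := by
  have hsub : (VN f z' T V r).filter (fun m => q ∣ nr f z' (s m) (r m) ∧ q' ∣ nr f z' (s m) (r m)) ⊆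
      V1 V r (PQ f z X (q * q')) ∪ V2 V r (PQ f z X q) (PQ f z X q') := by
    intro m hm
    rw [mem_filter] at hm
    obtain ⟨a1, a2, a3, a4⟩ := mem_VN.1 hm.1
    obtain ⟨_, p, hp, hd⟩ := c_val hf hq hm.2.1
    obtain ⟨_, p', hp', hd'⟩ := c_val hf hq' hm.2.2
    rw [mem_union, mem_V1, mem_V2]
    by_cases h : p = p'
    · left
      subst h
      refine ⟨a1, p, mem_PQ.2 ⟨hPPr m a1 p hp, ?_⟩, Nat.dvd_of_mem_primeFactors hp⟩
      exact Nat.Coprime.mul_dvd_of_dvd_of_dvd ((Nat.coprime_primes hq hq').2 hne) hd hd'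
    · right
      exact ⟨a1, p, mem_PQ.2 ⟨hPPr m a1 p hp, hd⟩, p', mem_PQ.2 ⟨hPPr m a1 p' hp', hd'⟩, h,
        Nat.dvd_of_mem_primeFactors hp, Nat.dvd_of_mem_primeFactors hp'⟩
  have hq0 : (0 : ℝ) < q := by exact_mod_cast hq.pos
  have hq0' : (0 : ℝ) < q' := by exact_mod_cast hq'.pos
  have h2 : (((VN f z' T V r).filter (fun m => q ∣ nr f z' (s m) (r m) ∧ q' ∣ nr f z' (s m) (r m))).card : ℝ) ≤
      ((V1 V r (PQ f z X (q * q'))).card : ℝ) + ((V2 V r (PQ f z X q) (PQ f z X q')).card : ℝ) := by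
    exact_mod_cast (card_le_card hsub).trans (card_union_le _ _)
  have h3 := hrec (q * q') (Nat.mul_pos hq.pos hq'.pos)
  push_cast at h3
  have h4 : ((V1 V r (PQ f z X (q * q'))).card : ℝ) ≤ c * (R / (q * q')) :=
    (card1 hone prime_PQ).trans (mul_le_mul_of_nonneg_left h3 hc)
  have h5 : ((V2 V r (PQ f z X q) (PQ f z X q')).card : ℝ) ≤ c * ((R / q) * (R / q')) := by
    refine (card2 hc htwo prime_PQ prime_PQ).trans ?_
    apply mul_le_mul_of_nonneg_left _ hc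
    exact mul_le_mul (hrec q hq.pos) (hrec q' hq'.pos) (sum_nonneg fun _ _ => by positivity) (by positivity)
  calc (((VN f z' T V r).filter (fun m => q ∣ nr f z' (s m) (r m) ∧ q' ∣ nr f z' (s m) (r m))).card : ℝ) * (q * q') ≤
        (c * (R / (q * q')) + c * ((R / q) * (R / q'))) * (q * q') :=
        mul_le_mul_of_nonneg_right (h2.trans (add_le_add h4 h5)) (by positivity)
    _ = c * (R + R ^ 2) := by field_simp

end counts

end Pool.Agent.D0H71.CM
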