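import Pool.Agent.D0H71.CM.Keep

set_option autoImplicit false

/-!
From exceptional sets of small measure for every length to a sparse set of unit intervals that carries all exceptions for
all lengths at the same time.
-/

namespace Pool.Agent.D0H71.CM

open Finset MeasureTheory Classical
open Pool.Agent.N733.TG (Near near_count)

/-- a set of small measure contains few unit intervals -/
lemma card_le_volume (S : Finset ℕ) (E : Set ℝ) {x : ℝ} (hx : 0 ≤ x) (hE : volume E ≤ ENNReal.ofReal x)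
    (hS : ∀ n ∈ S, Set.Ico ((n : ℝ) + 1) (n + 2) ⊆ E) : (S.card : ℝ) ≤ x := by
  have h1 : volume (⋃ n ∈ S, Set.Ico ((n : ℝ) + 1) (n + 2)) = ∑ n ∈ S, volume (Set.Ico ((n : ℝ) + 1) (n + 2)) := by
    apply measure_biUnion_finset
    · intro a _ b _ hab
      rw [Function.onFun, Set.disjoint_left]
      rintro y ⟨h1, h2⟩ ⟨h3, h4⟩
      rcases Nat.lt_or_gt_of_ne hab with h | h
      · have : (a : ℝ) + 1 ≤ b := by exact_mod_cast h
        linarith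
      · have : (b : ℝ) + 1 ≤ a := by exact_mod_cast h
        linarith
    · intro _ _
      exact measurableSet_Ico
  have h2 : ∀ n ∈ S, volume (Set.Ico ((n : ℝ) + 1) (n + 2)) = 1 := by
    intro n _
    rw [Real.volume_Ico]
    norm_num
  rw [Finset.sum_congr rfl h2, Finset.sum_const, nsmul_eq_mul, mul_one] at h1
  have h3 : volume (⋃ n ∈ S, Set.Ico ((n : ℝ) + 1) (n + 2)) ≤ ENNReal.ofReal x := by
    refine (measure_mono ?_).trans hE
    exact Set.iUnion₂_subset hS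
  rw [h1, ← ENNReal.ofReal_natCast, ENNReal.ofReal_le_ofReal_iff hx] at h3
  exact h3

/-- the unit intervals with an exception -/
def BadN (Q : ℝ → ℝ → Prop) (η : ℝ) : Set ℕ :=
  {n : ℕ | ∃ t H : ℝ, (n : ℝ) ≤ t ∧ t < n + 1 ∧ t ^ η ≤ H ∧ H ≤ t / 16 ∧ ¬ Q t H}

/-- the unit interval `[n + 1, n + 2)` is exceptional for the length number `j` -/
def Level (P : ℝ → ℝ → Prop) (T η θ₀ : ℝ) (j n : ℕ) : Prop :=
  T ^ η ≤ T ^ η * (1 + θ₀) ^ j ∧ T ^ η * (1 + θ₀) ^ j ≤ T / 8 ∧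
    Set.Ico ((n : ℝ) + 1) (n + 2) ⊆ {t : ℝ | T ≤ t ∧ t ≤ 2 * T ∧ ¬ P t (T ^ η * (1 + θ₀) ^ j)}

/-- one block -/
theorem bad_block {P Q : ℝ → ℝ → Prop} {η δ θ₀ T₁ : ℝ} (hη : 0 < η) (hδ : 0 < δ) (hθ : 0 < θ₀)
    (hP : ∀ T : ℝ, T₁ ≤ T → ∀ H : ℝ, T ^ η ≤ H → H ≤ T / 8 →
      volume {t : ℝ | T ≤ t ∧ t ≤ 2 * T ∧ ¬ P t H} ≤ ENNReal.ofReal (T ^ (1 - δ)))
    (hPQ : ∀ t : ℝ, T₁ ≤ t → ∀ t' H H' : ℝ, t ≤ t' → t' ≤ t + 2 → H' + 2 ≤ H → H ≤ (1 + θ₀) * H' + 2 →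
      (t / 2) ^ η ≤ H' → H ≤ t → P t' H' → Q t H) :
    ∃ K T₂ : ℝ, 0 < K ∧ ∀ T : ℝ, T₂ ≤ T → ∀ S : Finset ℕ, (∀ n ∈ S, n ∈ BadN Q η ∧ 3 / 2 * T ≤ (n : ℝ) ∧
      (n : ℝ) + 3 ≤ 2 * T) → (S.card : ℝ) ≤ K * T ^ (1 - δ / 2) := by
  obtain ⟨L, hL⟩ : ∃ L : ℝ, L = Real.log (1 + θ₀) := ⟨_, rfl⟩
  have hL0 : 0 < L := by rw [hL]; exact Real.log_pos (by linarith)
  obtain ⟨c, hc⟩ : ∃ c : ℝ, c = (3 / 2 : ℝ) ^ η - 1 := ⟨_, rfl⟩
  have hc0 : 0 < c := by
    rw [hc]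
    have := Real.one_lt_rpow (show (1 : ℝ) < 3 / 2 by norm_num) hη
    linarith
  have htend := tendsto_rpow_atTop hη
  obtain ⟨T₃, hT₃⟩ := Filter.eventually_atTop.1 (htend.eventually_ge_atTop (2 / c))
  refine ⟨2 / (δ * L) + 1, max (max T₁ T₃) 10, by positivity, fun T hT S hS => ?_⟩
  have hT1 : T₁ ≤ T := (le_max_left _ _).trans ((le_max_left _ _).trans hT)
  have hT3 : T₃ ≤ T := (le_max_right _ _).trans ((le_max_left _ _).trans hT)
  have hT10 : 10 ≤ T := (le_max_right _ _).trans hT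
  have hT0 : 0 < T := by linarith
  have h2c : 2 ≤ c * T ^ η := by
    have := hT₃ T hT3
    rw [div_le_iff₀ hc0] at this
    linarith
  have hTη : 0 < T ^ η := Real.rpow_pos_of_pos hT0 _
  obtain ⟨J, hJ⟩ : ∃ J : ℕ, J = ⌊Real.log T / L⌋₊ := ⟨_, rfl⟩
  have hlogT : 0 ≤ Real.log T := Real.log_nonneg (by linarith)
  have hJle : (J : ℝ) ≤ Real.log T / L := by
    rw [hJ]
    exact Nat.floor_le (by positivity)
  have key : ∀ n ∈ S, ∃ j ∈ range (J + 1), T ^ η ≤ T ^ η * (1 + θ₀) ^ j ∧ T ^ η * (1 + θ₀) ^ j ≤ T / 8 ∧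
      Set.Ico ((n : ℝ) + 1) (n + 2) ⊆ {t : ℝ | T ≤ t ∧ t ≤ 2 * T ∧ ¬ P t (T ^ η * (1 + θ₀) ^ j)} := by
    intro n hn
    obtain ⟨⟨t, H, ht1, ht2, hH1, hH2, hQ⟩, hn1, hn2⟩ := hS n hn
    have ht3 : 3 / 2 * T ≤ t := hn1.trans ht1
    have ht0 : 0 < t := by linarith
    have hH3 : T ^ η + 2 ≤ H := by
      have e1 : (3 / 2 * T) ^ η ≤ t ^ η := Real.rpow_le_rpow (by linarith) ht3 hη.le
      rw [Real.mul_rpow (by norm_num) hT0.le] at e1
      have e2 : (3 / 2 : ℝ) ^ η = 1 + c := by rw [hc]; ring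
      rw [e2] at e1
      nlinarith
    have hH4 : H ≤ T / 8 := by linarith
    obtain ⟨j, hj1, hj2⟩ := exists_nat_pow_near (x := (H - 2) / T ^ η) (y := 1 + θ₀) (by
      rw [le_div_iff₀ hTη]
      linarith) (by linarith)
    rw [le_div_iff₀ hTη] at hj1
    rw [div_lt_iff₀ hTη] at hj2
    have hpow : 0 < (1 + θ₀) ^ j := by positivity
    have hj3 : (j : ℝ) * L ≤ Real.log T := by
      have e1 : (1 + θ₀) ^ j ≤ T := by
        have e2 : 1 ≤ T ^ η := Real.one_le_rpow (by linarith) hη.le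
        nlinarith
      have e3 := Real.log_le_log hpow e1
      rwa [Real.log_pow, ← hL] at e3
    have hj4 : j < J + 1 := by
      have : j ≤ J := by
        rw [hJ]
        apply Nat.le_floor
        rw [le_div_iff₀ hL0]
        exact hj3
      omega
    have hone : 1 ≤ (1 + θ₀) ^ j := one_le_pow₀ (by linarith)
    refine ⟨j, mem_range.2 hj4, by nlinarith, by linarith, ?_⟩
    rintro t' ⟨ht'1, ht'2⟩
    refine ⟨by linarith, by linarith, fun hPt => hQ ?_⟩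
    refine hPQ t (by linarith) t' H (T ^ η * (1 + θ₀) ^ j) (by linarith) (by linarith) (by linarith) ?_ ?_ (by linarith) hPt
    · rw [pow_succ] at hj2
      nlinarith
    · have e1 : (t / 2) ^ η ≤ T ^ η := Real.rpow_le_rpow (by positivity) (by linarith) hη.le
      nlinarith
  obtain ⟨G, hG⟩ : ∃ G : ℕ → ℕ → Prop, ∀ j n, G j n ↔ Level P T η θ₀ j n := ⟨Level P T η θ₀, fun _ _ => Iff.rfl⟩
  have hcard : S.card ≤ ∑ j ∈ range (J + 1), (S.filter (fun n => G j n)).card := by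
    refine le_trans (card_le_card ?_) card_biUnion_le
    intro n hn
    obtain ⟨j, hj, h⟩ := key n hn
    rw [mem_biUnion]
    refine ⟨j, hj, mem_filter.2 ⟨hn, ?_⟩⟩
    exact (hG j n).2 h
  have hTd : 0 ≤ T ^ (1 - δ) := (Real.rpow_pos_of_pos hT0 _).le
  have hone : ∀ j ∈ range (J + 1), ((S.filter (fun n => G j n)).card : ℝ) ≤ T ^ (1 - δ) := by
    intro j _
    rcases (S.filter (fun n => G j n)).eq_empty_or_nonempty with he | ⟨n0, hn0⟩
    · rw [he, card_empty, Nat.cast_zero]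
      exact hTd
    · rw [mem_filter] at hn0
      obtain ⟨a1, a2, _⟩ := (hG j n0).1 hn0.2
      refine card_le_volume _ _ hTd (hP T hT1 _ a1 a2) fun n hn => ?_
      rw [mem_filter] at hn
      exact ((hG j n).1 hn.2).2.2
  have h5 : (S.card : ℝ) ≤ (J + 1) * T ^ (1 - δ) := by
    calc (S.card : ℝ) ≤ ∑ j ∈ range (J + 1), ((S.filter (fun n => G j n)).card : ℝ) := by exact_mod_cast hcard
      _ ≤ ∑ _j ∈ range (J + 1), T ^ (1 - δ) := sum_le_sum hone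
      _ = (J + 1) * T ^ (1 - δ) := by
        rw [sum_const, card_range, nsmul_eq_mul]
        push_cast
        ring
  have h6 : (J : ℝ) + 1 ≤ (2 / (δ * L) + 1) * T ^ (δ / 2) := by
    have e1 : Real.log T ≤ T ^ (δ / 2) / (δ / 2) := Real.log_le_rpow_div hT0.le (by positivity)
    have e2 : 1 ≤ T ^ (δ / 2) := Real.one_le_rpow (by linarith) (by positivity)
    have e3 : Real.log T / L ≤ 2 / (δ * L) * T ^ (δ / 2) := by
      rw [div_le_iff₀ hL0]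
      refine e1.trans (le_of_eq ?_)
      field_simp
    linarith
  calc (S.card : ℝ) ≤ (J + 1) * T ^ (1 - δ) := h5
    _ ≤ ((2 / (δ * L) + 1) * T ^ (δ / 2)) * T ^ (1 - δ) := mul_le_mul_of_nonneg_right h6 hTd
    _ = (2 / (δ * L) + 1) * T ^ (1 - δ / 2) := by
      rw [mul_assoc, ← Real.rpow_add hT0]
      congr 2
      ring

/-- the number of bad unit intervals -/
theorem bad_count {P Q : ℝ → ℝ → Prop} {η δ θ₀ T₁ : ℝ} (hη : 0 < η) (hδ : 0 < δ) (hδ1 : δ ≤ 1) (hθ : 0 < θ₀)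
    (hP : ∀ T : ℝ, T₁ ≤ T → ∀ H : ℝ, T ^ η ≤ H → H ≤ T / 8 →
      volume {t : ℝ | T ≤ t ∧ t ≤ 2 * T ∧ ¬ P t H} ≤ ENNReal.ofReal (T ^ (1 - δ)))
    (hPQ : ∀ t : ℝ, T₁ ≤ t → ∀ t' H H' : ℝ, t ≤ t' → t' ≤ t + 2 → H' + 2 ≤ H → H ≤ (1 + θ₀) * H' + 2 →
      (t / 2) ^ η ≤ H' → H ≤ t → P t' H' → Q t H) :
    ∃ C : ℝ, ∀ X : ℕ, 1 ≤ X → (((Icc 1 X).filter (fun n => n ∈ BadN Q η)).card : ℝ) ≤ C * (X : ℝ) ^ (1 - δ / 2) := by
  obtain ⟨K, T₂, hK, h⟩ := bad_block hη hδ hθ hP hPQ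
  obtain ⟨B, hB⟩ : ∃ B : Set ℕ, B = BadN Q η := ⟨_, rfl⟩
  rw [← hB] at h ⊢
  obtain ⟨θ, hθ'⟩ : ∃ θ : ℝ, θ = 1 - δ / 2 := ⟨_, rfl⟩
  rw [← hθ'] at h ⊢
  have hθh : 1 / 2 ≤ θ := by rw [hθ']; linarith
  obtain ⟨X₀, hX₀⟩ : ∃ X₀ : ℕ, X₀ = max ⌈2 * T₂⌉₊ 40 := ⟨_, rfl⟩
  have hX₀1 : (2 * T₂ : ℝ) ≤ X₀ := by
    refine (Nat.le_ceil _).trans ?_
    rw [hX₀]
    exact_mod_cast le_max_left _ _
  have hX₀2 : (40 : ℝ) ≤ X₀ := by
    rw [hX₀]
    exact_mod_cast le_max_right _ _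
  refine ⟨X₀ + 12 * K, fun X => ?_⟩
  induction X using Nat.strong_induction_on with
  | _ X ih =>
    intro hX
    have hX1 : (1 : ℝ) ≤ X := by exact_mod_cast hX
    have hXθ : 1 ≤ (X : ℝ) ^ θ := Real.one_le_rpow hX1 (by linarith)
    rcases lt_or_ge X X₀ with hlt | hge
    · have e1 : (((Icc 1 X).filter (fun n => n ∈ B)).card : ℝ) ≤ X := by
        have : ((Icc 1 X).filter (fun n => n ∈ B)).card ≤ X := (card_filter_le _ _).trans (by simp)
        exact_mod_cast this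
      have e2 : (X : ℝ) ≤ X₀ := by exact_mod_cast hlt.le
      nlinarith
    · have hge' : (X₀ : ℝ) ≤ X := by exact_mod_cast hge
      obtain ⟨T, hT⟩ : ∃ T : ℝ, T = 11 / 20 * (X : ℝ) := ⟨_, rfl⟩
      obtain ⟨Y, hY⟩ : ∃ Y : ℕ, Y = ⌊(33 / 40 : ℝ) * X⌋₊ := ⟨_, rfl⟩
      have hX0 : (0 : ℝ) < X := by linarith
      have hYle : (Y : ℝ) ≤ 33 / 40 * X := by
        rw [hY]
        exact Nat.floor_le (by positivity)
      have hYX : Y < X := by
        have : (Y : ℝ) < X := by linarith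
        exact_mod_cast this
      have hY1 : 1 ≤ Y := by
        rw [hY]
        apply Nat.le_floor
        push_cast
        linarith
      have hih := ih Y hYX hY1
      have hsub : (Icc 1 X).filter (fun n => n ∈ B) ⊆ (Icc 1 Y).filter (fun n => n ∈ B) ∪
          ((Icc 1 X).filter (fun n => n ∈ B)).filter (fun n => Y < n) := by
        intro n hn
        rw [mem_union, mem_filter, mem_filter]
        have hn' := hn
        rw [mem_filter, mem_Icc] at hn'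
        rcases lt_or_ge Y n with h1 | h1
        · exact Or.inr ⟨hn, h1⟩
        · exact Or.inl ⟨mem_Icc.2 ⟨hn'.1.1, h1⟩, hn'.2⟩
      have hblock := h T (by rw [hT]; linarith) (((Icc 1 X).filter (fun n => n ∈ B)).filter (fun n => Y < n)) (by
        intro n hn
        rw [mem_filter, mem_filter, mem_Icc] at hn
        obtain ⟨⟨⟨a1, a2⟩, a3⟩, a4⟩ := hn
        have a5 : (n : ℝ) ≤ X := by exact_mod_cast a2
        refine ⟨a3, ?_, ?_⟩
        · have e1 : (33 / 40 : ℝ) * X < Y + 1 := by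
            rw [hY]
            exact Nat.lt_floor_add_one _
          have e2 : (Y : ℝ) + 1 ≤ n := by exact_mod_cast a4
          rw [hT]
          linarith
        · rw [hT]
          linarith)
      have e1 : (((Icc 1 X).filter (fun n => n ∈ B)).card : ℝ) ≤ (((Icc 1 Y).filter (fun n => n ∈ B)).card : ℝ) +
          ((((Icc 1 X).filter (fun n => n ∈ B)).filter (fun n => Y < n)).card : ℝ) := by
        exact_mod_cast (card_le_card hsub).trans (card_union_le _ _)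
      have e2 : (Y : ℝ) ^ θ ≤ 91 / 100 * (X : ℝ) ^ θ := by
        have f1 : (Y : ℝ) ^ θ ≤ (33 / 40 * (X : ℝ)) ^ θ := Real.rpow_le_rpow (Nat.cast_nonneg _) hYle (by linarith)
        rw [Real.mul_rpow (by norm_num) hX0.le] at f1
        have f2 : (33 / 40 : ℝ) ^ θ ≤ 91 / 100 := by
          have f3 : (33 / 40 : ℝ) ^ θ ≤ (33 / 40 : ℝ) ^ (1 / 2 : ℝ) :=
            Real.rpow_le_rpow_of_exponent_ge (by norm_num) (by norm_num) hθh
          refine f3.trans ?_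
          rw [← Real.sqrt_eq_rpow]
          rw [Real.sqrt_le_left (by norm_num)]
          norm_num
        nlinarith
      have e3 : T ^ θ ≤ (X : ℝ) ^ θ := Real.rpow_le_rpow (by rw [hT]; positivity) (by rw [hT]; linarith) (by linarith)
      have hC0 : 0 < (X₀ : ℝ) + 12 * K := by linarith
      calc (((Icc 1 X).filter (fun n => n ∈ B)).card : ℝ) ≤ (X₀ + 12 * K) * (Y : ℝ) ^ θ + K * T ^ θ :=
            e1.trans (add_le_add hih hblock)
        _ ≤ (X₀ + 12 * K) * (91 / 100 * (X : ℝ) ^ θ) + K * (X : ℝ) ^ θ :=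
            add_le_add (mul_le_mul_of_nonneg_left e2 hC0.le) (mul_le_mul_of_nonneg_left e3 hK.le)
        _ ≤ (X₀ + 12 * K) * (X : ℝ) ^ θ := by nlinarith

/-- large numbers -/
lemma large_num {α κ T₄ : ℝ} (hα : 0 < α) (hκ : 0 < κ) (hκ1 : κ < 1) :
    ∀ᶠ x : ℝ in Filter.atTop, x ^ (κ / 2) + 1 ≤ x ^ κ ∧ max T₄ 1 ≤ α * x - x ^ (κ / 2) := by
  have e1 : ∀ᶠ x : ℝ in Filter.atTop, 2 ≤ x ^ (κ / 2) :=
    (tendsto_rpow_atTop (show 0 < κ / 2 by positivity)).eventually_ge_atTop 2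
  have e2 : ∀ᶠ x : ℝ in Filter.atTop, (0 : ℝ) < x := Filter.eventually_gt_atTop 0
  have e3 : ∀ᶠ x : ℝ in Filter.atTop, max T₄ 1 ≤ α / 2 * x :=
    (Filter.tendsto_id.const_mul_atTop (show 0 < α / 2 by positivity)).eventually_ge_atTop _
  have e4 : ∀ᶠ x : ℝ in Filter.atTop, 2 / α ≤ x ^ (1 - κ / 2) :=
    (tendsto_rpow_atTop (show 0 < 1 - κ / 2 by linarith)).eventually_ge_atTop _
  filter_upwards [e1, e2, e3, e4] with x h1 h2 h3 h4
  constructor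
  · have h5 : x ^ (κ / 2) * x ^ (κ / 2) = x ^ κ := by
      rw [← Real.rpow_add h2]
      congr 1
      ring
    nlinarith
  · have h5 : x ^ (κ / 2) ≤ α / 2 * x := by
      have h6 : x ^ (1 - κ / 2) * x ^ (κ / 2) = x := by
        rw [← Real.rpow_add h2]
        have : 1 - κ / 2 + κ / 2 = 1 := by ring
        rw [this, Real.rpow_one]
      have h7 : 0 < x ^ (κ / 2) := Real.rpow_pos_of_pos h2 _
      rw [div_le_iff₀ hα] at h4
      calc x ^ (κ / 2) = 1 / 2 * (2 * x ^ (κ / 2)) := by ring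
        _ ≤ 1 / 2 * ((x ^ (1 - κ / 2) * α) * x ^ (κ / 2)) := by
          apply mul_le_mul_of_nonneg_left _ (by norm_num)
          exact mul_le_mul_of_nonneg_right h4 h7.le
        _ = α / 2 * (x ^ (1 - κ / 2) * x ^ (κ / 2)) := by ring
        _ = α / 2 * x := by rw [h6]
    linarith

/-- **All windows.** For almost all `m` there is no exception in the windows around `α F(m)`, for all lengths together. -/
theorem keep_set {Q : ℝ → ℝ → Prop} {η θ κ C T₄ : ℝ} {B : Set ℕ} (hθ0 : 0 ≤ θ) (hκ : 0 < κ) (hκ1 : θ + κ < 1)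
    (hC : ∀ X : ℕ, 1 ≤ X → (((Icc 1 X).filter (fun n => n ∈ B)).card : ℝ) ≤ C * (X : ℝ) ^ θ)
    (hQ : ∀ t : ℝ, T₄ ≤ t → ⌊t⌋₊ ∉ B → ∀ H : ℝ, t ^ η ≤ H → H ≤ t → Q t H)
    {F : ℕ → ℕ} (hF : Av F) {α : ℝ} (hα : 0 < α) (U : ℕ) :
    ∃ N₀ : ℕ, ∀ N : ℕ, N₀ ≤ N →
      ({m : ℕ | 1 ≤ m ∧ m ≤ N ∧ ¬ ∀ t H : ℝ, |t - α * F m| ≤ (F m : ℝ) ^ (κ / 2) → t ^ η ≤ H → H ≤ t →
        Q t H}.ncard : ℝ) ≤ N / Real.log N ^ U := by
  obtain ⟨x₀, hx₀⟩ := Filter.eventually_atTop.1 (large_num (T₄ := T₄) hα hκ (by linarith : κ < 1))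
  obtain ⟨V₀, hV₀⟩ : ∃ V₀ : ℕ, V₀ = ⌈x₀⌉₊ := ⟨_, rfl⟩
  obtain ⟨W, hW⟩ : ∃ W : Set ℕ, W = {v : ℕ | v < V₀ ∨ v ∈ Near B α κ} := ⟨_, rfl⟩
  obtain ⟨N₀, hN₀⟩ := cavoid hF (θ := θ + κ) (by linarith) (by linarith) (C * (α + 1) ^ θ * (2 / α + 1) + V₀) U
  have hcount : ∀ X : ℕ, 1 ≤ X → (((Icc 1 X).filter (fun v => v ∈ W)).card : ℝ) ≤
      (C * (α + 1) ^ θ * (2 / α + 1) + V₀) * (X : ℝ) ^ (θ + κ) := by
    intro X hX
    have h1 := near_count (θ := θ) (κ := κ) hθ0 hκ.le (by linarith) hα B hC X hX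
    have hX1 : (1 : ℝ) ≤ X := by exact_mod_cast hX
    have h2 : 1 ≤ (X : ℝ) ^ (θ + κ) := Real.one_le_rpow hX1 (by linarith)
    have h3 : (Icc 1 X).filter (fun v => v ∈ W) ⊆ (Icc 1 X).filter (fun v => v ∈ Near B α κ) ∪ range V₀ := by
      intro v hv
      rw [mem_filter, hW] at hv
      rw [mem_union, mem_filter, mem_range]
      rcases hv.2 with h | h
      · exact Or.inr h
      · exact Or.inl ⟨hv.1, h⟩
    have h4 : (((Icc 1 X).filter (fun v => v ∈ W)).card : ℝ) ≤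
        (((Icc 1 X).filter (fun v => v ∈ Near B α κ)).card : ℝ) + V₀ := by
      have := (card_le_card h3).trans (card_union_le _ _)
      rw [card_range] at this
      exact_mod_cast this
    have h5 : (V₀ : ℝ) ≤ V₀ * (X : ℝ) ^ (θ + κ) := le_mul_of_one_le_right (Nat.cast_nonneg _) h2
    calc _ ≤ _ := h4
      _ ≤ (C * (α + 1) ^ θ * (2 / α + 1)) * (X : ℝ) ^ (θ + κ) + V₀ * (X : ℝ) ^ (θ + κ) := add_le_add h1 h5
      _ = _ := by ring
  refine ⟨N₀, fun N hN => le_trans ?_ (hN₀ W hcount N hN)⟩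
  have hsub : {m : ℕ | 1 ≤ m ∧ m ≤ N ∧ ¬ ∀ t H : ℝ, |t - α * F m| ≤ (F m : ℝ) ^ (κ / 2) → t ^ η ≤ H → H ≤ t →
        Q t H} ⊆ (((Icc 1 N).filter (fun m => F m ∈ W) : Finset ℕ) : Set ℕ) := by
    rintro m ⟨hm1, hm2, hm3⟩
    rw [mem_coe, mem_filter, mem_Icc]
    refine ⟨⟨hm1, hm2⟩, ?_⟩
    rw [hW]
    by_contra hcon
    apply hm3
    intro t H ht hH1 hH2
    have hV : V₀ ≤ F m := by
      by_contra hc
      exact hcon (Or.inl (by omega))
    have hFx : x₀ ≤ (F m : ℝ) := by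
      refine (Nat.le_ceil x₀).trans ?_
      rw [← hV₀]
      exact_mod_cast hV
    obtain ⟨g1, g3⟩ := hx₀ _ hFx
    obtain ⟨a1, a2⟩ := abs_le.1 ht
    have ht4 : T₄ ≤ t := by linarith [le_max_left T₄ 1]
    have ht1 : 1 ≤ t := by linarith [le_max_right T₄ 1]
    refine hQ t ht4 (fun hB => hcon (Or.inr ?_)) H hH1 hH2
    have hfl := Nat.floor_le (show 0 ≤ t by linarith)
    have hfl2 := Nat.lt_floor_add_one t
    refine ⟨⌊t⌋₊, hB, Nat.le_floor (by exact_mod_cast ht1), ?_⟩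
    rw [abs_le]
    constructor <;> linarith
  have h2 := Set.ncard_le_ncard hsub (finite_toSet _)
  rw [Set.ncard_coe_finset] at h2
  exact_mod_cast h2

/-- short counts are regular -/
lemma count_regular {M : ℝ → ℝ → ℝ} {C : ℝ} (hC : 0 < C)
    (hM : ∀ T : ℝ, 10 ≤ T → ∀ H : ℝ, 3 ≤ H → H ≤ T →
      |M T (T + H) - H * Real.log T / (2 * Real.pi)| ≤ C * (H + Real.log T ^ 2)) {η θ : ℝ} (hη : 0 < η) (hθ : 0 < θ) :
    ∃ X₁ : ℝ, ∀ x : ℝ, X₁ ≤ x → ∀ h : ℝ, (x / 4) ^ η ≤ h → h ≤ x →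
      |M x (x + h) - h * Real.log x / (2 * Real.pi)| ≤ θ * (h * Real.log x / (2 * Real.pi)) := by
  have hpi := Real.pi_pos
  have e1 : ∀ᶠ x : ℝ in Filter.atTop, 4 * Real.pi * C / θ ≤ Real.log x :=
    Real.tendsto_log_atTop.eventually_ge_atTop _
  have e2 : ∀ᶠ x : ℝ in Filter.atTop, 3 ≤ (x / 4) ^ η :=
    ((tendsto_rpow_atTop hη).comp (Filter.tendsto_id.atTop_div_const (show (0 : ℝ) < 4 by norm_num))).eventually_ge_atTop 3
  have e3 : ∀ᶠ x : ℝ in Filter.atTop, ‖Real.log x‖ ≤ ((1 / 4) ^ η * θ / (4 * Real.pi * C)) * ‖x ^ η‖ :=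
    (isLittleO_log_rpow_atTop hη).bound (by positivity)
  have e4 : ∀ᶠ x : ℝ in Filter.atTop, (10 : ℝ) ≤ x := Filter.eventually_ge_atTop 10
  obtain ⟨X₁, hX₁⟩ := Filter.eventually_atTop.1 (((e1.and e2).and e3).and e4)
  refine ⟨X₁, fun x hx h hh1 hh2 => ?_⟩
  obtain ⟨⟨⟨g1, g2⟩, g3⟩, g4⟩ := hX₁ x hx
  have hx0 : 0 < x := by linarith
  have hl : 0 < Real.log x := Real.log_pos (by linarith)
  have hxη : 0 < x ^ η := Real.rpow_pos_of_pos hx0 _
  rw [Real.norm_of_nonneg hl.le, Real.norm_of_nonneg hxη.le] at g3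
  have h3 : 3 ≤ h := g2.trans hh1
  have h0 : 0 < h := by linarith
  refine (hM x g4 h h3 hh2).trans ?_
  have k1 : C * h ≤ θ / 2 * (h * Real.log x / (2 * Real.pi)) := by
    rw [div_le_iff₀ hθ] at g1
    rw [mul_div_assoc', le_div_iff₀ (by positivity)]
    nlinarith
  have k2 : C * Real.log x ^ 2 ≤ θ / 2 * (h * Real.log x / (2 * Real.pi)) := by
    have m1 : (x / 4) ^ η = (1 / 4) ^ η * x ^ η := by
      rw [← Real.mul_rpow (by norm_num) hx0.le]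
      congr 1
      ring
    have m2 : Real.log x * (4 * Real.pi * C) ≤ θ * h := by
      have m3 : Real.log x ≤ θ * h / (4 * Real.pi * C) := by
        refine g3.trans ?_
        have : ((1 / 4) ^ η * θ / (4 * Real.pi * C)) * x ^ η = θ * ((x / 4) ^ η) / (4 * Real.pi * C) := by
          rw [m1]
          ring
        rw [this]
        gcongr
      rwa [le_div_iff₀ (by positivity)] at m3
    rw [mul_div_assoc', le_div_iff₀ (by positivity)]
    nlinarith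
  calc C * (h + Real.log x ^ 2) = C * h + C * Real.log x ^ 2 := by ring
    _ ≤ θ * (h * Real.log x / (2 * Real.pi)) := by linarith

/-- the count of a slightly longer window -/
lemma count_ratio {M : ℝ → ℝ → ℝ} {C : ℝ} (hC : 0 < C)
    (hM : ∀ T : ℝ, 10 ≤ T → ∀ H : ℝ, 3 ≤ H → H ≤ T →
      |M T (T + H) - H * Real.log T / (2 * Real.pi)| ≤ C * (H + Real.log T ^ 2)) {η ε : ℝ} (hη : 0 < η) (hε : 0 < ε) :
    ∃ θ₀ : ℝ, 0 < θ₀ ∧ ∃ T₁ : ℝ, 10 ≤ T₁ ∧ ∀ t : ℝ, T₁ ≤ t → ∀ t' H H' : ℝ, t ≤ t' → t' ≤ t + 2 → H' + 2 ≤ H →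
      H ≤ (1 + θ₀) * H' + 2 → (t / 2) ^ η ≤ H' → H ≤ t → M t (t + H) ≤ (1 + ε) * M t' (t' + H') ∧ 0 ≤ M t' (t' + H') := by
  obtain ⟨θ, hθ⟩ : ∃ θ : ℝ, θ = min (1 / 2) (ε / 10) := ⟨_, rfl⟩
  have hθ0 : 0 < θ := by rw [hθ]; exact lt_min (by norm_num) (by positivity)
  have hθ1 : θ ≤ 1 / 2 := by rw [hθ]; exact min_le_left _ _
  have hθ2 : θ ≤ ε / 10 := by rw [hθ]; exact min_le_right _ _
  obtain ⟨X₁, hX₁⟩ := count_regular hC hM hη hθ0
  have e2 : ∀ᶠ x : ℝ in Filter.atTop, 2 / θ ≤ (x / 2) ^ η :=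
    ((tendsto_rpow_atTop hη).comp (Filter.tendsto_id.atTop_div_const (show (0 : ℝ) < 2 by norm_num))).eventually_ge_atTop _
  obtain ⟨X₂, hX₂⟩ := Filter.eventually_atTop.1 e2
  refine ⟨θ, hθ0, max (max X₁ X₂) 10, le_max_right _ _, fun t ht t' H H' h1 h2 h3 h4 h5 h6 => ?_⟩
  have ht1 : X₁ ≤ t := (le_max_left _ _).trans ((le_max_left _ _).trans ht)
  have ht2 : X₂ ≤ t := (le_max_right _ _).trans ((le_max_left _ _).trans ht)
  have ht10 : 10 ≤ t := (le_max_right _ _).trans ht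
  have hpi := Real.pi_pos
  have hH' : 2 ≤ θ * H' := by
    have := (hX₂ t ht2).trans h5
    rw [div_le_iff₀ hθ0] at this
    linarith
  have hH'0 : 0 < H' := by
    by_contra hc
    push Not at hc
    nlinarith
  have a1 := hX₁ t ht1 H ((Real.rpow_le_rpow (by linarith) (by linarith) hη.le).trans (h5.trans (by linarith))) h6
  have a2 := hX₁ t' (by linarith) H' ((Real.rpow_le_rpow (by linarith) (by linarith) hη.le).trans h5) (by linarith)
  obtain ⟨_, b1⟩ := abs_le.1 a1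
  obtain ⟨b2, _⟩ := abs_le.1 a2
  have hl : 0 < Real.log t := Real.log_pos (by linarith)
  have hl' : Real.log t ≤ Real.log t' := Real.log_le_log (by linarith) h1
  obtain ⟨y, hy⟩ : ∃ y : ℝ, y = H' * Real.log t' / (2 * Real.pi) := ⟨_, rfl⟩
  rw [← hy] at b2
  have hy0 : 0 < y := by
    rw [hy]
    have : 0 < Real.log t' := by linarith
    positivity
  have c1 : H * Real.log t / (2 * Real.pi) ≤ (1 + 2 * θ) * y := by
    rw [hy, mul_div_assoc']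
    apply div_le_div_of_nonneg_right _ (by positivity)
    calc H * Real.log t ≤ H * Real.log t' := mul_le_mul_of_nonneg_left hl' (by linarith)
      _ ≤ ((1 + 2 * θ) * H') * Real.log t' := mul_le_mul_of_nonneg_right (by linarith) (by linarith)
      _ = _ := by ring
  have c2 : (1 - θ) * y ≤ M t' (t' + H') := by linarith
  refine ⟨?_, le_trans (by nlinarith) c2⟩
  calc M t (t + H) ≤ (1 + θ) * (H * Real.log t / (2 * Real.pi)) := by linarith
    _ ≤ (1 + θ) * ((1 + 2 * θ) * y) := mul_le_mul_of_nonneg_left c1 (by linarith)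
    _ ≤ (1 + ε) * ((1 - θ) * y) := by
      have : (1 + θ) * (1 + 2 * θ) ≤ (1 + ε) * (1 - θ) := by nlinarith
      nlinarith
    _ ≤ (1 + ε) * M t' (t' + H') := mul_le_mul_of_nonneg_left c2 (by linarith)

/-- passing from the shorter window to the longer one -/
lemma lower_step {a b ε M M' A A' : ℝ} (ha : a ≤ b) (hb : 0 < b) (hε : 0 < ε) (hM : 0 ≤ M) (hM' : 0 ≤ M') (hA : 0 ≤ A)
    (h1 : M ≤ (1 + ε / (2 * b)) * M') (h2 : A' ≤ A) (h3 : (a - ε / 2) * M' ≤ A') : (a - ε) * M ≤ A := by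
  rcases le_or_gt (a - ε) 0 with h | h
  · nlinarith
  · have e1 : (a - ε) * M ≤ (a - ε) * ((1 + ε / (2 * b)) * M') := mul_le_mul_of_nonneg_left h1 h.le
    have e0 : (a - ε) * (ε / (2 * b)) ≤ ε / 2 := by
      rw [mul_div_assoc', div_le_iff₀ (by positivity)]
      nlinarith
    have e2 : (a - ε) * (1 + ε / (2 * b)) ≤ a - ε / 2 := by nlinarith
    have e3 : (a - ε) * ((1 + ε / (2 * b)) * M') ≤ (a - ε / 2) * M' := by nlinarith
    linarith

end Pool.Agent.D0H71.CM
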