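import Pool.Agent.Results.MP_f259ea_nt.EveryShortInterval
import Pool.Agent.D0H71.CM.Zeros
import Pool.Agent.D0H71.CM.Lin

set_option autoImplicit false

/-!
The exceptional pairs `(t, H)` for the distinct and the simple zeros of `L(s, χ)` in `(t, t + H]` lie over a sparse set of unit
intervals, for all lengths `H` together.
-/

open Filter Topology Complex MeasureTheory Finset

namespace Pool.Agent.D0H71.CM.ZerosL

open Pool.Agent.Results.MP_f259ea_nt.EveryShortInterval (zeros mult N Nd c zeros_eq N_eq Nd_eq)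

/-- the number of simple zeros on the critical line with ordinate in `(T₁, T₂]` -/
noncomputable def Ns {q : ℕ} [NeZero q] (χ : DirichletCharacter ℂ q) (T₁ T₂ : ℝ) : ℕ :=
  {s : ℂ | s ∈ zeros χ T₁ T₂ ∧ s.re = 1 / 2 ∧ mult χ s = 1}.ncard

theorem Ns_eq {q : ℕ} [NeZero q] (χ : DirichletCharacter ℂ q) (T₁ T₂ : ℝ) :
    Ns χ T₁ T₂ = H370.Ns (DirichletCharacter.LFunction χ) T₁ T₂ := by
  unfold Ns H370.Ns
  rw [zeros_eq]
  rfl

/-- the inequality for the interval `(t, t + H]` -/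
def Low (L : ℂ → ℂ) (A : ℝ → ℝ → ℝ) (k t H : ℝ) : Prop := k * (H370.NN L t (t + H) : ℝ) ≤ A t (t + H)

open Classical in
/-- `B` is sparse and every `t ≥ T₄` with integral part not in `B` has the property `Q` for all `H` -/
def Sparse (Q : ℝ → ℝ → Prop) (η θ : ℝ) : Prop := ∃ (C T₄ : ℝ) (B : Set ℕ),
  (∀ X : ℕ, 1 ≤ X → (((Icc 1 X).filter (fun n => n ∈ B)).card : ℝ) ≤ C * (X : ℝ) ^ θ) ∧
    ∀ t : ℝ, T₄ ≤ t → ⌊t⌋₊ ∉ B → ∀ H : ℝ, t ^ η ≤ H → H ≤ t → Q t H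

lemma Sparse.mono {Q Q' : ℝ → ℝ → Prop} {η θ : ℝ} (h : Sparse Q η θ) (hQ : ∀ t H, Q t H → Q' t H) : Sparse Q' η θ := by
  obtain ⟨C, T₄, B, h1, h2⟩ := h
  exact ⟨C, T₄, B, h1, fun t ht hB H hH1 hH2 => hQ t H (h2 t ht hB H hH1 hH2)⟩

theorem sparse {L : ℂ → ℂ} (hL : H370.GoodL L) {A : ℝ → ℝ → ℝ} (hA0 : ∀ a b, 0 ≤ A a b)
    (hAm : ∀ a b a' b' : ℝ, 1 ≤ a' → a' ≤ a → b ≤ b' → A a b ≤ A a' b') {k b η ε : ℝ} (h0 : 0 < η) (h1 : η < 1)
    (hε : 0 < ε) (hb : 0 < b) (hk : k ≤ b)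
    (halm : ∃ δ : ℝ, 0 < δ ∧ ∃ T0 : ℝ, 10 ≤ T0 ∧ ∀ T : ℝ, T0 ≤ T → ∀ H : ℝ, T ^ η ≤ H → H ≤ T / 8 →
      volume {t : ℝ | T ≤ t ∧ t ≤ 2 * T ∧ ¬ Low L A (k - ε / 2) t H} ≤ ENNReal.ofReal (T ^ (1 - δ)))
    (hev : ∃ T0 : ℝ, ∀ T : ℝ, T0 ≤ T → ∀ H : ℝ, T ^ ((1 + η) / 2) ≤ H → H ≤ T → Low L A (k - ε / 2) T H) :
    ∃ θ : ℝ, 0 ≤ θ ∧ θ < 1 ∧ Sparse (Low L A (k - ε)) η θ := by
  obtain ⟨δ₀, hδ₀, T0, hT1, hT0⟩ := halm
  obtain ⟨δ, hδ⟩ : ∃ δ : ℝ, δ = min δ₀ 1 := ⟨_, rfl⟩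
  have hδ0 : 0 < δ := by rw [hδ]; exact lt_min hδ₀ one_pos
  have hδ1 : δ ≤ 1 := by rw [hδ]; exact min_le_right _ _
  have hδ2 : δ ≤ δ₀ := by rw [hδ]; exact min_le_left _ _
  obtain ⟨C, hC, hM⟩ := H965SI.countShort L hL
  obtain ⟨θ₀, hθ₀, T₁, hT₁, hr⟩ := count_ratio (M := fun a b => (H370.NN L a b : ℝ)) hC
    (fun T hT H hH1 hH2 => (hM T hT H hH1 hH2 T (T + H) le_rfl (by linarith) (by linarith) le_rfl).1) h0
    (ε := ε / (2 * b)) (by positivity)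
  obtain ⟨T₂, hbig⟩ := hev
  have hlarge : ∀ᶠ t : ℝ in atTop, 16 ≤ t ^ ((1 - η) / 2) :=
    (tendsto_rpow_atTop (show 0 < (1 - η) / 2 by linarith)).eventually_ge_atTop 16
  obtain ⟨T₃, hT₃⟩ := eventually_atTop.1 hlarge
  obtain ⟨C', hC'⟩ := bad_count (P := Low L A (k - ε / 2)) (Q := Low L A (k - ε)) (η := η) (δ := δ) (θ₀ := θ₀)
    (T₁ := max T0 T₁) h0 hδ0 hδ1 hθ₀ (by
      intro T hT H hH1 hH2
      have hTT : T0 ≤ T := (le_max_left _ _).trans hT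
      refine (hT0 T hTT H hH1 hH2).trans ?_
      apply ENNReal.ofReal_le_ofReal
      exact Real.rpow_le_rpow_of_exponent_le (by linarith) (by linarith)) (by
      intro t ht t' H H' a1 a2 a3 a4 a5 a6 hP
      have ht1 : T₁ ≤ t := (le_max_right _ _).trans ht
      obtain ⟨r1, r2⟩ := hr t ht1 t' H H' a1 a2 a3 a4 a5 a6
      exact lower_step hk hb hε (Nat.cast_nonneg _) r2 (hA0 _ _) r1 (hAm _ _ _ _ (by linarith) a1 (by linarith)) hP)
  refine ⟨1 - δ / 2, by linarith, by linarith, C', max (max T₂ T₃) 1, BadN (Low L A (k - ε)) η, hC', ?_⟩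
  intro t ht hB H hH1 hH2
  have ht2 : T₂ ≤ t := (le_max_left _ _).trans ((le_max_left _ _).trans ht)
  have ht3 : T₃ ≤ t := (le_max_right _ _).trans ((le_max_left _ _).trans ht)
  have ht1 : 1 ≤ t := (le_max_right _ _).trans ht
  have ht0 : 0 < t := by linarith
  rcases le_or_gt H (t / 16) with hH3 | hH3
  · by_contra hQ
    exact hB ⟨t, H, Nat.floor_le ht0.le, Nat.lt_floor_add_one t, hH1, hH3, hQ⟩
  · have hpow : t ^ ((1 + η) / 2) ≤ t / 16 := by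
      have e1 : t ^ ((1 - η) / 2) * t ^ ((1 + η) / 2) = t := by
        rw [← Real.rpow_add ht0]
        have : (1 - η) / 2 + (1 + η) / 2 = 1 := by ring
        rw [this, Real.rpow_one]
      have e2 := hT₃ t ht3
      have e3 : 0 < t ^ ((1 + η) / 2) := Real.rpow_pos_of_pos ht0 _
      rw [le_div_iff₀ (by norm_num)]
      nlinarith
    have hb := hbig t ht2 H (hpow.trans hH3.le) hH2
    unfold Low at hb ⊢
    have hN : (0 : ℝ) ≤ (H370.NN L t (t + H) : ℝ) := Nat.cast_nonneg _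
    nlinarith

lemma bz {q : ℕ} [NeZero q] (χ : DirichletCharacter ℂ q) (hχ : χ.IsPrimitive) (τ : ℝ) (hτ : 0 < τ) (hτ1 : τ ≤ 1) :
    Pool.Agent.TH822.DZ.BZr (DirichletCharacter.LFunction χ) τ := by
  rcases eq_or_ne χ 1 with h | h
  · have hq : q = 1 := by
      rw [h, DirichletCharacter.IsPrimitive, DirichletCharacter.conductor_one] at hχ
      exact hχ.symm
    subst hq
    rw [DirichletCharacter.LFunction_modOne_eq]
    exact Pool.Agent.TH822.AA.bz_z τ hτ hτ1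
  · exact Pool.Agent.TH822.AA.bz_d χ hχ h τ hτ hτ1

/-- the inequality for the distinct zeros -/
def Distinct {q : ℕ} [NeZero q] (χ : DirichletCharacter ℂ q) (k t H : ℝ) : Prop :=
  k * (N χ t (t + H) : ℝ) ≤ (Nd χ t (t + H) : ℝ)

/-- the inequality for the simple zeros on the critical line -/
def Simple {q : ℕ} [NeZero q] (χ : DirichletCharacter ℂ q) (k t H : ℝ) : Prop :=
  k * (N χ t (t + H) : ℝ) ≤ (Ns χ t (t + H) : ℝ)

/-- distinct zeros -/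
theorem distinct {q : ℕ} [NeZero q] (χ : DirichletCharacter ℂ q) (hχ : χ.IsPrimitive) (j : ℕ) (hj : 1 ≤ j) {η ε : ℝ}
    (h0 : 0 < η) (h1 : η < 1) (hε : 0 < ε) :
    ∃ θ : ℝ, 0 ≤ θ ∧ θ < 1 ∧ Sparse (Distinct χ ((2 * j + 1 - c ((1 + η) / 2)) / (j * (j + 1)) - ε)) η θ := by
  have hL := H370.good_dirichlet χ hχ
  obtain ⟨L, hLd⟩ : ∃ L : ℂ → ℂ, L = DirichletCharacter.LFunction χ := ⟨_, rfl⟩
  rw [← hLd] at hL
  have hj1 : (1 : ℝ) ≤ j := by exact_mod_cast hj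
  have hjj : 0 < (j : ℝ) * (j + 1) := by positivity
  have hSJ : ∀ a b : ℝ, 0 ≤ Pool.Agent.Y771.DJ.SJ j L a b := by
    intro a b
    unfold Pool.Agent.Y771.DJ.SJ
    positivity
  obtain ⟨θ, hθ0, hθ1, h⟩ := sparse hL (A := fun a b => (j : ℝ) * (j + 1) * (H370.Nd L a b : ℝ)) (fun a b => by positivity)
    (fun a b a' b' e1 e2 e3 => by
      have := H370.Nd_mono hL e1 e2 e3
      have : (H370.Nd L a b : ℝ) ≤ H370.Nd L a' b' := by exact_mod_cast this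
      exact mul_le_mul_of_nonneg_left this hjj.le)
    (k := 2 * j + 1 - H295SI.cc ((1 + η) / 2)) (b := 2 * j + 1) h0 h1 hε (by positivity) (by
      have := H370.AS.cc_nonneg ((1 + η) / 2) (by linarith) (by linarith)
      linarith) (by
      obtain ⟨δ, hδ, T0, hT10, hT⟩ := Pool.Agent.Y771.DJ.almost_j j hj hL
        (by rw [hLd]; exact bz χ hχ) η ((1 + η) / 2) (ε / 2) h0 h1 (by linarith) (by linarith) (by linarith)
      refine ⟨δ, hδ, T0, hT10, fun T hTT H hH1 hH2 => (measure_mono ?_).trans (hT T hTT H hH1 hH2)⟩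
      rintro t ⟨ht1, ht2, ht3⟩
      refine ⟨⟨ht1, ht2⟩, fun hcon => ht3 ?_⟩
      unfold Low
      have := hSJ t (t + H)
      linarith) (by
      obtain ⟨T0, _, hT⟩ := Pool.Agent.Y771.DJ.every_j j hj hL ((1 + η) / 2) (ε / 2) (by linarith) (by linarith) (by linarith)
      refine ⟨T0, fun T hTT H hH1 hH2 => ?_⟩
      have h2 := hT T hTT H hH1 hH2
      unfold Low
      have := hSJ T (T + H)
      linarith)
  refine ⟨θ, hθ0, hθ1, h.mono fun t H b1 => ?_⟩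
  unfold Low at b1
  unfold Distinct
  have hc : H295SI.cc ((1 + η) / 2) = c ((1 + η) / 2) := rfl
  rw [hc] at b1
  rw [N_eq, Nd_eq, ← hLd]
  have hN : (0 : ℝ) ≤ (H370.NN L t (t + H) : ℝ) := Nat.cast_nonneg _
  refine le_of_mul_le_mul_left ?_ hjj
  refine le_trans ?_ b1
  rw [← mul_assoc]
  apply mul_le_mul_of_nonneg_right _ hN
  rw [mul_sub, mul_div_cancel₀ _ hjj.ne']
  have e1 : (1 : ℝ) ≤ (j : ℝ) * (j + 1) := by nlinarith
  have e2 : ε ≤ (j : ℝ) * (j + 1) * ε := le_mul_of_one_le_left hε.le e1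
  linarith

/-- more than 47 percent of the zeros are distinct -/
theorem distinct47 {q : ℕ} [NeZero q] (χ : DirichletCharacter ℂ q) (hχ : χ.IsPrimitive) {η : ℝ}
    (h0 : 0 < η) (h1 : η < 1) : ∃ θ : ℝ, 0 ≤ θ ∧ θ < 1 ∧ Sparse (Distinct χ (17 / 36)) η θ := by
  have hx : c ((1 + η) / 2) ≤ 1 / ((1 + η) / 2) + (1 + η) / 2 / 3 :=
    H295SI.cc_le _ (by linarith) (by linarith)
  have hx1 : 1 / ((1 + η) / 2) + (1 + η) / 2 / 3 < 13 / 6 := by
    have e : 1 / ((1 + η) / 2) = 2 / (1 + η) := by field_simp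
    rw [e, ← lt_sub_iff_add_lt, div_lt_iff₀ (by linarith)]
    nlinarith
  obtain ⟨ε, hε⟩ : ∃ ε : ℝ, ε = (13 / 6 - c ((1 + η) / 2)) / 6 := ⟨_, rfl⟩
  have hε0 : 0 < ε := by rw [hε]; linarith
  have e : ((2 * ((2 : ℕ) : ℝ) + 1 - c ((1 + η) / 2)) / (((2 : ℕ) : ℝ) * (((2 : ℕ) : ℝ) + 1)) - ε) = 17 / 36 := by
    rw [hε]; push_cast; ring
  have h2 := distinct χ hχ 2 (by norm_num) h0 h1 hε0
  rw [e] at h2
  exact h2

/-- simple zeros on the critical line -/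
theorem simple {q : ℕ} [NeZero q] (χ : DirichletCharacter ℂ q) (hχ : χ.IsPrimitive) {η ε : ℝ}
    (h0 : 0 < η) (h1 : η < 1) (hε : 0 < ε) :
    ∃ θ : ℝ, 0 ≤ θ ∧ θ < 1 ∧ Sparse (Simple χ (2 - c ((1 + η) / 2) - ε)) η θ := by
  have hL := H370.good_dirichlet χ hχ
  obtain ⟨θ, hθ0, hθ1, h⟩ := sparse hL (A := fun a b => (H370.Ns (DirichletCharacter.LFunction χ) a b : ℝ))
    (fun a b => by positivity)
    (fun a b a' b' e1 e2 e3 => by
      have := H370.Ns_mono hL e1 e2 e3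
      exact_mod_cast this)
    (k := 2 - H295SI.cc ((1 + η) / 2)) (b := 2) h0 h1 hε (by positivity) (by
      have := H370.AS.cc_nonneg ((1 + η) / 2) (by linarith) (by linarith)
      linarith) (by
      obtain ⟨δ, hδ, T0, hT10, hT⟩ := Pool.Agent.TH822.AA.almost_prim χ hχ η ((1 + η) / 2) (ε / 2) h0 h1
        (by linarith) (by linarith) (by linarith)
      refine ⟨δ, hδ, T0, hT10, fun T hTT H hH1 hH2 => (measure_mono ?_).trans (hT T hTT H hH1 hH2)⟩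
      rintro t ⟨ht1, ht2, ht3⟩
      refine ⟨⟨ht1, ht2⟩, fun hcon => ht3 ?_⟩
      unfold Low
      have e1 : (0 : ℝ) ≤ (W69DZ.EX (DirichletCharacter.LFunction χ) t (t + H) : ℝ) := Nat.cast_nonneg _
      linarith [hcon.1]) (by
      obtain ⟨T0, _, hT⟩ := H295SI.mainShort (DirichletCharacter.LFunction χ) hL ((1 + η) / 2) (ε / 2) (by linarith)
        (by linarith) (by linarith)
      exact ⟨T0, fun T hTT H hH1 hH2 => (hT T hTT H hH1 hH2).1⟩)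
  refine ⟨θ, hθ0, hθ1, h.mono fun t H b1 => ?_⟩
  unfold Low at b1
  unfold Simple
  rw [N_eq, Ns_eq]
  exact b1

/-- There is `κ > 0` such that for all compositions `F_1, …, F_k` of functions of the class `LM` and all real vectors
`α ≠ 0`, for all but `X ^ k / (log X) ^ U` of the tuples `m` of positive integers up to `X`, the property `Q t H` holds for ALL
`t ≥ 1` with `|t - ∑ α_i F_i(m_i)| ≤ (∑ F_i(m_i)) ^ κ` and ALL `H` with `t ^ η ≤ H ≤ t`. -/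
def AllWindows (Q : ℝ → ℝ → Prop) (η : ℝ) : Prop :=
  ∃ κ : ℝ, 0 < κ ∧ ∀ (k : ℕ) (F : Fin k → ℕ → ℕ), (∀ i, Comp (F i)) → ∀ α : Fin k → ℝ, α ≠ 0 →
    ∀ U : ℕ, ∃ X₀ : ℕ, ∀ X : ℕ, X₀ ≤ X →
      ({m : Fin k → ℕ | (∀ i, 1 ≤ m i ∧ m i ≤ X) ∧ ¬ ∀ t H : ℝ, 1 ≤ t →
        |t - ∑ i, α i * (F i (m i) : ℝ)| ≤ (∑ i, (F i (m i) : ℝ)) ^ κ → t ^ η ≤ H → H ≤ t → Q t H}.ncard : ℝ) ≤
        (X : ℝ) ^ k / Real.log X ^ U

/-- all the windows around the linear forms in the values of compositions -/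
theorem lin_windows {Q : ℝ → ℝ → Prop} {η : ℝ} (h : ∃ θ : ℝ, 0 ≤ θ ∧ θ < 1 ∧ Sparse Q η θ) : AllWindows Q η := by
  obtain ⟨θ, hθ0, hθ1, C, T₄, B, h1, h2⟩ := h
  refine ⟨(1 - θ) / 2, by linarith, fun k F hF α hα U => ?_⟩
  exact keep_lin (θ := θ) (κ := (1 - θ) / 2) hθ0 (by linarith) (by linarith) h1 h2 hF hα U

end Pool.Agent.D0H71.CM.ZerosL
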