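import Pool.Agent.D0H71.CM.ZerosL
import Pool.Agent.Y854.GM.Win
import Pool.Agent.Y854.GM.Rate

set_option autoImplicit false

/-!
The exceptional pairs `(t, H)` and the windows around `α v_n`, for all `α` outside a set of Hausdorff dimension less than one.
-/

open Filter Topology MeasureTheory Finset Classical

namespace Pool.Agent.D0H71.CM.ZerosM

open Pool.Agent.D0H71.CM.ZerosL (Sparse)
open Pool.Agent.Y854.GM (ExpLe win_nat sets_pow)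
open Pool.Agent.N733.TG (Near near_count)

lemma Ioc_eq (X : ℕ) : Ioc 0 X = Icc 1 X := by
  ext v
  rw [mem_Ioc, mem_Icc]
  omega

lemma tends {v : ℕ → ℝ} {τ : ℝ} (hτ : 0 ≤ τ) (hpos : ∀ n, 1 ≤ v n) (hv : ExpLe v τ) (x₀ : ℝ) :
    ∃ n₀ : ℕ, ∀ n : ℕ, n₀ ≤ n → x₀ ≤ v n := by
  have h1 := (hv (τ + 1) (by linarith)).tendsto_atTop_zero
  obtain ⟨y, hy⟩ : ∃ y : ℝ, y = max x₀ 1 := ⟨_, rfl⟩
  have hy1 : 1 ≤ y := by rw [hy]; exact le_max_right _ _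
  have hyx : x₀ ≤ y := by rw [hy]; exact le_max_left _ _
  have h2 : (0 : ℝ) < y ^ (-(τ + 1)) := Real.rpow_pos_of_pos (by linarith) _
  obtain ⟨n₀, hn₀⟩ := eventually_atTop.1 (h1.eventually (gt_mem_nhds h2))
  refine ⟨n₀, fun n hn => ?_⟩
  by_contra hcon
  push Not at hcon
  have h3 := hn₀ n hn
  have h4 : y ^ (-(τ + 1)) ≤ (v n) ^ (-(τ + 1)) :=
    Real.rpow_le_rpow_of_nonpos (by linarith [hpos n]) (by linarith) (by linarith)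
  linarith

/-- thin sequences -/
theorem metric_windows {Q : ℝ → ℝ → Prop} {η θ : ℝ} (hθ0 : 0 ≤ θ) (hθ1 : θ < 1) (h : Sparse Q η θ) :
    ∃ κ τ : ℝ, 0 < κ ∧ 0 < τ ∧ ∀ v : ℕ → ℝ, (∀ n, 1 ≤ v n) → ExpLe v τ → ∃ E : Set ℝ, dimH E < 1 ∧
      ∀ α : ℝ, 0 < α → α ∉ E → ∃ n₀ : ℕ, ∀ n : ℕ, n₀ ≤ n → ∀ t H : ℝ, |t - α * v n| ≤ (v n) ^ κ → t ^ η ≤ H →
        H ≤ t → Q t H := by
  obtain ⟨C, T₄, B, h1, h2⟩ := h
  obtain ⟨κ, hκ⟩ : ∃ κ : ℝ, κ = (1 - θ) / 4 := ⟨_, rfl⟩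
  have hκ0 : 0 < κ := by rw [hκ]; linarith
  have hκ1 : κ < 1 := by rw [hκ]; linarith
  refine ⟨κ / 2, κ, by positivity, hκ0, fun v hpos hv => ?_⟩
  obtain ⟨E, hE1, hE2⟩ := win_nat B (s := θ) (τ := κ) (θ := κ) hpos hκ0.le hv hθ0 hκ1 (fun ε hε => by
    refine ⟨|C|, fun X hX => ?_⟩
    rw [Ioc_eq]
    have hX1 : (1 : ℝ) ≤ X := by exact_mod_cast hX
    have e1 : (X : ℝ) ^ θ ≤ (X : ℝ) ^ (θ + ε) := Real.rpow_le_rpow_of_exponent_le hX1 (by linarith)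
    have e2 : 0 ≤ (X : ℝ) ^ θ := Real.rpow_nonneg (Nat.cast_nonneg _) _
    calc _ ≤ C * (X : ℝ) ^ θ := h1 X hX
      _ ≤ |C| * (X : ℝ) ^ θ := mul_le_mul_of_nonneg_right (le_abs_self _) e2
      _ ≤ |C| * (X : ℝ) ^ (θ + ε) := mul_le_mul_of_nonneg_left e1 (abs_nonneg _))
  refine ⟨E, lt_of_le_of_lt hE1 ?_, fun α hα hαE => ?_⟩
  · rw [← ENNReal.ofReal_one, ENNReal.ofReal_lt_ofReal_iff one_pos, div_lt_one (by linarith)]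
    rw [hκ]
    linarith
  · obtain ⟨n₁, hn₁⟩ := hE2 α hα hαE
    obtain ⟨x₀, hx₀⟩ := eventually_atTop.1 (large_num (T₄ := T₄) hα hκ0 hκ1)
    obtain ⟨n₂, hn₂⟩ := tends hκ0.le hpos hv x₀
    refine ⟨max n₁ n₂, fun n hn t H ht hH1 hH2 => ?_⟩
    obtain ⟨g1, g3⟩ := hx₀ _ (hn₂ n ((le_max_right _ _).trans hn))
    obtain ⟨a1, a2⟩ := abs_le.1 ht
    have ht4 : T₄ ≤ t := by linarith [le_max_left T₄ 1]
    have ht1 : 1 ≤ t := by linarith [le_max_right T₄ 1]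
    have hfl := Nat.floor_le (show 0 ≤ t by linarith)
    have hfl2 := Nat.lt_floor_add_one t
    refine h2 t ht4 ((hn₁ n ((le_max_left _ _).trans hn) ⌊t⌋₊ ?_).2) H hH1 hH2
    rw [abs_le]
    constructor <;> linarith

/-- powers with an exponent larger than one -/
theorem metric_pow {Q : ℝ → ℝ → Prop} {η θ : ℝ} (hθ0 : 0 ≤ θ) (hθ1 : θ < 1) (h : Sparse Q η θ) :
    ∃ κ : ℝ, 0 < κ ∧ ∀ d : ℝ, 1 < d → ∃ E : Set ℝ, dimH E < 1 ∧ ∀ α : ℝ, 0 < α → α ∉ E →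
      ∃ δ : ℝ, 0 < δ ∧ ∃ X₀ : ℕ, ∀ X : ℕ, X₀ ≤ X →
        ({n : ℕ | 1 ≤ n ∧ n ≤ X ∧ ¬ ∀ t H : ℝ, |t - α * (n : ℝ) ^ d| ≤ (α * (n : ℝ) ^ d) ^ κ → t ^ η ≤ H → H ≤ t →
          Q t H}.ncard : ℝ) ≤ (X : ℝ) ^ (1 - δ) := by
  obtain ⟨C, T₄, B, h1, h2⟩ := h
  obtain ⟨κ, hκ⟩ : ∃ κ : ℝ, κ = (1 - θ) / 2 := ⟨_, rfl⟩
  have hκ0 : 0 < κ := by rw [hκ]; linarith
  have hκ1 : κ < 1 := by rw [hκ]; linarith
  refine ⟨κ / 2, by positivity, fun d hd => ?_⟩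
  -- large numbers
  have e1 : ∀ᶠ x : ℝ in atTop, 3 ≤ x ^ (κ / 2) :=
    (tendsto_rpow_atTop (show 0 < κ / 2 by positivity)).eventually_ge_atTop 3
  have e2 : ∀ᶠ x : ℝ in atTop, (1 : ℝ) ≤ x := eventually_ge_atTop 1
  have e3 : ∀ᶠ x : ℝ in atTop, 2 * max T₄ 1 ≤ x := eventually_ge_atTop _
  have e4 : ∀ᶠ x : ℝ in atTop, 4 ≤ x ^ (1 - κ / 2) :=
    (tendsto_rpow_atTop (show 0 < 1 - κ / 2 by linarith)).eventually_ge_atTop _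
  obtain ⟨x₀, hx₀⟩ := eventually_atTop.1 (((e1.and e2).and e3).and e4)
  obtain ⟨V₀, hV₀⟩ : ∃ V₀ : ℕ, V₀ = ⌈x₀⌉₊ := ⟨_, rfl⟩
  obtain ⟨W, hW⟩ : ∃ W : Set ℕ, W = {v : ℕ | v < V₀ ∨ v ∈ Near B 1 κ} := ⟨_, rfl⟩
  obtain ⟨E, hE, hsets⟩ := sets_pow d hd (fun _ : Unit => W)
  refine ⟨E, hE, fun α hα hαE => ?_⟩
  obtain ⟨δ, hδ, _, N₀, hN₀⟩ := hsets α hα hαE () κ (C * (1 + 1) ^ θ * (2 / 1 + 1) + V₀) hκ0 ⟨1, fun X hX => by
    rw [Ioc_eq]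
    have g1 := near_count (θ := θ) (κ := κ) hθ0 hκ0.le hκ1.le one_pos B h1 X hX
    have hX1 : (1 : ℝ) ≤ X := by exact_mod_cast hX
    have hexp : θ + κ = 1 - κ := by rw [hκ]; ring
    rw [hexp] at g1
    have g2 : 1 ≤ (X : ℝ) ^ (1 - κ) := Real.one_le_rpow hX1 (by linarith)
    have g3 : (Icc 1 X).filter (fun v => v ∈ W) ⊆ (Icc 1 X).filter (fun v => v ∈ Near B 1 κ) ∪ range V₀ := by
      intro v hv
      rw [mem_filter, hW] at hv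
      rw [mem_union, mem_filter, mem_range]
      rcases hv.2 with h | h
      · exact Or.inr h
      · exact Or.inl ⟨hv.1, h⟩
    have g4 : (((Icc 1 X).filter (fun v => v ∈ W)).card : ℝ) ≤
        (((Icc 1 X).filter (fun v => v ∈ Near B 1 κ)).card : ℝ) + V₀ := by
      have := (card_le_card g3).trans (card_union_le _ _)
      rw [card_range] at this
      exact_mod_cast this
    have g5 : (V₀ : ℝ) ≤ V₀ * (X : ℝ) ^ (1 - κ) := le_mul_of_one_le_right (Nat.cast_nonneg _) g2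
    calc _ ≤ _ := g4
      _ ≤ (C * (1 + 1) ^ θ * (2 / 1 + 1)) * (X : ℝ) ^ (1 - κ) + V₀ * (X : ℝ) ^ (1 - κ) := add_le_add g1 g5
      _ = _ := by ring⟩
  refine ⟨δ, hδ, N₀, fun X hX => le_trans ?_ (hN₀ X hX)⟩
  have hsub : {n : ℕ | 1 ≤ n ∧ n ≤ X ∧ ¬ ∀ t H : ℝ, |t - α * (n : ℝ) ^ d| ≤ (α * (n : ℝ) ^ d) ^ (κ / 2) → t ^ η ≤ H →
      H ≤ t → Q t H} ⊆ (((Icc 1 X).filter (fun n : ℕ => ⌊α * (n : ℝ) ^ d⌋₊ ∈ W) : Finset ℕ) : Set ℕ) := by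
    rintro n ⟨hn1, hn2, hn3⟩
    rw [mem_coe, mem_filter, mem_Icc]
    refine ⟨⟨hn1, hn2⟩, ?_⟩
    rw [hW]
    by_contra hcon
    apply hn3
    intro t H ht hH1 hH2
    obtain ⟨x, hx⟩ : ∃ x : ℝ, x = α * (n : ℝ) ^ d := ⟨_, rfl⟩
    rw [← hx] at ht hcon
    have hx0 : 0 ≤ x := by rw [hx]; positivity
    obtain ⟨v, hv⟩ : ∃ v : ℕ, v = ⌊x⌋₊ := ⟨_, rfl⟩
    rw [← hv] at hcon
    have hvx : (v : ℝ) ≤ x := by rw [hv]; exact Nat.floor_le hx0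
    have hxv : x < v + 1 := by rw [hv]; exact Nat.lt_floor_add_one x
    have hV : V₀ ≤ v := by
      by_contra hc
      exact hcon (Or.inl (by omega))
    have hFx : x₀ ≤ (v : ℝ) := by
      refine (Nat.le_ceil x₀).trans ?_
      rw [← hV₀]
      exact_mod_cast hV
    obtain ⟨⟨⟨k1, k2⟩, k3⟩, k4⟩ := hx₀ _ hFx
    have hv0 : (0 : ℝ) < v := by linarith
    have hxpow : x ^ (κ / 2) ≤ 2 * (v : ℝ) ^ (κ / 2) := by
      have f1 : x ^ (κ / 2) ≤ (2 * (v : ℝ)) ^ (κ / 2) := Real.rpow_le_rpow hx0 (by linarith) (by positivity)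
      rw [Real.mul_rpow (by norm_num) hv0.le] at f1
      have f2 : (2 : ℝ) ^ (κ / 2) ≤ 2 := by
        calc (2 : ℝ) ^ (κ / 2) ≤ (2 : ℝ) ^ (1 : ℝ) := Real.rpow_le_rpow_of_exponent_le (by norm_num) (by linarith)
          _ = 2 := Real.rpow_one 2
      have f3 : 0 ≤ (v : ℝ) ^ (κ / 2) := by positivity
      nlinarith
    have hvk : (v : ℝ) ^ (κ / 2) * (v : ℝ) ^ (κ / 2) = (v : ℝ) ^ κ := by
      rw [← Real.rpow_add hv0]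
      congr 1
      ring
    have hvk2 : (v : ℝ) ^ (1 - κ / 2) * (v : ℝ) ^ (κ / 2) = v := by
      rw [← Real.rpow_add hv0]
      have : 1 - κ / 2 + κ / 2 = 1 := by ring
      rw [this, Real.rpow_one]
    have hp0 : 0 < (v : ℝ) ^ (κ / 2) := by positivity
    have hhalf : 2 * (v : ℝ) ^ (κ / 2) ≤ v / 2 := by nlinarith
    obtain ⟨a1, a2⟩ := abs_le.1 ht
    have ht4 : T₄ ≤ t := by linarith [le_max_left T₄ 1]
    have ht1 : 1 ≤ t := by linarith [le_max_right T₄ 1]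
    have hfl := Nat.floor_le (show 0 ≤ t by linarith)
    have hfl2 := Nat.lt_floor_add_one t
    refine h2 t ht4 (fun hB => hcon (Or.inr ?_)) H hH1 hH2
    refine ⟨⌊t⌋₊, hB, Nat.le_floor (by exact_mod_cast ht1), ?_⟩
    have hbig : 2 * (v : ℝ) ^ (κ / 2) + 2 ≤ (v : ℝ) ^ κ := by nlinarith
    rw [abs_le, one_mul]
    constructor <;> linarith
  have h3 := Set.ncard_le_ncard hsub (finite_toSet _)
  rw [Set.ncard_coe_finset] at h3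
  exact_mod_cast h3

end Pool.Agent.D0H71.CM.ZerosM
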